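import Pool.Agent.W656.VA8

/-!
Matrices over the complex group algebra acting on `ℓ²`: products, adjoints, traces.
-/

set_option autoImplicit false
set_option linter.unusedSectionVars false

open scoped InnerProductSpace ENNReal
open Filter Topology

namespace Pool.Agent.TH107.AT

open Pool.Agent.H80R2
open Pool.Agent.H80R2.BC (L2 GMat vdim IsTr LInv Equi act kerA)
open Pool.Agent.H812R3
open Pool.Agent.W656.VA

variable {ι κ μ G : Type} [Group G] [Fintype ι] [Fintype κ] [Fintype μ]

/-- right translation of functions -/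
def tr0 (G : Type) [Group G] : G →* Module.End ℂ (G → ℂ) where
  toFun g :=
    { toFun := fun φ x => φ (x * g)
      map_add' := fun _ _ => rfl
      map_smul' := fun _ _ => rfl }
  map_one' := by
    ext φ x
    change φ (x * 1) = φ x
    rw [mul_one]
  map_mul' g h := by
    apply LinearMap.ext
    intro φ
    funext x
    change φ (x * (g * h)) = φ (x * g * h)
    rw [mul_assoc]

/-- the group algebra acting on functions -/
noncomputable def ra : MonoidAlgebra ℂ G →ₐ[ℂ] Module.End ℂ (G → ℂ) :=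
  MonoidAlgebra.lift ℂ (Module.End ℂ (G → ℂ)) G (tr0 G)

theorem ra_apply (a : MonoidAlgebra ℂ G) (φ : G → ℂ) (x : G) :
    ra a φ x = a.coeff.sum (fun h c => c * φ (x * h)) := by
  rw [ra, MonoidAlgebra.lift_apply, Finsupp.sum, LinearMap.sum_apply, Finset.sum_apply]
  rfl

/-- the operator of a matrix over the group algebra -/
noncomputable def mop (X : Matrix κ ι (MonoidAlgebra ℂ G)) : L2 (ι × G) →L[ℂ] L2 (κ × G) :=
  op (fun k i => (X k i).coeff)

theorem mop_apply (X : Matrix κ ι (MonoidAlgebra ℂ G)) (f : L2 (ι × G)) (k : κ) (g : G) :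
    mop X f (k, g) = ∑ i, ra (X k i) (fun h => f (i, h)) g := by
  rw [mop, op_apply, act]
  refine Finset.sum_congr rfl fun i _ => ?_
  rw [ra_apply]

theorem equi_mop (X : Matrix κ ι (MonoidAlgebra ℂ G)) : Equi (mop X) := equi_op _

theorem mop_mul (X : Matrix μ κ (MonoidAlgebra ℂ G)) (Y : Matrix κ ι (MonoidAlgebra ℂ G)) :
    mop (X * Y) = (mop X).comp (mop Y) := by
  ext f ⟨m, g⟩
  rw [ContinuousLinearMap.comp_apply, mop_apply, mop_apply]
  have h1 : ∀ k, (fun h => mop Y f (k, h)) = ∑ i, ra (Y k i) (fun h => f (i, h)) := by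
    intro k
    funext h
    rw [mop_apply, Finset.sum_apply]
  simp only [h1, map_sum, Matrix.mul_apply, LinearMap.sum_apply, Finset.sum_apply, map_mul]
  rw [Finset.sum_comm]
  rfl

theorem mop_add (X Y : Matrix κ ι (MonoidAlgebra ℂ G)) : mop (X + Y) = mop X + mop Y := by
  ext f ⟨m, g⟩
  have h1 : (mop X + mop Y) f (m, g) = mop X f (m, g) + mop Y f (m, g) := rfl
  rw [h1, mop_apply, mop_apply, mop_apply, ← Finset.sum_add_distrib]
  refine Finset.sum_congr rfl fun i _ => ?_
  rw [Matrix.add_apply, map_add]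
  rfl

theorem mop_smul (c : ℂ) (X : Matrix κ ι (MonoidAlgebra ℂ G)) : mop (c • X) = c • mop X := by
  ext f ⟨m, g⟩
  have h1 : (c • mop X) f (m, g) = c * mop X f (m, g) := rfl
  rw [h1, mop_apply, mop_apply, Finset.mul_sum]
  refine Finset.sum_congr rfl fun i _ => ?_
  rw [Matrix.smul_apply, map_smul]
  rfl

theorem mop_sub (X Y : Matrix κ ι (MonoidAlgebra ℂ G)) : mop (X - Y) = mop X - mop Y := by
  have h1 : mop (X - Y) + mop Y = mop X := by rw [← mop_add, sub_add_cancel]
  rw [← h1, add_sub_cancel_right]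

theorem mop_one [DecidableEq ι] : mop (1 : Matrix ι ι (MonoidAlgebra ℂ G)) = 1 := by
  ext f ⟨m, g⟩
  rw [mop_apply, Finset.sum_eq_single m]
  · rw [Matrix.one_apply_eq, map_one]
    rfl
  · intro i _ hi
    rw [Matrix.one_apply_ne hi.symm, map_zero]
    rfl
  · intro h; exact absurd (Finset.mem_univ _) h

theorem mop_pow [DecidableEq ι] (X : Matrix ι ι (MonoidAlgebra ℂ G)) (n : ℕ) :
    mop (X ^ n) = mop X ^ n := by
  induction n with
  | zero => rw [pow_zero, pow_zero, mop_one]
  | succ n ih => rw [pow_succ, pow_succ, mop_mul, ih]; rfl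

theorem mop_de (X : Matrix κ ι (MonoidAlgebra ℂ G)) (i : ι) (h : G) (k : κ) (g : G) :
    mop X (de (i, h)) (k, g) = (X k i).coeff (g⁻¹ * h) := by
  classical
  rw [mop_apply, Finset.sum_eq_single i]
  · rw [ra_apply, Finsupp.sum]
    have h1 : ∀ h' : G, (de (i, h) : L2 (ι × G)) (i, g * h') = if h' = g⁻¹ * h then 1 else 0 := by
      intro h'
      rw [de, KP.dl_apply]
      by_cases e : h' = g⁻¹ * h
      · rw [if_pos e, if_pos]
        rw [e]; simp
      · rw [if_neg e, if_neg]
        intro h2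
        apply e
        simp only [Prod.mk.injEq, true_and] at h2
        rw [← h2]; group
    simp only [h1, mul_ite, mul_one, mul_zero]
    rw [Finset.sum_ite_eq']
    split_ifs with h2
    · rfl
    · exact (Finsupp.notMem_support_iff.1 h2).symm
  · intro i' _ hi
    rw [ra_apply, Finsupp.sum]
    refine Finset.sum_eq_zero fun h' _ => ?_
    rw [de, KP.dl_apply, if_neg, mul_zero]
    intro h2
    exact hi (congrArg Prod.fst h2)
  · intro h; exact absurd (Finset.mem_univ _) h

theorem trc_mop (X : Matrix ι ι (MonoidAlgebra ℂ G)) :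
    trc (mop X) = ∑ i, (X i i).coeff 1 := by
  unfold trc
  refine Finset.sum_congr rfl fun i _ => ?_
  rw [inner_de, mop_de, inv_one, one_mul]

/-- the involution of the group algebra -/
noncomputable def st (a : MonoidAlgebra ℂ G) : MonoidAlgebra ℂ G :=
  .ofCoeff ((a.coeff.mapDomain (fun g => g⁻¹)).mapRange (starRingEnd ℂ) (map_zero _))

theorem st_coeff (a : MonoidAlgebra ℂ G) (g : G) :
    (st a).coeff g = (starRingEnd ℂ) (a.coeff g⁻¹) := by
  rw [st, MonoidAlgebra.coeff_ofCoeff, Finsupp.mapRange_apply]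
  congr 1
  have := Finsupp.mapDomain_apply (f := fun g : G => g⁻¹) inv_injective a.coeff g⁻¹
  rw [inv_inv] at this
  exact this

/-- the adjoint matrix -/
noncomputable def adjM (X : Matrix κ ι (MonoidAlgebra ℂ G)) : Matrix ι κ (MonoidAlgebra ℂ G) :=
  Matrix.of fun i k => st (X k i)

theorem clm_ext {X Y : Type} {T S : L2 X →L[ℂ] L2 Y} (h : ∀ x y, T (de x) y = S (de x) y) :
    T = S := by
  ext1 ξ
  have h1 : ∀ x, T (de x) = S (de x) := fun x => by
    ext y
    exact h x y
  have h2 := (KP.hasSum_dl ξ).mapL T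
  have h3 := (KP.hasSum_dl ξ).mapL S
  have e : ∀ x, T (ξ x • (KP.dl x : L2 X)) = S (ξ x • (KP.dl x : L2 X)) := by
    intro x
    rw [map_smul, map_smul]
    congr 1
    exact h1 x
  simp only [e] at h2
  exact h2.unique h3

theorem adjoint_mop (X : Matrix κ ι (MonoidAlgebra ℂ G)) :
    ContinuousLinearMap.adjoint (mop X) = mop (adjM X) := by
  apply clm_ext
  rintro ⟨k, g⟩ ⟨i, h⟩
  rw [mop_de, ← inner_de, ContinuousLinearMap.adjoint_inner_right, inner_de_right, mop_de]
  change _ = (st (X k i)).coeff (h⁻¹ * g)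
  rw [st_coeff]
  congr 2
  group

theorem norm_el_le (k : κ) (i : ι) (h : G) : ‖el k i h‖ ≤ 1 := by
  unfold el
  refine (ContinuousLinearMap.opNorm_comp_le _ _).trans ?_
  have h1 : ‖KP.push (fun g : G => (k, g)) (inj_pair k)‖ ≤ 1 := by
    rw [KP.push, LinearIsometryEquiv.norm_map]
    exact KP.norm_pull_le _ _
  have h2 := KP.norm_pull_le (fun g : G => (i, g * h)) (inj_pair_mul i h)
  calc _ ≤ (1 : ℝ) * 1 := mul_le_mul h1 h2 (norm_nonneg _) zero_le_one
    _ = 1 := mul_one 1

/-- the `ℓ¹`-norm -/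
noncomputable def n1 (X : Matrix κ ι (MonoidAlgebra ℂ G)) : ℝ :=
  ∑ k, ∑ i, (X k i).coeff.sum fun _ c => ‖c‖

theorem n1_nonneg (X : Matrix κ ι (MonoidAlgebra ℂ G)) : 0 ≤ n1 X :=
  Finset.sum_nonneg fun _ _ => Finset.sum_nonneg fun _ _ => Finset.sum_nonneg fun _ _ =>
    norm_nonneg _

theorem norm_mop_le (X : Matrix κ ι (MonoidAlgebra ℂ G)) : ‖mop X‖ ≤ n1 X := by
  unfold mop op n1
  refine (norm_sum_le _ _).trans (Finset.sum_le_sum fun k _ => ?_)
  refine (norm_sum_le _ _).trans (Finset.sum_le_sum fun i _ => ?_)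
  refine (norm_sum_le _ _).trans (Finset.sum_le_sum fun h _ => ?_)
  refine (norm_smul_le ((X k i).coeff h) (el k i h)).trans ?_
  calc _ ≤ ‖(X k i).coeff h‖ * 1 :=
        mul_le_mul_of_nonneg_left (norm_el_le k i h) (norm_nonneg _)
    _ = _ := mul_one _

end Pool.Agent.TH107.AT
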