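import Pool.Agent.TH107.AT.Alg

/-!
Restriction to a subgroup of finite index.
-/

set_option autoImplicit false
set_option linter.unusedSectionVars false

open scoped InnerProductSpace ENNReal
open Filter Topology

namespace Pool.Agent.TH107.AT

open Pool.Agent.H80R2
open Pool.Agent.H80R2.BC (L2 GMat vdim IsTr LInv Equi act kerA Coef)
open Pool.Agent.H812R3
open Pool.Agent.W656.VA

variable {ι κ G : Type} [Group G] [Fintype ι] [Fintype κ]

/-- pulling back along a bijection -/
noncomputable def pb {X Y : Type} (f : X ≃ Y) (x : L2 Y) : L2 X := KP.pull f f.injective x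

theorem pb_apply {X Y : Type} (f : X ≃ Y) (x : L2 Y) (a : X) : pb f x a = x (f a) := rfl

theorem inner_pb {X Y : Type} (f : X ≃ Y) (x y : L2 Y) : ⟪pb f x, pb f y⟫_ℂ = ⟪x, y⟫_ℂ := by
  rw [lp.inner_eq_tsum, lp.inner_eq_tsum]
  exact Equiv.tsum_eq f (fun a => ⟪x a, y a⟫_ℂ)

section fi
variable (H : Subgroup G)

/-- representatives of the right cosets -/
noncomputable def rp (q : G ⧸ H) : G := (Quotient.out q)⁻¹

theorem rp_bij : Function.Bijective (fun p : (G ⧸ H) × H => (p.2 : G) * rp H p.1) := by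
  constructor
  · rintro ⟨q, h⟩ ⟨q', h'⟩ e
    simp only [rp] at e
    have h1 : q = q' := by
      have e2 : (Quotient.out q) * (h : G)⁻¹ = (Quotient.out q') * (h' : G)⁻¹ := by
        have := congrArg (fun x : G => x⁻¹) e
        simpa using this
      have e3 : (QuotientGroup.mk ((Quotient.out q) * (h : G)⁻¹) : G ⧸ H) = q := by
        rw [QuotientGroup.mk_mul_of_mem _ (H.inv_mem h.2)]
        exact Quotient.out_eq' q
      have e4 : (QuotientGroup.mk ((Quotient.out q') * (h' : G)⁻¹) : G ⧸ H) = q' := by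
        rw [QuotientGroup.mk_mul_of_mem _ (H.inv_mem h'.2)]
        exact Quotient.out_eq' q'
      rw [← e3, ← e4, e2]
    subst h1
    have h2 : (h : G) = h' := mul_right_cancel e
    rw [Subtype.ext h2]
  · intro g
    have h1 : (QuotientGroup.mk (Quotient.out (QuotientGroup.mk g⁻¹ : G ⧸ H)) : G ⧸ H) =
        QuotientGroup.mk g⁻¹ := Quotient.out_eq' _
    have h2 : (Quotient.out (QuotientGroup.mk g⁻¹ : G ⧸ H))⁻¹ * g⁻¹ ∈ H := QuotientGroup.eq.1 h1
    have h3 : g * Quotient.out (QuotientGroup.mk g⁻¹ : G ⧸ H) ∈ H := by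
      have := H.inv_mem h2
      simpa using this
    refine ⟨(QuotientGroup.mk g⁻¹, ⟨_, h3⟩), ?_⟩
    simp [rp]

/-- the bijection -/
noncomputable def eT : (G ⧸ H) × H ≃ G := Equiv.ofBijective _ (rp_bij H)

theorem eT_apply (q : G ⧸ H) (h : H) : eT H (q, h) = h * rp H q := rfl

/-- the bijection of the index sets -/
noncomputable def eI (ι : Type) : ((ι × (G ⧸ H)) × H) ≃ (ι × G) :=
  (Equiv.prodAssoc _ _ _).trans ((Equiv.refl ι).prodCongr (eT H))

theorem eI_apply (i : ι) (q : G ⧸ H) (h : H) : eI H ι ((i, q), h) = (i, (h : G) * rp H q) := rfl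

theorem inj_res (s t : G ⧸ H) : Function.Injective (fun a : H => (rp H s)⁻¹ * (a : G) * rp H t) := by
  intro a b h
  exact Subtype.ext (mul_left_cancel (mul_right_cancel h))

/-- restriction of a matrix -/
noncomputable def res (A : GMat κ ι G) : GMat (κ × (G ⧸ H)) (ι × (G ⧸ H)) H :=
  fun p q => (A p.1 q.1).comapDomain (fun a : H => (rp H p.2)⁻¹ * (a : G) * rp H q.2)
    (inj_res H p.2 q.2).injOn

theorem act_res [Fintype (G ⧸ H)] (A : GMat κ ι G) (x : L2 (ι × G)) (k : κ) (s : G ⧸ H) (h : H) :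
    act (res H A) (pb (eI H ι) x) (k, s) h = act A x k ((h : G) * rp H s) := by
  classical
  unfold act
  rw [Fintype.sum_prod_type]
  refine Finset.sum_congr rfl fun i _ => ?_
  have h1 : ∀ t : G ⧸ H, (res H A (k, s) (i, t)).sum
      (fun a c => c * pb (eI H ι) x ((i, t), h * a)) =
      ∑ a ∈ (res H A (k, s) (i, t)).support,
        (fun u => A k i u * x (i, (h : G) * rp H s * u)) ((rp H s)⁻¹ * (a : G) * rp H t) := by
    intro t
    rw [Finsupp.sum]
    refine Finset.sum_congr rfl fun a _ => ?_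
    rw [pb_apply, eI_apply]
    have e1 : (res H A (k, s) (i, t)) a = A k i ((rp H s)⁻¹ * (a : G) * rp H t) := rfl
    have e2 : (h : G) * rp H s * ((rp H s)⁻¹ * (a : G) * rp H t) =
        ((h * a : H) : G) * rp H t := by
      push_cast
      group
    rw [e1]
    simp only [e2]
  rw [Finset.sum_congr rfl fun t _ => h1 t, Finset.sum_sigma', Finsupp.sum]
  refine Finset.sum_bij (fun p _ => (rp H s)⁻¹ * ((p.2 : H) : G) * rp H p.1) ?_ ?_ ?_ ?_
  · rintro ⟨t, a⟩ hp
    have hp' := (Finset.mem_sigma.1 hp).2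
    rw [Finsupp.mem_support_iff] at hp' ⊢
    exact hp'
  · rintro ⟨t, a⟩ _ ⟨t', a'⟩ _ e
    have e2 : (a : G) * rp H t = (a' : G) * rp H t' := by
      have := congrArg (fun z => rp H s * z) e
      simpa [mul_assoc] using this
    have e3 := (rp_bij H).1 (a₁ := (t, a)) (a₂ := (t', a')) e2
    simp only [Prod.mk.injEq] at e3
    obtain ⟨rfl, rfl⟩ := e3
    rfl
  · intro u hu
    obtain ⟨⟨t, a⟩, hta⟩ := (rp_bij H).2 (rp H s * u)
    have e : (rp H s)⁻¹ * (a : G) * rp H t = u := by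
      rw [mul_assoc]
      change (rp H s)⁻¹ * ((fun p : (G ⧸ H) × H => (p.2 : G) * rp H p.1) (t, a)) = u
      rw [hta]
      group
    refine ⟨⟨t, a⟩, ?_, e⟩
    rw [Finset.mem_sigma]
    refine ⟨Finset.mem_univ _, ?_⟩
    rw [Finsupp.mem_support_iff] at hu ⊢
    change A k i ((rp H s)⁻¹ * (a : G) * rp H t) ≠ 0
    rw [e]
    exact hu
  · rintro ⟨t, a⟩ _
    rfl

/-- the dimensions are multiplied by the index -/
theorem vdim_res [Fintype (G ⧸ H)] (A : GMat κ ι G) :
    vdim (kerA (res H A)) = Fintype.card (G ⧸ H) * vdim (kerA A) := by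
  classical
  have hmem : ∀ x : L2 (ι × G), pb (eI H ι) x ∈ kerA (res H A) ↔ x ∈ kerA A := by
    intro x
    constructor
    · intro h k g
      obtain ⟨⟨t, a⟩, rfl⟩ := (rp_bij H).2 g
      rw [← act_res]
      exact h _ _
    · rintro h ⟨k, s⟩ a
      rw [act_res]
      exact h _ _
  obtain ⟨u, hu, hu2, hu3⟩ := exists_vec (isClosed_kerA A)
  let w : ι × (G ⧸ H) → L2 ((ι × (G ⧸ H)) × H) := fun p =>
    pb (eI H ι) (lt ι (rp H p.2)⁻¹ (u p.1))
  rw [vdim_of_vec (isClosed_kerA (res H A)) w, hu3]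
  · rw [Fintype.sum_prod_type, Finset.mul_sum]
    refine Finset.sum_congr rfl fun i _ => ?_
    have : ∀ t : G ⧸ H, (w (i, t) ((i, t), 1)).re = (u i (i, 1)).re := by
      intro t
      change (pb (eI H ι) (lt ι (rp H t)⁻¹ (u i)) ((i, t), 1)).re = _
      rw [pb_apply, eI_apply, lt_apply]
      congr 3
      simp
    simp only [this, Finset.sum_const, Finset.card_univ, nsmul_eq_mul]
  · intro p
    exact (hmem _).2 (linv_lt (linv_kerA A) _ (hu p.1))
  · rintro ⟨i, t⟩ x hx
    have hxx : pb (eI H ι) (pb (eI H ι).symm x) = x := by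
      ext a
      rw [pb_apply, pb_apply, Equiv.symm_apply_apply]
    rw [← hxx] at hx ⊢
    have hx2 := (hmem _).1 hx
    change ⟪pb (eI H ι) (lt ι (rp H t)⁻¹ (u i)), _⟫_ℂ = _
    have e1 : (pb (eI H ι) (pb (eI H ι).symm x)) ((i, t), 1) =
        (pb (eI H ι).symm x) (i, rp H t * 1) := by
      rw [pb_apply, eI_apply]
      simp
    rw [e1, inner_pb, inner_lt_left, inv_inv, hu2 i _ (linv_lt (linv_kerA A) _ hx2), lt_apply]

end fi

end Pool.Agent.TH107.AT
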