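import Pool.Agent.TH107.AT.Cl
import Pool.Agent.TH107.AT.Fi
import Pool.Agent.TH107.RF.CosetZD
import Pool.Agent.W656.VA9
import Pool.Agent.W656.VB6

/-!
Integrality of the kernel dimensions over the complex group ring, for the groups which embed in
pure Artin groups without large spherical parabolic subgroups, and for their finite extensions.
-/

set_option autoImplicit false
set_option linter.unusedSectionVars false

open scoped InnerProductSpace ENNReal
open Filter Topology

namespace Pool.Agent.TH107.AT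

open Pool.Agent.H80R2
open Pool.Agent.H80R2.BC (L2 GMat vdim IsTr LInv Equi act kerA Coef)
open Pool.Agent.H812R3
open Pool.Agent.W656.VA
open Pool.Agent.TH107.RF

theorem CA.tf {G : Type} [Group G] (h : CA G) : ∀ g : G, ∀ n : ℕ, 0 < n → g ^ n = 1 → g = 1 := by
  obtain ⟨S, _, _, M, hR, f, hf, h1⟩ := h
  intro g n hn hg
  let f' : G →* (toCox M).ker := f.codRestrict (toCox M).ker h1
  have hf' : Function.Injective f' := fun a b hab => hf (congrArg Subtype.val hab)
  have h2 := tf_of_li (li_ker hR) (f' g) n hn (by rw [← map_pow, hg, map_one])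
  exact hf' (by rw [h2, map_one])

/-- integer matrices -/
theorem CA.val_int {G : Type} [Group G] (h : CA G) (v : ℝ)
    (hv : Val (Int.castRingHom ℂ).range G v) : ∃ z : ℤ, v = z := by
  obtain ⟨m, n, A, hA, rfl⟩ := hv
  let X : Matrix (Fin n) (Fin m) (MonoidAlgebra ℂ G) :=
    Matrix.of fun k i => MonoidAlgebra.ofCoeff (A k i)
  have hX : Itg X := by
    intro k i g
    obtain ⟨z, hz⟩ := hA k i g
    exact ⟨z, hz.symm⟩
  obtain ⟨z, hz⟩ := integral_loc h.locGood X hX
  refine ⟨z, ?_⟩
  rw [← hz, kr_mop]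
  rfl

/-- complex matrices -/
theorem CA.val_int' {G : Type} [Group G] (h : CA G) (v : ℝ)
    (hv : Val (⊤ : Subring ℂ) G v) : ∃ z : ℤ, v = z := by
  have h1 := base_change (fun G _ => CA G) (fun G H _ _ hG hH => CA.prod G H hG hH)
    (fun G _ m hG => CA.free G m hG) (Int.castRingHom ℂ).range (by
      intro G _ hG d hd v hv
      obtain ⟨z, hz⟩ := CA.val_int hG v hv
      exact ⟨d * z, by rw [hz]; push_cast; ring⟩) ⊤ G h 1 (isLcm_one h.tf) v hv
  obtain ⟨z, hz⟩ := h1
  exact ⟨z, by rw [← hz]; simp⟩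

theorem CA.dim_int {ι κ G : Type} [Group G] [Fintype ι] [Fintype κ] (h : CA G)
    (A : GMat κ ι G) : ∃ z : ℤ, vdim (kerA A) = z :=
  h.val_int' _ (val_of A fun _ _ _ => Subring.mem_top _)

/-- finite extensions -/
theorem CA.dim_fi {ι κ G : Type} [Group G] [Fintype ι] [Fintype κ] (H : Subgroup G)
    [Finite (G ⧸ H)] (h : CA H) (A : GMat κ ι G) :
    ∃ z : ℤ, (H.index : ℝ) * vdim (kerA A) = z := by
  classical
  have : Fintype (G ⧸ H) := Fintype.ofFinite _
  obtain ⟨z, hz⟩ := h.dim_int (res H A)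
  refine ⟨z, ?_⟩
  rw [← hz, vdim_res, Subgroup.index, Nat.card_eq_fintype_card]

end Pool.Agent.TH107.AT
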