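import Pool.Agent.TH107.RF.Mono2

/-!
The representation of an Artin group whose generators fall into classes, with shifted variables.
-/

set_option autoImplicit false
set_option linter.unusedSectionVars false

namespace Pool.Agent.TH107.AT

open Matrix LaurentPolynomial
open Pool.Agent.TH107.RF Pool.Agent.TH107.RF.RFilt

section shift
variable {S C : Type} [Fintype S] [DecidableEq S] [DecidableEq C] {M : CoxeterMatrix S} (κ : S → C)
variable {L : Type*} [CommRing L] (c : L)

/-- the shift -/
def sc (s t : S) : L := if κ s = κ t then c else 0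

/-- the shifted variables -/
noncomputable def bk : S → S → FA S L :=
  fun s t => bf S L s t + algebraMap L (FA S L) (sc κ c s t)

/-- the shift of the variables -/
noncomputable def shk : FA S L →ₐ[L] FA S L :=
  MonoidAlgebra.lift L (FA S L) (FreeMonoid (S × S)) (FreeMonoid.lift (fun p => bk κ c p.1 p.2))

lemma shk_bf (s t : S) : shk κ c (bf S L s t) = bk κ c s t := by
  rw [shk, bf, MonoidAlgebra.lift_single, FreeMonoid.lift_eval_of, one_smul]

lemma sc_neg (s t : S) : sc κ (-c) s t = - sc κ c s t := by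
  unfold sc
  split_ifs
  · rfl
  · rw [neg_zero]

lemma shk_inj : Function.Injective (shk κ c) := by
  have h : (shk κ (-c)).comp (shk κ c) = AlgHom.id L (FA S L) := by
    apply MonoidAlgebra.algHom_ext'
    · apply FreeMonoid.hom_eq
      intro p
      change shk κ (-c) (shk κ c (bf S L p.1 p.2)) = bf S L p.1 p.2
      rw [shk_bf, bk, map_add, shk_bf, bk, AlgHom.commutes, sc_neg, map_neg]
      abel
    · ext
  intro x y hxy
  have := congrArg (shk κ (-c)) hxy
  have h1 : ∀ z, shk κ (-c) (shk κ c z) = z := fun z => DFunLike.congr_fun h z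
  rwa [h1, h1] at this

/-- naturality for the shifted variables, only the variables and the images of the constants
matter -/
lemma gram_shk (P : Par M L) (s t : S) :
    (shk κ c : FA S L →+* FA S L) (gram P (bf S L) s t) = gram P (bk κ c) s t := by
  by_cases hab : s = t
  · subst hab
    rw [gram_self, gram_self]
    exact (shk κ c).commutes _
  · by_cases h0 : M s t = 0
    · rw [gram_inf _ _ hab h0, gram_inf _ _ hab h0]
      exact shk_bf κ c s t
    · rw [gram_fin _ _ hab h0, gram_fin _ _ hab h0]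
      exact (shk κ c).commutes _

lemma shk_faithful (P : Par M L) (hf : ∀ g : Art M, Cm P (bf S L) g = 0 → g = 1) (g : Art M)
    (hg : Cm P (bk κ c) g = 0) : g = 1 := by
  have e : Cm P (bk κ c) g = (Cm P (bf S L) g).map (shk κ c : FA S L →+* FA S L) :=
    Cm_nat _ _ _ _ _ (gram_shk κ c P) g
  apply hf
  rw [e] at hg
  ext1 x s
  have h1 := congrFun (congrFun hg x) s
  rw [Matrix.map_apply] at h1
  have h2 : shk κ c (Cm P (bf S L) g x s) = shk κ c 0 := by rw [map_zero]; exact h1
  exact shk_inj κ c h2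

end shift

section spec
variable {S C : Type} [Fintype S] [DecidableEq S] [DecidableEq C] {M : CoxeterMatrix S} (κ : S → C)
  (m : ℕ)

/-- the constant -/
noncomputable def c0 : ℝ[T;T⁻¹] := -(1 + (T 1 : ℝ[T;T⁻¹]) ^ 2)

/-- minus the value of the Gram matrix inside a class -/
noncomputable def th0 : ℂ := 1 + (zm m) ^ 2

/-- the class matrix -/
noncomputable def Ek : Matrix S S ℂ := fun s t => if κ s = κ t then 1 else 0

/-- the specialised variables -/
noncomputable def b0 : S → S → ℂ := fun s t => if κ s = κ t then -(th0 m) else 0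

/-- the specialised matrices -/
noncomputable def Cc (g : Art M) : Matrix S S ℂ := Cm ((PR M).map (evm m)) (b0 κ m) g

variable {κ m}

lemma gram_b0 (hin : ∀ s t : S, s ≠ t → κ s = κ t → M s t = 0 ∨ M s t = m)
    (hout : ∀ s t, κ s ≠ κ t → M s t = 0 ∨ M s t = 2) :
    gram ((PR M).map (evm m)) (b0 κ m) = (-(th0 m)) • (Ek κ : Matrix S S ℂ) := by
  ext s t
  rw [Matrix.smul_apply, Ek, smul_eq_mul, mul_ite, mul_one, mul_zero]
  by_cases hst : s = t
  · subst hst
    rw [gram_self, if_pos rfl]
    change -(1 + (evm m (T 1)) ^ 2) = _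
    rw [evm_T]
    rfl
  · by_cases h0 : M s t = 0
    · rw [gram_inf _ _ hst h0]
      rfl
    · rw [gram_fin _ _ hst h0]
      change evm m (T 1) * evm m (LaurentPolynomial.C (lamR M s t)) = _
      rw [evm_T, evm_C]
      by_cases hk : κ s = κ t
      · rw [if_pos hk, lamR, (hin s t hst hk).resolve_left h0, th0]
        linear_combination zm_eq m
      · rw [if_neg hk, lamR, (hout s t hk).resolve_left h0]
        simp

lemma Cc_mul (hin : ∀ s t : S, s ≠ t → κ s = κ t → M s t = 0 ∨ M s t = m)
    (hout : ∀ s t, κ s ≠ κ t → M s t = 0 ∨ M s t = 2) (g h : Art M) :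
    Cc κ m (g * h) = Cc κ m g + Cc κ m h - (th0 m) • (Cc κ m g * Ek κ * Cc κ m h) := by
  unfold Cc
  rw [Cm_mul, gram_b0 hin hout, Matrix.mul_smul, Matrix.smul_mul, neg_smul, sub_eq_add_neg]

lemma Cc_one : Cc κ m (1 : Art M) = 0 := Cm_one _ _

/-- the specialisation of the representation -/
lemma Cc_eq (g : Art M) :
    Cc κ m g = (Cm (PR M) (bk κ c0) g).map (aug (evm m) S) := by
  classical
  have key : ∀ x : ℝ[T;T⁻¹], aug (evm m) S (algebraMap ℝ[T;T⁻¹] (FA S ℝ[T;T⁻¹]) x) = evm m x := by
    intro x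
    rw [aug_apply, coeff_algebraMap_one]
  apply Cm_nat
  intro a b
  by_cases hab : a = b
  · subst hab
    rw [gram_self, gram_self, key]
    change _ = -(1 + (evm m (T 1)) ^ 2)
    change evm m (-(1 + (T 1) ^ 2)) = _
    rw [map_neg, map_add, map_one, map_pow]
  · by_cases h0 : M a b = 0
    · rw [gram_inf _ _ hab h0, gram_inf _ _ hab h0, bk, map_add, key, aug_apply, bf,
        MonoidAlgebra.coeff_single, Finsupp.single_apply, if_neg, map_zero, zero_add, sc, b0]
      · split_ifs
        · rw [c0, map_neg, map_add, map_one, map_pow, evm_T, th0]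
        · exact map_zero _
      · intro h
        have := congrArg FreeMonoid.length h
        simp at this
    · rw [gram_fin _ _ hab h0, gram_fin _ _ hab h0, key]
      change evm m (T 1 * LaurentPolynomial.C (lamR M a b)) =
        evm m (T 1) * evm m (LaurentPolynomial.C (lamR M a b))
      rw [map_mul]

/-- the filtration -/
noncomputable abbrev Fk (S : Type) (m : ℕ) : RFilt (FA S ℝ[T;T⁻¹]) :=
  filP S (RingHom.ker (evm m)) unit_nat 1

/-- the first member of the filtration -/
lemma mem_KF_one (g : Art M) : g ∈ KF (PR M) (bk κ c0) (Fk S m) 1 ↔ Cc κ m g = 0 := by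
  constructor
  · intro h
    rw [Cc_eq]
    ext1 x s
    rw [Matrix.map_apply, aug_apply]
    have h1 := h x s 1
    have e : 1 - 1 * (1 : FreeMonoid (S × S)).length = 1 := rfl
    rw [e, pow_one, RingHom.mem_ker] at h1
    exact h1
  · intro h
    rw [mem_KF]
    intro x s w
    by_cases hw : w = 1
    · subst hw
      rw [Cc_eq] at h
      have h2 := congrFun (congrFun h x) s
      rw [Matrix.map_apply, aug_apply] at h2
      have e : 1 - 1 * (1 : FreeMonoid (S × S)).length = 1 := rfl
      rw [e, pow_one, RingHom.mem_ker]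
      exact h2
    · have : 1 ≤ w.length := by
        rcases Nat.eq_zero_or_pos w.length with h0 | h0
        · exact absurd (FreeMonoid.length_eq_zero.1 h0) hw
        · exact h0
      have e : 1 - 1 * w.length = 0 := by omega
      rw [e, pow_zero, Ideal.one_eq_top]
      trivial

lemma th0_ne (hm : 3 ≤ m) : th0 m ≠ 0 := by
  intro h0
  have hcos : 0 < Real.cos (Real.pi / m) := by
    apply Real.cos_pos_of_mem_Ioo
    have hmpos : (3 : ℝ) ≤ m := by exact_mod_cast hm
    have hpi := Real.pi_pos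
    constructor
    · have : 0 < Real.pi / m := by positivity
      linarith
    · rw [div_lt_div_iff_of_pos_left hpi (by linarith) (by norm_num)]
      linarith
  have h1 := zm_eq m
  have h2 : ((2 * Real.cos (Real.pi / m) : ℝ) : ℂ) * zm m = 0 := by
    rw [th0] at h0
    linear_combination h1 - h0
  rcases mul_eq_zero.1 h2 with h3 | h3
  · have h4 : (2 * Real.cos (Real.pi / m) : ℝ) = 0 := by exact_mod_cast h3
    linarith
  · exact zm_ne m h3

/-- one minus the constant is a unit -/
noncomputable def u0 (m : ℕ) : ℂˣ := Units.mk0 (-(zm m ^ 2)) (neg_ne_zero.2 (pow_ne_zero 2 (zm_ne m)))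

lemma u0_val : ((u0 m : ℂˣ) : ℂ) = 1 - th0 m := by
  rw [u0, Units.val_mk0, th0]; ring

/-- the degree with respect to a class -/
def dgk (hout : ∀ s t, κ s ≠ κ t → M s t = 0 ∨ M s t = 2) (l : S) : Art M →* Multiplicative ℤ :=
  PresentedGroup.toGroup (f := fun s => if κ s = κ l then Multiplicative.ofAdd 1 else 1) (by
    rintro r ⟨i, j, h, rfl⟩
    rw [map_mul, map_inv, map_alt, map_alt, FreeGroup.lift_apply_of, FreeGroup.lift_apply_of,
      mul_inv_eq_one]
    by_cases hij : κ i = κ j
    · rw [hij]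
    · rw [(hout i j hij).resolve_left h]
      simp only [alt, mul_one]
      exact mul_comm _ _)

lemma dgk_sg (hout : ∀ s t, κ s ≠ κ t → M s t = 0 ∨ M s t = 2) (l s : S) :
    dgk hout l (sg M s) = if κ s = κ l then Multiplicative.ofAdd 1 else 1 :=
  PresentedGroup.toGroup.of _

/-- the diagonal matrices of the characters -/
noncomputable def Dk (m : ℕ) (hout : ∀ s t, κ s ≠ κ t → M s t = 0 ∨ M s t = 2) (g : Art M) :
    Matrix S S ℂ :=
  Matrix.diagonal fun l => (((u0 m) ^ (dgk hout l g).toAdd : ℂˣ) : ℂ)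

lemma Dk_mul (hout : ∀ s t, κ s ≠ κ t → M s t = 0 ∨ M s t = 2) (g h : Art M) :
    Dk m hout (g * h) = Dk m hout g * Dk m hout h := by
  unfold Dk
  rw [Matrix.diagonal_mul_diagonal]
  congr 1
  funext l
  rw [map_mul, toAdd_mul, _root_.zpow_add, Units.val_mul]

lemma Dk_one (hout : ∀ s t, κ s ≠ κ t → M s t = 0 ∨ M s t = 2) :
    Dk m hout (1 : Art M) = 1 := by
  unfold Dk
  simp

/-- the common eigenvectors -/
lemma eig (hin : ∀ s t : S, s ≠ t → κ s = κ t → M s t = 0 ∨ M s t = m)
    (hout : ∀ s t, κ s ≠ κ t → M s t = 0 ∨ M s t = 2) (g : Art M) :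
    Ek κ * (1 - (th0 m) • (Cc κ m g * Ek κ)) = Dk m hout g * Ek κ := by
  have key : g ∈ (⊤ : Subgroup (Art M)) := trivial
  rw [← cl_univ, cl] at key
  have hmul : ∀ g h : Art M, (1 - (th0 m) • (Cc κ m (g * h) * Ek κ) : Matrix S S ℂ) =
      (1 - (th0 m) • (Cc κ m g * Ek κ)) * (1 - (th0 m) • (Cc κ m h * Ek κ)) := by
    intro g h
    rw [Cc_mul hin hout]
    simp only [Matrix.add_mul, Matrix.sub_mul, Matrix.mul_sub, Matrix.mul_one, Matrix.one_mul,
      Matrix.smul_mul, Matrix.mul_smul, Matrix.mul_assoc, smul_add, smul_sub]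
    abel
  induction key using Subgroup.closure_induction with
  | mem x hx =>
    obtain ⟨s, -, rfl⟩ := hx
    ext a b
    rw [Cc, Cm_sg, Dk, Matrix.diagonal_mul, dgk_sg, Matrix.mul_sub, Matrix.mul_one,
      Matrix.sub_apply, Matrix.mul_smul, Matrix.smul_apply, Matrix.mul_apply]
    have h1 : ∀ j, Ek κ a j * ((single s s (1 : ℂ) * Ek κ : Matrix S S ℂ) j b) =
        if j = s then Ek κ a s * Ek κ s b else 0 := by
      intro j
      by_cases h : j = s
      · subst h
        rw [if_pos rfl, Matrix.single_mul_apply_same, one_mul]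
      · rw [if_neg h, Matrix.single_mul_apply_of_ne (h := h), mul_zero]
    simp only [h1, Finset.sum_ite_eq', Finset.mem_univ, if_true, smul_eq_mul]
    unfold Ek
    by_cases has : κ a = κ s
    · rw [if_pos has, if_pos has.symm, toAdd_ofAdd, zpow_one, u0_val, has]
      ring
    · have has' : ¬ κ s = κ a := fun h => has h.symm
      simp only [if_neg has, if_neg has', toAdd_one, zpow_zero, Units.val_one]
      ring
  | one =>
    rw [Cc_one, Dk_one]
    simp
  | mul x y _ _ hx hy =>
    rw [hmul, ← Matrix.mul_assoc, hx, Matrix.mul_assoc, hy, ← Matrix.mul_assoc, ← Dk_mul]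
  | inv x _ hx =>
    have h1 := hmul x x⁻¹
    rw [mul_inv_cancel, Cc_one] at h1
    have h2 : Dk m hout x⁻¹ * Dk m hout x = 1 := by rw [← Dk_mul, inv_mul_cancel, Dk_one]
    have h3 : Ek κ = Dk m hout x * (Ek κ * (1 - (th0 m) • (Cc κ m x⁻¹ * Ek κ))) := by
      rw [← Matrix.mul_assoc, ← hx, Matrix.mul_assoc, ← h1]
      simp
    calc Ek κ * (1 - (th0 m) • (Cc κ m x⁻¹ * Ek κ))
        = Dk m hout x⁻¹ * (Dk m hout x * (Ek κ * (1 - (th0 m) • (Cc κ m x⁻¹ * Ek κ)))) := by
          rw [← Matrix.mul_assoc, h2, Matrix.one_mul]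
      _ = _ := by rw [← h3]

/-- elements of degree zero -/
def BB (hout : ∀ s t, κ s ≠ κ t → M s t = 0 ∨ M s t = 2) : Subgroup (Art M) :=
  ⨅ l, (dgk hout l).ker

lemma mem_BB (hout : ∀ s t, κ s ≠ κ t → M s t = 0 ∨ M s t = 2) (g : Art M) :
    g ∈ BB hout ↔ ∀ l, dgk hout l g = 1 := by
  rw [BB, Subgroup.mem_iInf]
  rfl

instance BB_normal (hout : ∀ s t, κ s ≠ κ t → M s t = 0 ∨ M s t = 2) : (BB hout).Normal := by
  unfold BB
  exact Subgroup.normal_iInf_normal fun l => inferInstance

lemma ECE (hm : 3 ≤ m) (hin : ∀ s t : S, s ≠ t → κ s = κ t → M s t = 0 ∨ M s t = m)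
    (hout : ∀ s t, κ s ≠ κ t → M s t = 0 ∨ M s t = 2) {g : Art M} (hg : g ∈ BB hout) :
    Ek κ * (Cc κ m g * Ek κ) = 0 := by
  have h1 := eig hin hout g
  have h2 : Dk m hout g = 1 := by
    unfold Dk
    have : ∀ l, dgk hout l g = 1 := (mem_BB hout g).1 hg
    simp [this]
  rw [h2, Matrix.one_mul, Matrix.mul_sub, Matrix.mul_one, sub_eq_self, Matrix.mul_smul,
    smul_eq_zero] at h1
  exact h1.resolve_left (th0_ne hm)

end spec

end Pool.Agent.TH107.AT
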