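import Pool.Agent.TH107.AT.Cb1

/-!
Finite quotients which kill a member of the filtration.
-/

set_option autoImplicit false
set_option linter.unusedSectionVars false

namespace Pool.Agent.TH107.AT

open Matrix LaurentPolynomial
open Pool.Agent.TH107.RF Pool.Agent.TH107.RF.RFilt

/-- finitely generated commutative rings are residually finite -/
theorem ring_rf (R : Type) [CommRing R] [alg : Algebra ℤ R] [Algebra.FiniteType ℤ R] {y : R}
    (hy : y ≠ 0) : ∃ I : Ideal R, Finite (R ⧸ I) ∧ y ∉ I := by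
  obtain rfl : alg = Ring.toIntAlgebra R := Subsingleton.elim _ _
  have hN : IsNoetherianRing R := Algebra.FiniteType.isNoetherianRing ℤ R
  set A : Ideal R := LinearMap.ker (LinearMap.toSpanSingleton R R y) with hA
  have hmemA : ∀ r : R, r ∈ A ↔ r * y = 0 := by
    intro r
    rw [hA, LinearMap.mem_ker, LinearMap.toSpanSingleton_apply, smul_eq_mul]
  have hA1 : A ≠ ⊤ := by
    intro h
    have h1 : (1 : R) ∈ A := by rw [h]; trivial
    rw [hmemA, one_mul] at h1
    exact hy h1
  obtain ⟨m, hm, hAm⟩ := Ideal.exists_le_maximal A hA1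
  have hfin : Finite (R ⧸ m) := residue_finite R m
  have hex : ∃ e : ℕ, y ∉ m ^ e := by
    by_contra hcon
    push Not at hcon
    have h1 : y ∈ (⨅ i : ℕ, m ^ i • (⊤ : Submodule R R)) := by
      rw [Submodule.mem_iInf]
      intro i
      rw [smul_eq_mul, Ideal.mul_top]
      exact hcon i
    obtain ⟨r, hr⟩ := (Ideal.mem_iInf_smul_pow_eq_bot_iff m y).1 h1
    have h2 : (1 - (r : R)) ∈ A := by
      rw [hmemA, sub_mul, one_mul, sub_eq_zero]
      exact hr.symm
    have h3 : (1 : R) ∈ m := by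
      have := m.add_mem (hAm h2) r.2
      rwa [sub_add_cancel] at this
    exact hm.ne_top ((Ideal.eq_top_iff_one m).2 h3)
  obtain ⟨e, he⟩ := hex
  exact ⟨m ^ e, Ideal.finite_quotient_pow (IsNoetherian.noetherian m) e, he⟩

section
variable {S C : Type} [Fintype S] [DecidableEq S] [DecidableEq C] (M : CoxeterMatrix S) (κ : S → C)

/-- the constant in the base ring -/
noncomputable def c1 : AA M := -(1 + (⟨T 1, T_mem M⟩ : AA M) ^ 2)

lemma c1_val : ((c1 M : AA M) : ℝ[T;T⁻¹]) = c0 := rfl

/-- the representation over the base ring -/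
lemma Cm_base (g : Art M) : Cm (PR M) (bk κ c0) g = (Cm (PA M) (bk κ (c1 M)) g).map
    (MonoidAlgebra.mapRingHom (FreeMonoid (S × S)) (AA M).val.toRingHom) := by
  have key : ∀ x : AA M, MonoidAlgebra.mapRingHom (FreeMonoid (S × S)) (AA M).val.toRingHom
      (algebraMap (AA M) (FA S (AA M)) x) = algebraMap ℝ[T;T⁻¹] (FA S ℝ[T;T⁻¹]) (x : ℝ[T;T⁻¹]) := by
    intro x
    simp only [MonoidAlgebra.coe_algebraMap, Function.comp_apply,
      MonoidAlgebra.mapRingHom_single, Algebra.algebraMap_self, RingHom.id_apply]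
    rfl
  apply Cm_nat
  intro a b
  by_cases hab : a = b
  · subst hab
    rw [gram_self, gram_self, key]
    rfl
  · by_cases h0 : M a b = 0
    · rw [gram_inf _ _ hab h0, gram_inf _ _ hab h0, bk, bk, map_add, key, bf, bf,
        MonoidAlgebra.mapRingHom_single, map_one]
      congr 2
      unfold sc
      split_ifs
      · rfl
      · rfl
    · rw [gram_fin _ _ hab h0, gram_fin _ _ hab h0, key]
      rfl

variable {M κ}

/-- finite quotients which kill a member of the filtration -/
theorem rf_KF {m : ℕ} {j : ℕ} {g : Art M} (hg : g ∉ KF (PR M) (bk κ c0) (Fk S m) j) :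
    ∃ (F : Type) (_ : Group F) (_ : Finite F) (ψ : Art M →* F),
      KF (PR M) (bk κ c0) (Fk S m) j ≤ ψ.ker ∧ ψ g ≠ 1 := by
  classical
  rw [mem_KF, MM] at hg
  push Not at hg
  obtain ⟨x, s, hxs⟩ := hg
  have hxs' : ∃ w : FreeMonoid (S × S),
      (Cm (PR M) (bk κ c0) g x s).coeff w ∉ (RingHom.ker (evm m)) ^ (j - 1 * w.length) := by
    by_contra hcon
    push Not at hcon
    exact hxs hcon
  obtain ⟨w, hw⟩ := hxs'
  set i := j - 1 * w.length with hi
  set I0 : Ideal (AA M) := ((RingHom.ker (evm m)) ^ i).comap (AA M).val.toRingHom with hI0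
  set y : AA M := (Cm (PA M) (bk κ (c1 M)) g x s).coeff w with hy
  have hcoef : ∀ (h : Art M) (x s : S) (w : FreeMonoid (S × S)),
      (Cm (PR M) (bk κ c0) h x s).coeff w =
        ((Cm (PA M) (bk κ (c1 M)) h x s).coeff w : AA M) := by
    intro h x s w
    rw [Cm_base, Matrix.map_apply, MonoidAlgebra.coeff_mapRingHom]
    rfl
  have hyI : y ∉ I0 := by
    intro h
    apply hw
    rw [hcoef]
    exact h
  have hy0 : (Ideal.Quotient.mk I0 y) ≠ 0 := fun h => hyI (Ideal.Quotient.eq_zero_iff_mem.1 h)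
  have hft : Algebra.FiniteType ℤ (AA M ⧸ I0) :=
    Algebra.FiniteType.of_surjective ((Ideal.Quotient.mkₐ (AA M) I0).restrictScalars ℤ)
      Ideal.Quotient.mk_surjective
  obtain ⟨J, hJ, hyJ⟩ := ring_rf (AA M ⧸ I0) hy0
  let K := (AA M ⧸ I0) ⧸ J
  let φ : AA M →+* K := (Ideal.Quotient.mk J).comp (Ideal.Quotient.mk I0)
  have hφy : φ y ≠ 0 := fun h => hyJ (Ideal.Quotient.eq_zero_iff_mem.1 h)
  have hφI : ∀ z ∈ I0, φ z = 0 := by
    intro z hz
    change (Ideal.Quotient.mk J) ((Ideal.Quotient.mk I0) z) = 0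
    rw [Ideal.Quotient.eq_zero_iff_mem.2 hz, map_zero]
  have hK : Finite K := hJ
  let W := w.toList
  let b2 : S → S → Matrix (Fin (W.length + 1)) (Fin (W.length + 1)) K :=
    fun s t => fw W φ (bk κ (c1 M) s t)
  have hnat : ∀ h : Art M, Cm ((PA M).map φ) b2 h =
      (Cm (PA M) (bk κ (c1 M)) h).map (fw W φ) := by
    intro h
    apply Cm_nat
    intro a b
    have key : ∀ x : AA M, fw W φ (algebraMap (AA M) (FA S (AA M)) x) =
        algebraMap K (Matrix (Fin (W.length + 1)) (Fin (W.length + 1)) K) (φ x) := by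
      intro x
      have : algebraMap (AA M) (FA S (AA M)) x = MonoidAlgebra.single 1 x := by simp
      rw [this, fw, MonoidAlgebra.liftNCRingHom_single, map_one, mul_one]
      rfl
    by_cases hab : a = b
    · subst hab
      rw [gram_self, gram_self, key]
      simp [Par.map]
      abel
    · by_cases h0 : M a b = 0
      · rw [gram_inf _ _ hab h0, gram_inf _ _ hab h0]
      · rw [gram_fin _ _ hab h0, gram_fin _ _ hab h0, key]
        simp [Par.map]
  refine ⟨(Circ (gram ((PA M).map φ) b2))ˣ, inferInstance, inferInstance,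
    rho ((PA M).map φ) b2, ?_, ?_⟩
  · intro h hh
    rw [MonoidHom.mem_ker, rho_eq_one_iff, hnat]
    ext1 a b
    rw [Matrix.map_apply, fw_zero W φ]
    · rfl
    · intro v hv
      apply hφI
      change ((Cm (PA M) (bk κ (c1 M)) h a b).coeff v : ℝ[T;T⁻¹]) ∈ (RingHom.ker (evm m)) ^ i
      rw [← hcoef]
      refine Ideal.pow_le_pow_right ?_ (hh a b v)
      have : W.length = w.length := rfl
      omega
  · intro h1
    have h2 := (rho_eq_one_iff _ _ _).1 h1
    rw [hnat] at h2
    have h4 := congrFun (congrFun h2 x) s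
    rw [Matrix.map_apply] at h4
    have h5 := fw_corner W φ (Cm (PA M) (bk κ (c1 M)) g x s)
    rw [h4] at h5
    apply hφy
    have h6 : FreeMonoid.ofList W = w := FreeMonoid.ofList_toList w
    rw [h6] at h5
    exact h5.symm

end

end Pool.Agent.TH107.AT
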