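import Pool.Agent.TH107.AT.Tower

/-!
Pure Artin groups without large spherical parabolic subgroups: integrality of kernel dimensions.
-/

set_option autoImplicit false
set_option linter.unusedSectionVars false

namespace Pool.Agent.TH107.AT

open Pool.Agent.TH107.RF Pool.Agent.TH107.RF.RFilt
open Pool.Agent.TH714.PF (Fol)

/-- residual goodness from a filtration of a finitely generated group -/
theorem resBy_of_filt {H : Type} [Group H] [hfg : Group.FG H] (E : ℕ → Subgroup H)
    (h1 : E 1 = ⊤) (hanti : ∀ i j, i ≤ j → E j ≤ E i)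
    (hcomm : ∀ i j, ∀ x ∈ E i, ∀ y ∈ E j, x * y * x⁻¹ * y⁻¹ ∈ E (i + j))
    (hpure : ∀ i, ∀ x : H, ∀ n : ℕ, n ≠ 0 → x ^ n ∈ E i → x ∈ E i)
    (hsep : ∀ x : H, (∀ i, x ∈ E i) → x = 1) : ResBy Good H := by
  classical
  intro S hS
  -- a common level
  obtain ⟨k, hk1, hk⟩ : ∃ k, 1 ≤ k ∧ ∀ s ∈ S, s ∉ E k := by
    have hex : ∀ s : S, ∃ k, (s : H) ∉ E k := by
      intro s
      by_contra hcon
      push Not at hcon
      exact hS s s.2 (hsep s hcon)
    choose κ hκ using hex
    refine ⟨(Finset.univ.sup κ) + 1, by omega, fun s hs h => ?_⟩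
    have h2 : κ ⟨s, hs⟩ ≤ Finset.univ.sup κ := Finset.le_sup (Finset.mem_univ _)
    exact hκ ⟨s, hs⟩ (hanti _ _ (by omega) h)
  have hnorm : ∀ i, (E i).Normal := by
    intro i
    constructor
    intro x hx g
    have h2 : g * x * g⁻¹ * x⁻¹ ∈ E (1 + i) := hcomm 1 i g (by rw [h1]; trivial) x hx
    have h3 : g * x * g⁻¹ = (g * x * g⁻¹ * x⁻¹) * x := by group
    rw [h3]
    exact (E i).mul_mem (hanti _ _ (by omega) h2) hx
  have hK := hnorm k
  set π := QuotientGroup.mk' (E k) with hπ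
  have hker : ∀ x : H, π x = 1 ↔ x ∈ E k := fun x => QuotientGroup.eq_one_iff x
  let D : ℕ → Subgroup (H ⧸ E k) := fun i => (E (i + 1)).map π
  have hD0 : D 0 = ⊤ := by
    change (E 1).map π = ⊤
    rw [h1]
    exact Subgroup.map_top_of_surjective π (QuotientGroup.mk'_surjective _)
  have hDk : D (k - 1) = ⊥ := by
    change (E (k - 1 + 1)).map π = ⊥
    rw [Nat.sub_add_cancel hk1, eq_bot_iff]
    rintro _ ⟨x, hx, rfl⟩
    exact Subgroup.mem_bot.2 ((hker x).2 hx)
  have hDc : ∀ i, ∀ x ∈ D i, ∀ y : H ⧸ E k, x * y * x⁻¹ * y⁻¹ ∈ D (i + 1) := by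
    rintro i _ ⟨x, hx, rfl⟩ y
    obtain ⟨y, rfl⟩ := QuotientGroup.mk'_surjective (E k) y
    refine ⟨x * y * x⁻¹ * y⁻¹, ?_, by simp only [map_mul, map_inv, hπ]⟩
    exact hcomm (i + 1) 1 x hx y (by rw [h1]; trivial)
  have hDt : ∀ i, ∀ x ∈ D i, ∀ n : ℕ, n ≠ 0 → x ^ n ∈ D (i + 1) → x ∈ D (i + 1) := by
    rintro i _ ⟨x, hx, rfl⟩ n hn ⟨y, hy, hxy⟩
    by_cases hik : i + 2 ≤ k
    · have h2 : x ^ n ∈ E (i + 2) := by
        rw [← map_pow, hπ] at hxy
        have h3 : y⁻¹ * x ^ n ∈ E k := by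
          have h4 : π (y⁻¹ * x ^ n) = 1 := by
            rw [map_mul, map_inv, hπ, hxy, inv_mul_cancel]
          exact (hker _).1 h4
        have h5 := (E (i + 2)).mul_mem hy (hanti _ _ hik h3)
        rwa [mul_inv_cancel_left] at h5
      exact ⟨x, hpure _ x n hn h2, rfl⟩
    · have h2 : π x = 1 := (hker x).2 (hanti _ _ (by omega) hx)
      rw [h2]
      exact (D (i + 1)).one_mem
  have hnil : Group.IsNilpotent (H ⧸ E k) := by
    rw [Subgroup.nilpotent_iff_finite_descending_central_series]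
    refine ⟨k - 1, D, ⟨hD0, ?_⟩, hDk⟩
    intro x n hx g
    exact hDc n x hx g
  have hfgQ : Group.FG (H ⧸ E k) := QuotientGroup.fg _
  refine ⟨H ⧸ E k, inferInstance, π, ⟨?_, ?_, ?_⟩, fun s hs h => hk s hs ((hker s).1 h)⟩
  · exact li_of_tower D (k - 1) hD0 hDk (fun i x hx y _ => hDc i x hx y) hDt
  · exact Pool.Agent.TH714.PF.fol_nilpotent (H ⧸ E k)
  · apply rf_of_single
    intro g hg
    obtain ⟨r, -, -, N, hN, hgN, hfin, -⟩ := Pool.Agent.Helper111.EN.resid (K := H ⧸ E k) ∅
      (fun p hp => absurd hp (Set.notMem_empty p)) 2 Nat.prime_two (Set.notMem_empty 2)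
      (fun p hp => absurd hp (Set.notMem_empty p)) g hg
    exact ⟨N, hN, hgN, hfin⟩

theorem ResBy.of_injective {C : (Q : Type) → [Group Q] → Prop} {G G' : Type} [Group G] [Group G']
    (h : ResBy C G') (f : G →* G') (hf : Function.Injective f) : ResBy C G := by
  classical
  intro S hS
  obtain ⟨Q, _, φ, hQ, hφ⟩ := h (S.image f) (by
    intro s hs
    obtain ⟨g, hg, rfl⟩ := Finset.mem_image.1 hs
    intro h1
    exact hS g hg (hf (by rw [h1, map_one])))
  exact ⟨Q, inferInstance, φ.comp f, hQ, fun s hs => hφ _ (Finset.mem_image_of_mem f hs)⟩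

theorem LocGood.of_injective {G G' : Type} [Group G] [Group G'] (h : LocGood G') (f : G →* G')
    (hf : Function.Injective f) : LocGood G := by
  intro H hH
  have h1 : (H.map f).FG := by
    obtain ⟨T, hT⟩ := hH
    classical
    refine ⟨T.image f, ?_⟩
    rw [Finset.coe_image, ← MonoidHom.map_closure, hT]
  exact (h (H.map f) h1).of_injective (f.subgroupMap H)
    (fun a b hab => Subtype.ext (hf (congrArg Subtype.val hab)))

theorem tf_of_li {G : Type} [Group G] (h : LI G) (g : G) (k : ℕ) (hk : 0 < k) (hg : g ^ k = 1) :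
    g = 1 := by
  by_contra hne
  obtain ⟨φ, x, hx⟩ := h (Subgroup.zpowers g) ⟨{g}, by
    rw [Finset.coe_singleton, Subgroup.zpowers_eq_closure]⟩
    (fun h0 => hne (Subgroup.zpowers_eq_bot.1 h0))
  obtain ⟨n, hn⟩ := Subgroup.mem_zpowers_iff.1 x.2
  have h1 : x ^ k = 1 := by
    apply Subtype.ext
    change (x : G) ^ k = 1
    rw [← hn, ← zpow_natCast, ← zpow_mul, mul_comm, zpow_mul, zpow_natCast, hg, one_zpow]
  have h2 : (φ x) ^ k = 1 := by rw [← map_pow, h1, map_one]
  apply hx
  have h3 : k • (Multiplicative.toAdd (φ x)) = 0 := h2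
  rw [smul_eq_zero] at h3
  rcases h3 with h3 | h3
  · omega
  · exact h3

variable {S : Type} [Fintype S] [DecidableEq S] {M : CoxeterMatrix S}

/-- every finitely generated subgroup of the pure Artin group is residually good -/
theorem locGood_pure (hR : RankTwo M) : LocGood (toCox M).ker := by
  intro H hH
  have hfg : Group.FG H := (Group.fg_iff_subgroup_fg H).2 hH
  set F := filP S (RingHom.ker ev1) unit_nat 0 with hF
  set P := PR M with hP
  set b := bf S (LaurentPolynomial ℝ) with hb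
  let φ : H →* Art M := (toCox M).ker.subtype.comp H.subtype
  have hφ : Function.Injective φ :=
    (toCox M).ker.subtype_injective.comp H.subtype_injective
  have hφ1 : ∀ x : H, φ x ∈ KF P b F 1 := fun x => pure_le (x.1).2
  apply resBy_of_filt (fun i => (KF P b F i).comap φ)
  · rw [eq_top_iff]
    intro x _
    exact hφ1 x
  · intro i j hij x hx
    exact KF_anti P b F hij hx
  · intro i j x hx y hy
    have := KF_comm P b F hx hy
    rw [← map_inv, ← map_inv, ← map_mul, ← map_mul, ← map_mul] at this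
    exact this
  · intro i x n hn hx
    have h2 : (φ x) ^ n ∈ KF P b F i := by rw [← map_pow]; exact hx
    exact KF_pure P b F hn (hφ1 x) h2
  · intro x hx
    apply hφ
    rw [map_one]
    exact filP_sep b (fun g h => faithful0 hR h) ker_ev1_ne 0 (φ x) hx

end Pool.Agent.TH107.AT
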