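import Pool.Agent.TH107.AT.Tow
import Pool.Agent.TH107.AT.Cb2
import Pool.Agent.TH107.AT.PA

/-!
Artin groups whose finite labels are constant inside classes are residually good.
-/

set_option autoImplicit false
set_option linter.unusedSectionVars false

namespace Pool.Agent.TH107.AT

open Matrix LaurentPolynomial
open Pool.Agent.TH107.RF Pool.Agent.TH107.RF.RFilt
open Pool.Agent.TH714.PF (Fol)

section add
variable {G V : Type*} [Group G] [AddCommGroup V] (B : Subgroup G) (φ : G → V)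

lemma add_one (h : ∀ x ∈ B, ∀ y ∈ B, φ (x * y) = φ x + φ y) : φ 1 = 0 := by
  have := h 1 B.one_mem 1 B.one_mem
  rw [mul_one] at this
  exact left_eq_add.1 this

lemma add_inv (h : ∀ x ∈ B, ∀ y ∈ B, φ (x * y) = φ x + φ y) {x : G} (hx : x ∈ B) :
    φ x⁻¹ = - φ x := by
  have := h x hx x⁻¹ (B.inv_mem hx)
  rw [mul_inv_cancel, add_one B φ h] at this
  exact (neg_eq_of_add_eq_zero_right this.symm).symm

lemma add_comm' (h : ∀ x ∈ B, ∀ y ∈ B, φ (x * y) = φ x + φ y) {x y : G} (hx : x ∈ B)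
    (hy : y ∈ B) : φ (x * y * x⁻¹ * y⁻¹) = 0 := by
  rw [h _ (B.mul_mem (B.mul_mem hx hy) (B.inv_mem hx)) _ (B.inv_mem hy),
    h _ (B.mul_mem hx hy) _ (B.inv_mem hx), h _ hx _ hy, add_inv B φ h hx, add_inv B φ h hy]
  abel

lemma add_pow (h : ∀ x ∈ B, ∀ y ∈ B, φ (x * y) = φ x + φ y) {x : G} (hx : x ∈ B) (n : ℕ) :
    φ (x ^ n) = n • φ x := by
  induction n with
  | zero => rw [pow_zero, zero_smul, add_one B φ h]
  | succ n ih => rw [pow_succ, h _ (B.pow_mem hx n) _ hx, ih, succ_nsmul]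

/-- the kernel of an additive function on a subgroup -/
def kerOn (h : ∀ x ∈ B, ∀ y ∈ B, φ (x * y) = φ x + φ y) : Subgroup G where
  carrier := {x | x ∈ B ∧ φ x = 0}
  one_mem' := ⟨B.one_mem, add_one B φ h⟩
  mul_mem' := by
    rintro x y ⟨hx, hx'⟩ ⟨hy, hy'⟩
    exact ⟨B.mul_mem hx hy, by rw [h x hx y hy, hx', hy', add_zero]⟩
  inv_mem' := by
    rintro x ⟨hx, hx'⟩
    exact ⟨B.inv_mem hx, by rw [add_inv B φ h hx, hx', neg_zero]⟩

end add

section
variable {S C : Type} [Fintype S] [DecidableEq S] [DecidableEq C] {M : CoxeterMatrix S} {κ : S → C}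
  {m : ℕ}

lemma mat_tf {n : ℕ} (hn : n ≠ 0) {X : Matrix S S ℂ} (h : n • X = 0) : X = 0 := by
  ext i j
  have h1 := congrFun (congrFun h i) j
  rw [Matrix.smul_apply] at h1
  exact (smul_eq_zero.1 h1).resolve_left hn

/-- the additive function at level one -/
noncomputable def ph1 (κ : S → C) (m : ℕ) (g : Art M) : Matrix S S ℂ × Matrix S S ℂ :=
  (Cc κ m g * Ek κ, Ek κ * Cc κ m g)

lemma ph1_add (hm : 3 ≤ m) (hin : ∀ s t : S, s ≠ t → κ s = κ t → M s t = 0 ∨ M s t = m)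
    (hout : ∀ s t, κ s ≠ κ t → M s t = 0 ∨ M s t = 2) :
    ∀ x ∈ BB hout, ∀ y ∈ BB hout, ph1 (M := M) κ m (x * y) = ph1 κ m x + ph1 κ m y := by
  intro x hx y hy
  have h1 := ECE hm hin hout hx
  have h2 := ECE hm hin hout hy
  unfold ph1
  rw [Cc_mul hin hout, Prod.mk_add_mk]
  congr 1
  · rw [Matrix.sub_mul, Matrix.add_mul, Matrix.smul_mul, Matrix.mul_assoc (Cc κ m x * Ek κ),
      Matrix.mul_assoc (Cc κ m x), h2, Matrix.mul_zero, smul_zero, sub_zero]
  · rw [Matrix.mul_sub, Matrix.mul_add, Matrix.mul_smul, ← Matrix.mul_assoc, h1,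
      Matrix.zero_mul, smul_zero, sub_zero]

/-- the second member of the chain -/
noncomputable def B2 (hm : 3 ≤ m) (hin : ∀ s t : S, s ≠ t → κ s = κ t → M s t = 0 ∨ M s t = m)
    (hout : ∀ s t, κ s ≠ κ t → M s t = 0 ∨ M s t = 2) : Subgroup (Art M) :=
  kerOn (BB hout) (ph1 κ m) (ph1_add hm hin hout)

lemma Cc_add (hm : 3 ≤ m) (hin : ∀ s t : S, s ≠ t → κ s = κ t → M s t = 0 ∨ M s t = m)
    (hout : ∀ s t, κ s ≠ κ t → M s t = 0 ∨ M s t = 2) :
    ∀ x ∈ B2 hm hin hout, ∀ y ∈ B2 hm hin hout,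
      Cc (M := M) κ m (x * y) = Cc κ m x + Cc κ m y := by
  intro x hx y _
  have h1 : Cc κ m x * Ek κ = 0 := congrArg Prod.fst hx.2
  rw [Cc_mul hin hout, h1, Matrix.zero_mul, smul_zero, sub_zero]

/-- the chain -/
noncomputable def EE (hm : 3 ≤ m) (hin : ∀ s t : S, s ≠ t → κ s = κ t → M s t = 0 ∨ M s t = m)
    (hout : ∀ s t, κ s ≠ κ t → M s t = 0 ∨ M s t = 2) : ℕ → Subgroup (Art M)
  | 0 => ⊤
  | 1 => BB hout
  | 2 => B2 hm hin hout
  | i + 3 => BB hout ⊓ KF (PR M) (bk κ c0) (Fk S m) (i + 1)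

variable (hm : 3 ≤ m) (hin : ∀ s t : S, s ≠ t → κ s = κ t → M s t = 0 ∨ M s t = m)
  (hout : ∀ s t, κ s ≠ κ t → M s t = 0 ∨ M s t = 2)

lemma EE_anti : ∀ i, EE hm hin hout (i + 1) ≤ EE hm hin hout i
  | 0 => le_top
  | 1 => fun _ hx => hx.1
  | 2 => by
    intro x hx
    have h1 : Cc κ m x = 0 := (mem_KF_one x).1 hx.2
    refine ⟨hx.1, ?_⟩
    unfold ph1
    rw [h1, Matrix.zero_mul, Matrix.mul_zero]
    rfl
  | i + 3 => inf_le_inf_left _ (KF_anti _ _ _ (Nat.le_succ _))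

lemma dgk_comm (l : S) (x y : Art M) : dgk hout l (x * y * x⁻¹ * y⁻¹) = 1 := by
  rw [map_mul, map_mul, map_mul, map_inv, map_inv, mul_comm (dgk hout l x), mul_inv_cancel_right,
    mul_inv_cancel]

lemma EE_comm : ∀ i, ∀ x ∈ EE hm hin hout i, ∀ y ∈ EE hm hin hout i,
    x * y * x⁻¹ * y⁻¹ ∈ EE hm hin hout (i + 1)
  | 0 => fun x _ y _ => (mem_BB hout _).2 fun l => dgk_comm hout l x y
  | 1 => fun x hx y hy =>
    ⟨(mem_BB hout _).2 fun l => dgk_comm hout l x y,
      add_comm' (BB hout) (ph1 κ m) (ph1_add hm hin hout) hx hy⟩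
  | 2 => fun x hx y hy =>
    ⟨(mem_BB hout _).2 fun l => dgk_comm hout l x y,
      (mem_KF_one _).2 (add_comm' _ _ (Cc_add hm hin hout) hx hy)⟩
  | i + 3 => fun x hx y hy =>
    ⟨(mem_BB hout _).2 fun l => dgk_comm hout l x y,
      KF_anti _ _ _ (by omega) (KF_comm _ _ _ hx.2 hy.2)⟩

lemma BB_pure (x : Art M) (n : ℕ) (hn : n ≠ 0) (hx : x ^ n ∈ BB hout) : x ∈ BB hout := by
  rw [mem_BB] at hx ⊢
  intro l
  have h1 := hx l
  rw [map_pow] at h1
  have h2 : n • Multiplicative.toAdd (dgk hout l x) = 0 := h1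
  rcases smul_eq_zero.1 h2 with h3 | h3
  · exact absurd h3 hn
  · exact h3

lemma EE_pure : ∀ i, ∀ x ∈ EE hm hin hout i, ∀ n : ℕ, n ≠ 0 → x ^ n ∈ EE hm hin hout (i + 1) →
    x ∈ EE hm hin hout (i + 1)
  | 0 => fun x _ n hn hx => BB_pure hout x n hn hx
  | 1 => fun x hx n hn hxn => by
    refine ⟨hx, ?_⟩
    have h1 := hxn.2
    rw [add_pow (BB hout) (ph1 κ m) (ph1_add hm hin hout) hx n] at h1
    have h2 : n • (ph1 κ m x).1 = 0 := congrArg Prod.fst h1
    have h3 : n • (ph1 κ m x).2 = 0 := congrArg Prod.snd h1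
    exact Prod.ext (mat_tf hn h2) (mat_tf hn h3)
  | 2 => fun x hx n hn hxn => by
    refine ⟨hx.1, (mem_KF_one _).2 ?_⟩
    have h1 := (mem_KF_one _).1 hxn.2
    rw [add_pow _ _ (Cc_add hm hin hout) hx n] at h1
    exact mat_tf hn h1
  | i + 3 => fun x hx n hn hxn =>
    ⟨hx.1, KF_pure _ _ _ hn (KF_anti _ _ _ (by omega) hx.2) hxn.2⟩

instance EE_normal (i : ℕ) : (EE hm hin hout (i + 3)).Normal :=
  inferInstanceAs (BB hout ⊓ KF (PR M) (bk κ c0) (Fk S m) (i + 1)).Normal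

/-- finite quotients -/
lemma EE_rf (i : ℕ) (x : Art M) (hx : x ∉ EE hm hin hout (i + 3)) :
    ∃ (F : Type) (_ : Group F) (_ : Finite F) (ψ : Art M →* F),
      EE hm hin hout (i + 3) ≤ ψ.ker ∧ ψ x ≠ 1 := by
  by_cases h1 : x ∈ BB hout
  · have h2 : x ∉ KF (PR M) (bk κ c0) (Fk S m) (i + 1) := fun h => hx ⟨h1, h⟩
    obtain ⟨F, _, _, ψ, hψ, hx⟩ := rf_KF h2
    exact ⟨F, inferInstance, inferInstance, ψ, fun y hy => hψ hy.2, hx⟩
  · rw [mem_BB] at h1
    push Not at h1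
    obtain ⟨l, hl⟩ := h1
    set a : ℤ := Multiplicative.toAdd (dgk hout l x) with ha
    have ha0 : a ≠ 0 := hl
    let N : ℕ := a.natAbs + 1
    have hN : NeZero N := ⟨Nat.succ_ne_zero _⟩
    refine ⟨Multiplicative (ZMod N), inferInstance, inferInstance,
      (AddMonoidHom.toMultiplicative (Int.castAddHom (ZMod N))).comp (dgk hout l), ?_, ?_⟩
    · intro y hy
      have h2 := (mem_BB hout y).1 hy.1 l
      rw [MonoidHom.mem_ker, MonoidHom.comp_apply, h2, map_one]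
    · intro h2
      have h3 : ((a : ℤ) : ZMod N) = 0 := h2
      rw [ZMod.intCast_zmod_eq_zero_iff_dvd] at h3
      have h4 := Int.natAbs_dvd_natAbs.2 h3
      rw [Int.natAbs_natCast] at h4
      have h5 := Nat.le_of_dvd (Int.natAbs_pos.2 ha0) h4
      change a.natAbs + 1 ≤ a.natAbs at h5
      omega

include hm hin hout in
/-- every subgroup is residually good -/
theorem locGood_cl (hR : RankTwo M) : LocGood (Art M) := by
  classical
  intro H _ T hT
  have hsep : ∀ g : Art M, (∀ i, g ∈ KF (PR M) (bk κ c0) (Fk S m) i) → g = 1 :=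
    filP_sep (bk κ c0) (fun g hg => shk_faithful κ c0 (PR M) (fun g hg => faithful0 hR hg) g hg)
      (ker_evm_ne m) 1
  -- a common level
  have hex : ∀ s : T, ∃ k, ((s : H) : Art M) ∉ KF (PR M) (bk κ c0) (Fk S m) (k + 1) := by
    intro s
    by_contra hcon
    push Not at hcon
    apply hT s s.2
    apply Subtype.ext
    apply hsep
    intro i
    exact KF_anti _ _ _ (Nat.le_succ i) (hcon i)
  choose f hf using hex
  set k := Finset.univ.sup f with hk
  have hTk : ∀ s ∈ T, ((s : H) : Art M) ∉ EE hm hin hout (k + 3) := by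
    intro s hs h
    apply hf ⟨s, hs⟩
    have h2 : f ⟨s, hs⟩ ≤ k := Finset.le_sup (Finset.mem_univ _)
    exact KF_anti _ _ _ (by omega) h.2
  let E : ℕ → Subgroup H := fun i => (EE hm hin hout i).comap H.subtype
  have hn : (E (k + 3)).Normal := by
    change ((EE hm hin hout (k + 3)).comap H.subtype).Normal
    infer_instance
  have hg : Good (H ⧸ E (k + 3)) := by
    apply good_quot E (k + 3)
    · rfl
    · intro i x hx
      exact EE_anti hm hin hout i hx
    · intro i x hx y hy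
      exact EE_comm hm hin hout i x hx y hy
    · intro i x hx n hn hxn
      exact EE_pure hm hin hout i x hx n hn hxn
    · intro x hx
      obtain ⟨F, _, _, ψ, hψ, hx⟩ := EE_rf hm hin hout k (x : Art M) hx
      exact ⟨F, inferInstance, inferInstance, ψ.comp H.subtype, fun y hy => hψ hy, hx⟩
  refine ⟨H ⧸ E (k + 3), inferInstance, QuotientGroup.mk' _, hg, fun s hs h => ?_⟩
  exact hTk s hs ((QuotientGroup.eq_one_iff (N := E (k + 3)) s).1 h)

end

/-- residually good groups are torsion-free -/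
theorem LocGood.tf {G : Type} [Group G] (h : LocGood G) (g : G) (n : ℕ) (hn : 0 < n)
    (hg : g ^ n = 1) : g = 1 := by
  by_contra hne
  have hz : g ∈ Subgroup.zpowers g := Subgroup.mem_zpowers g
  obtain ⟨Q, _, φ, hQ, hφ⟩ := h (Subgroup.zpowers g) ⟨{g}, by
    rw [Finset.coe_singleton, Subgroup.zpowers_eq_closure]⟩ {⟨g, hz⟩} (by
      intro s hs
      rw [Finset.mem_singleton] at hs
      subst hs
      intro h1
      exact hne (congrArg Subtype.val h1))
  refine hφ ⟨g, hz⟩ (Finset.mem_singleton_self _) (tf_of_li hQ.1 _ n hn ?_)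
  rw [← map_pow]
  have : (⟨g, hz⟩ : Subgroup.zpowers g) ^ n = 1 := Subtype.ext hg
  rw [this, map_one]

end Pool.Agent.TH107.AT
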