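import Pool.Agent.TH107.AT.Cb3
import Pool.Agent.TH107.AT.Bc

/-!
Integrality of the kernel dimensions over the complex group ring, for the groups which embed in
Artin groups whose finite labels are constant inside classes, and for their finite extensions.
-/

set_option autoImplicit false
set_option linter.unusedSectionVars false

open scoped InnerProductSpace ENNReal
open Filter Topology

namespace Pool.Agent.TH107.AT

open Pool.Agent.H80R2
open Pool.Agent.H80R2.BC (L2 GMat vdim IsTr LInv Equi act kerA Coef)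
open Pool.Agent.H812R3
open Pool.Agent.W656.VA
open Pool.Agent.TH107.RF
open Monoid

/-- groups embedding in an Artin group of the class -/
def CB (m : ℕ) (G : Type) [Group G] : Prop :=
  ∃ (S : Type) (_ : Fintype S) (_ : DecidableEq S) (C : Type) (_ : DecidableEq C)
    (M : CoxeterMatrix S) (κ : S → C), RankTwo M ∧
    (∀ s t : S, s ≠ t → κ s = κ t → M s t = 0 ∨ M s t = m) ∧
    (∀ s t, κ s ≠ κ t → M s t = 0 ∨ M s t = 2) ∧
    ∃ f : G →* Art M, Function.Injective f

theorem CB.locGood {m : ℕ} (hm : 3 ≤ m) {G : Type} [Group G] (h : CB m G) : LocGood G := by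
  obtain ⟨S, _, _, C, _, M, κ, hR, hin, hout, f, hf⟩ := h
  exact (locGood_cl hm hin hout hR).of_injective f hf

theorem comm_sum {S₁ S₂ : Type} [Fintype S₁] [DecidableEq S₁] [Fintype S₂] [DecidableEq S₂]
    (M₁ : CoxeterMatrix S₁) (M₂ : CoxeterMatrix S₂) (x : Art M₁) (y : Art M₂) :
    Commute (i₁ M₁ M₂ 2 (by norm_num) x) (i₂ M₁ M₂ 2 (by norm_num) y) := by
  set J := sumM M₁ M₂ 2 (by norm_num) with hJ
  have hgen : ∀ a b, sg J (.inl a) * sg J (.inr b) = sg J (.inr b) * sg J (.inl a) := by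
    intro a b
    have := sg_braid (M := J) (s := .inl a) (t := .inr b) (by rw [hJ, sumM_lr]; norm_num)
    rw [hJ, sumM_lr] at this
    simpa [alt] using this
  have h1 : ∀ (a : S₁) y, Commute (sg J (.inl a)) (i₂ M₁ M₂ 2 (by norm_num) y) := by
    intro a y
    have hy : y ∈ (Subgroup.centralizer {sg J (.inl a)}).comap (i₂ M₁ M₂ 2 (by norm_num)) := by
      have : (⊤ : Subgroup (Art M₂)) ≤ (Subgroup.centralizer {sg J (.inl a)}).comap
          (i₂ M₁ M₂ 2 (by norm_num)) := by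
        rw [← PresentedGroup.closure_range_of, Subgroup.closure_le]
        rintro _ ⟨b, rfl⟩
        change i₂ M₁ M₂ 2 _ (sg M₂ b) ∈ Subgroup.centralizer {sg J (.inl a)}
        rw [i₂_sg, Subgroup.mem_centralizer_singleton_iff]
        exact (hgen a b).symm
      exact this trivial
    rw [Subgroup.mem_comap, Subgroup.mem_centralizer_singleton_iff] at hy
    exact hy.symm
  have hx : x ∈ (Subgroup.centralizer {i₂ M₁ M₂ 2 (by norm_num) y}).comap
      (i₁ M₁ M₂ 2 (by norm_num)) := by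
    have : (⊤ : Subgroup (Art M₁)) ≤ (Subgroup.centralizer
        {i₂ M₁ M₂ 2 (by norm_num) y}).comap (i₁ M₁ M₂ 2 (by norm_num)) := by
      rw [← PresentedGroup.closure_range_of, Subgroup.closure_le]
      rintro _ ⟨a, rfl⟩
      change i₁ M₁ M₂ 2 _ (sg M₁ a) ∈ Subgroup.centralizer {i₂ M₁ M₂ 2 (by norm_num) y}
      rw [i₁_sg, Subgroup.mem_centralizer_singleton_iff]
      exact h1 a y
    exact this trivial
  rw [Subgroup.mem_comap, Subgroup.mem_centralizer_singleton_iff] at hx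
  exact hx

theorem CB.prod {m : ℕ} (G H : Type) [Group G] [Group H] (hG : CB m G) (hH : CB m H) :
    CB m (G × H) := by
  obtain ⟨S₁, _, _, C₁, _, M₁, κ₁, hR₁, hin₁, hout₁, f₁, hf₁⟩ := hG
  obtain ⟨S₂, _, _, C₂, _, M₂, κ₂, hR₂, hin₂, hout₂, f₂, hf₂⟩ := hH
  set J := sumM M₁ M₂ 2 (by norm_num) with hJ
  refine ⟨S₁ ⊕ S₂, inferInstance, inferInstance, C₁ ⊕ C₂, inferInstance, J, Sum.map κ₁ κ₂,
    rankTwo_sum M₁ M₂ 2 _ hR₁ hR₂ (by norm_num), ?_, ?_,
    MonoidHom.noncommCoprod ((i₁ M₁ M₂ 2 (by norm_num)).comp f₁)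
      ((i₂ M₁ M₂ 2 (by norm_num)).comp f₂) (fun g h => comm_sum M₁ M₂ _ _), ?_⟩
  · rintro (s | s) (t | t) hne hκ
    · exact hin₁ s t (fun h => hne (by rw [h])) (Sum.inl_injective hκ)
    · exact absurd hκ (by simp)
    · exact absurd hκ (by simp)
    · exact hin₂ s t (fun h => hne (by rw [h])) (Sum.inr_injective hκ)
  · rintro (s | s) (t | t) hκ
    · exact hout₁ s t (fun h => hκ (congrArg Sum.inl h))
    · exact Or.inr rfl
    · exact Or.inr rfl
    · exact hout₂ s t (fun h => hκ (congrArg Sum.inr h))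
  · -- the projections
    have hr : (2 : ℕ) = 0 ∨ 2 = 2 ∧ ∀ a b,
        (MonoidHom.inl (Art M₁) (Art M₂)) (sg M₁ a) * (MonoidHom.inr (Art M₁) (Art M₂)) (sg M₂ b) =
          (MonoidHom.inr (Art M₁) (Art M₂)) (sg M₂ b) *
            (MonoidHom.inl (Art M₁) (Art M₂)) (sg M₁ a) :=
      Or.inr ⟨rfl, fun a b => by simp [MonoidHom.inl_apply, MonoidHom.inr_apply]⟩
    let r := lj M₁ M₂ 2 (by norm_num) (MonoidHom.inl (Art M₁) (Art M₂))
      (MonoidHom.inr (Art M₁) (Art M₂)) hr
    rintro ⟨g, h⟩ ⟨g', h'⟩ e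
    have e2 := congrArg r e
    simp only [MonoidHom.noncommCoprod_apply, MonoidHom.comp_apply, map_mul] at e2
    have e3 : ∀ x, r (i₁ M₁ M₂ 2 (by norm_num) x) = (x, 1) := fun x =>
      DFunLike.congr_fun (lj_i₁ M₁ M₂ 2 (by norm_num) _ _ hr) x
    have e4 : ∀ x, r (i₂ M₁ M₂ 2 (by norm_num) x) = (1, x) := fun x =>
      DFunLike.congr_fun (lj_i₂ M₁ M₂ 2 (by norm_num) _ _ hr) x
    rw [e3, e3, e4, e4] at e2
    simp only [Prod.mk_mul_mk, mul_one, one_mul, Prod.mk.injEq] at e2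
    rw [hf₁ e2.1, hf₂ e2.2]

theorem CB.free {m : ℕ} (G : Type) [Group G] (k : ℕ) (hG : CB m G) :
    CB m (Coprod G (FreeGroup (Fin k))) := by
  obtain ⟨S, _, _, C, _, M, κ, hR, hin, hout, f, hf⟩ := hG
  let s : FreeGroup (Fin k) →* Art (M0 k) := FreeGroup.lift fun i => sg (M0 k) i
  have hs : Function.Injective s := by
    have h1 : (fr k).comp s = MonoidHom.id _ := by
      apply FreeGroup.ext_hom
      intro i
      have h2 : s (FreeGroup.of i) = sg (M0 k) i := FreeGroup.lift_apply_of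
      have h3 : fr k (sg (M0 k) i) = FreeGroup.of i := PresentedGroup.toGroup.of _
      rw [MonoidHom.comp_apply, h2, h3]
      rfl
    intro a b hab
    have h2 : ∀ a, fr k (s a) = a := fun a => DFunLike.congr_fun h1 a
    rw [← h2 a, hab, h2]
  set J := sumM M (M0 k) 0 (by norm_num) with hJ
  let F : Coprod (Art M) (Art (M0 k)) →* Art J :=
    Coprod.lift (i₁ M (M0 k) 0 (by norm_num)) (i₂ M (M0 k) 0 (by norm_num))
  have hF : Function.Injective F := by
    let r := lj M (M0 k) 0 (by norm_num) (Coprod.inl : Art M →* Coprod (Art M) (Art (M0 k)))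
      (Coprod.inr : Art (M0 k) →* Coprod (Art M) (Art (M0 k))) (Or.inl rfl)
    have h1 : r.comp F = MonoidHom.id _ := by
      apply Coprod.hom_ext
      · refine MonoidHom.ext fun x => ?_
        have := DFunLike.congr_fun (lj_i₁ M (M0 k) 0 (by norm_num)
          (Coprod.inl : Art M →* Coprod (Art M) (Art (M0 k)))
          (Coprod.inr : Art (M0 k) →* Coprod (Art M) (Art (M0 k))) (Or.inl rfl)) x
        simpa [F, r] using this
      · refine MonoidHom.ext fun x => ?_
        have := DFunLike.congr_fun (lj_i₂ M (M0 k) 0 (by norm_num)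
          (Coprod.inl : Art M →* Coprod (Art M) (Art (M0 k)))
          (Coprod.inr : Art (M0 k) →* Coprod (Art M) (Art (M0 k))) (Or.inl rfl)) x
        simpa [F, r] using this
    intro a b hab
    have h2 : ∀ a, r (F a) = a := fun a => DFunLike.congr_fun h1 a
    rw [← h2 a, hab, h2]
  refine ⟨S ⊕ Fin k, inferInstance, inferInstance, C ⊕ Fin k, inferInstance, J, Sum.map κ id,
    rankTwo_sum M (M0 k) 0 _ hR (rankTwo_M0 k) (by norm_num), ?_, ?_, F.comp (Coprod.map f s),
    hF.comp (inj_map2 f s hf hs)⟩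
  · rintro (s | s) (t | t) hne hκ
    · exact hin s t (fun h => hne (by rw [h])) (Sum.inl_injective hκ)
    · exact absurd hκ (by simp)
    · exact absurd hκ (by simp)
    · exact absurd (congrArg Sum.inr (Sum.inr_injective hκ)) hne
  · rintro (s | s) (t | t) hκ
    · exact hout s t (fun h => hκ (congrArg Sum.inl h))
    · exact Or.inl rfl
    · exact Or.inl rfl
    · exact Or.inl (M0_ne (fun h => hκ (congrArg Sum.inr h)))

theorem CB.val_int {m : ℕ} (hm : 3 ≤ m) {G : Type} [Group G] (h : CB m G) (v : ℝ)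
    (hv : Val (Int.castRingHom ℂ).range G v) : ∃ z : ℤ, v = z := by
  obtain ⟨a, n, A, hA, rfl⟩ := hv
  let X : Matrix (Fin n) (Fin a) (MonoidAlgebra ℂ G) :=
    Matrix.of fun k i => MonoidAlgebra.ofCoeff (A k i)
  have hX : Itg X := by
    intro k i g
    obtain ⟨z, hz⟩ := hA k i g
    exact ⟨z, hz.symm⟩
  obtain ⟨z, hz⟩ := integral_loc (h.locGood hm) X hX
  refine ⟨z, ?_⟩
  rw [← hz, kr_mop]
  rfl

/-- complex matrices -/
theorem CB.val_int' {m : ℕ} (hm : 3 ≤ m) {G : Type} [Group G] (h : CB m G) (v : ℝ)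
    (hv : Val (⊤ : Subring ℂ) G v) : ∃ z : ℤ, v = z := by
  have h1 := base_change (fun G _ => CB m G) (fun G H _ _ hG hH => CB.prod G H hG hH)
    (fun G _ k hG => CB.free G k hG) (Int.castRingHom ℂ).range (by
      intro G _ hG d hd v hv
      obtain ⟨z, hz⟩ := CB.val_int hm hG v hv
      exact ⟨d * z, by rw [hz]; push_cast; ring⟩) ⊤ G h 1
        (isLcm_one (fun g n hn hg => (h.locGood hm).tf g n hn hg)) v hv
  obtain ⟨z, hz⟩ := h1
  exact ⟨z, by rw [← hz]; simp⟩

theorem CB.dim_int {m : ℕ} (hm : 3 ≤ m) {ι κ G : Type} [Group G] [Fintype ι] [Fintype κ]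
    (h : CB m G) (A : GMat κ ι G) : ∃ z : ℤ, vdim (kerA A) = z :=
  h.val_int' hm _ (val_of A fun _ _ _ => Subring.mem_top _)

/-- finite extensions -/
theorem CB.dim_fi {m : ℕ} (hm : 3 ≤ m) {ι κ G : Type} [Group G] [Fintype ι] [Fintype κ]
    (H : Subgroup G) [Finite (G ⧸ H)] (h : CB m H) (A : GMat κ ι G) :
    ∃ z : ℤ, (H.index : ℝ) * vdim (kerA A) = z := by
  classical
  have : Fintype (G ⧸ H) := Fintype.ofFinite _
  obtain ⟨z, hz⟩ := h.dim_int hm (res H A)
  refine ⟨z, ?_⟩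
  rw [← hz, vdim_res, Subgroup.index, Nat.card_eq_fintype_card]

end Pool.Agent.TH107.AT
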