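import Pool.Agent.TH107.AT.PA

/-!
The class of the groups which embed in pure Artin groups without large spherical parabolic
subgroups is closed under direct products and free products with free groups.
-/

set_option autoImplicit false
set_option linter.unusedSectionVars false

namespace Pool.Agent.TH107.AT

open Pool.Agent.TH107.RF
open Monoid

/-! ### free groups and free products -/

section free
variable {α : Type} [DecidableEq α]

/-- doubling of the letters -/
def dbl (L : List (α × Bool)) : List (α × Bool) := L.flatMap fun x => [x, x]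

/-- squares of the free generators -/
def sqh (α : Type) : FreeGroup α →* FreeGroup α := FreeGroup.lift fun i => FreeGroup.of i ^ 2

theorem sqh_mk (L : List (α × Bool)) : sqh α (FreeGroup.mk L) = FreeGroup.mk (dbl L) := by
  induction L with
  | nil => exact map_one _
  | cons x L ih =>
    have h1 : FreeGroup.mk (x :: L) = FreeGroup.mk [x] * FreeGroup.mk L := by
      rw [FreeGroup.mul_mk]; rfl
    have h2 : FreeGroup.mk (dbl (x :: L)) = FreeGroup.mk [x] * FreeGroup.mk [x] *
        FreeGroup.mk (dbl L) := by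
      rw [FreeGroup.mul_mk, FreeGroup.mul_mk]; rfl
    rw [h1, h2, map_mul, ih]
    congr 1
    obtain ⟨a, b⟩ := x
    rw [sqh, FreeGroup.lift_mk]
    cases b
    · have h3 : (FreeGroup.mk [(a, false)] : FreeGroup α) = (FreeGroup.of a)⁻¹ := by
        rw [FreeGroup.of, FreeGroup.inv_mk]; rfl
      rw [h3]
      simp [pow_two]
    · have h3 : (FreeGroup.mk [(a, true)] : FreeGroup α) = FreeGroup.of a := rfl
      rw [h3]
      simp [pow_two]

theorem dbl_reduced (L : List (α × Bool)) (h : FreeGroup.IsReduced L) :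
    FreeGroup.IsReduced (dbl L) := by
  unfold FreeGroup.IsReduced at *
  induction L with
  | nil => exact List.isChain_nil
  | cons x L ih =>
    cases L with
    | nil =>
      change List.IsChain _ [x, x]
      rw [List.isChain_cons_cons]
      exact ⟨fun _ => rfl, List.isChain_singleton _⟩
    | cons y L =>
      rw [List.isChain_cons_cons] at h
      have h1 := ih h.2
      change List.IsChain _ (x :: x :: dbl (y :: L))
      have h2 : dbl (y :: L) = y :: y :: dbl L := rfl
      rw [List.isChain_cons_cons]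
      refine ⟨fun _ => rfl, ?_⟩
      rw [h2, List.isChain_cons_cons]
      refine ⟨h.1, ?_⟩
      rw [← h2]
      exact h1

theorem sqh_injective : Function.Injective (sqh α) := by
  rw [injective_iff_map_eq_one]
  intro x hx
  rw [← FreeGroup.mk_toWord (x := x), sqh_mk] at hx
  have h1 := (dbl_reduced _ (FreeGroup.isReduced_toWord (x := x))).reduce_eq
  have h2 : FreeGroup.toWord (FreeGroup.mk (dbl x.toWord)) = dbl x.toWord := by
    rw [FreeGroup.toWord_mk, h1]
  rw [hx, FreeGroup.toWord_one] at h2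
  rcases hw : x.toWord with _ | ⟨y, L⟩
  · exact FreeGroup.toWord_eq_nil_iff.1 hw
  · rw [hw] at h2
    exact absurd h2 (by simp [dbl])

end free

section coprod
variable {A B Z A' Z' : Type} [Group A] [Group B] [Group Z] [Group A'] [Group Z']

/-- family for the pushout -/
def Gf (A B Z : Type) [Group A] [Group B] [Group Z] : Bool → Type
  | true => B
  | false => Coprod A Z

instance (c : Bool) : Group (Gf A B Z c) :=
  match c with
  | true => inferInstanceAs (Group B)
  | false => inferInstanceAs (Group (Coprod A Z))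

/-- family of maps for the pushout -/
def ph (Z : Type) [Group Z] (f : A →* B) : (c : Bool) → A →* Gf A B Z c
  | true => f
  | false => (Coprod.inl : A →* Coprod A Z)

theorem ph_inj (f : A →* B) (hf : Function.Injective f) : ∀ c, Function.Injective (ph Z f c)
  | true => hf
  | false => Coprod.inl_injective

/-- `A * Z → B * Z` is injective if `A → B` is. -/
theorem inj_map (f : A →* B) (hf : Function.Injective f) :
    Function.Injective (Coprod.map f (MonoidHom.id Z)) := by
  let o : Coprod A Z →* PushoutI (ph Z f) := PushoutI.of (φ := ph Z f) false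
  let o' : B →* PushoutI (ph Z f) := PushoutI.of (φ := ph Z f) true
  have ho : Function.Injective o := PushoutI.of_injective (ph_inj f hf) false
  let h : Coprod B Z →* PushoutI (ph Z f) := Coprod.lift o' (o.comp Coprod.inr)
  have hcomp : h.comp (Coprod.map f (MonoidHom.id Z)) = o := by
    apply Coprod.hom_ext
    · ext a
      simp only [MonoidHom.comp_apply, Coprod.map_apply_inl, h, Coprod.lift_apply_inl]
      have h1 : o' (f a) = PushoutI.base (ph Z f) a := PushoutI.of_apply_eq_base (ph Z f) true a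
      have h2 : o (Coprod.inl a) = PushoutI.base (ph Z f) a :=
        PushoutI.of_apply_eq_base (ph Z f) false a
      rw [h1, h2]
    · ext a
      simp only [MonoidHom.comp_apply, Coprod.map_apply_inr, h, Coprod.lift_apply_inr,
        MonoidHom.id_apply]
  have : Function.Injective (h.comp (Coprod.map f (MonoidHom.id Z))) := by rw [hcomp]; exact ho
  intro x y hxy
  exact this (by rw [MonoidHom.comp_apply, MonoidHom.comp_apply, hxy])

theorem inj_map2 (f : A →* A') (g : Z →* Z') (hf : Function.Injective f)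
    (hg : Function.Injective g) : Function.Injective (Coprod.map f g) := by
  have h1 : Function.Injective (Coprod.map (MonoidHom.id A') g) := by
    have h2 := inj_map (Z := A') g hg
    have h3 : Coprod.map (MonoidHom.id A') g =
        (Coprod.swap Z' A').comp ((Coprod.map g (MonoidHom.id A')).comp (Coprod.swap A' Z)) := by
      apply Coprod.hom_ext <;> ext x <;> simp
    rw [h3]
    exact Coprod.swap_injective.comp (h2.comp Coprod.swap_injective)
  have h4 : Coprod.map f g = (Coprod.map (MonoidHom.id A') g).comp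
      (Coprod.map f (MonoidHom.id Z)) := by
    apply Coprod.hom_ext <;> ext x <;> simp
  rw [h4]
  exact h1.comp (inj_map f hf)

end coprod

/-! ### sums of Coxeter matrices -/

section sum
variable {S₁ S₂ : Type} [Fintype S₁] [DecidableEq S₁] [Fintype S₂] [DecidableEq S₂]

/-- the sum of two Coxeter matrices with the cross label `c` -/
def sumM (M₁ : CoxeterMatrix S₁) (M₂ : CoxeterMatrix S₂) (c : ℕ) (hc : c ≠ 1) :
    CoxeterMatrix (S₁ ⊕ S₂) where
  M i j := match i, j with
    | .inl a, .inl b => M₁ a b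
    | .inr a, .inr b => M₂ a b
    | _, _ => c
  isSymm := by
    ext i j
    rcases i with i | i <;> rcases j with j | j
    · exact M₁.symmetric j i
    · rfl
    · rfl
    · exact M₂.symmetric j i
  diagonal i := by
    rcases i with i | i
    · exact M₁.diagonal i
    · exact M₂.diagonal i
  off_diagonal i j h := by
    rcases i with i | i <;> rcases j with j | j
    · exact M₁.off_diagonal i j (fun h' => h (by rw [h']))
    · exact hc
    · exact hc
    · exact M₂.off_diagonal i j (fun h' => h (by rw [h']))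

variable (M₁ : CoxeterMatrix S₁) (M₂ : CoxeterMatrix S₂) (c : ℕ) (hc : c ≠ 1)

theorem sumM_ll (a b : S₁) : sumM M₁ M₂ c hc (.inl a) (.inl b) = M₁ a b := rfl
theorem sumM_rr (a b : S₂) : sumM M₁ M₂ c hc (.inr a) (.inr b) = M₂ a b := rfl
theorem sumM_lr (a : S₁) (b : S₂) : sumM M₁ M₂ c hc (.inl a) (.inr b) = c := rfl
theorem sumM_rl (a : S₂) (b : S₁) : sumM M₁ M₂ c hc (.inr a) (.inl b) = c := rfl

theorem rankTwo_sum (h₁ : RankTwo M₁) (h₂ : RankTwo M₂) (hc2 : c < 3) :
    RankTwo (sumM M₁ M₂ c hc) := by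
  intro i j k hik hij hjk
  rcases i with i | i <;> rcases j with j | j <;> rcases k with k | k
  · exact h₁ i j k (fun h => hik (by rw [h])) hij hjk
  · rw [sumM_lr] at hjk; omega
  · rw [sumM_lr] at hij; omega
  · rw [sumM_lr] at hij; omega
  · rw [sumM_rl] at hij; omega
  · rw [sumM_rl] at hij; omega
  · rw [sumM_rl] at hjk; omega
  · exact h₂ i j k (fun h => hik (by rw [h])) hij hjk

/-- inclusion of the first factor -/
def i₁ : Art M₁ →* Art (sumM M₁ M₂ c hc) :=
  PresentedGroup.toGroup (f := fun s => sg (sumM M₁ M₂ c hc) (.inl s)) (by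
    rintro r ⟨i, j, h, rfl⟩
    rw [map_mul, map_inv, map_alt, map_alt, FreeGroup.lift_apply_of, FreeGroup.lift_apply_of,
      mul_inv_eq_one]
    exact sg_braid (M := sumM M₁ M₂ c hc) (s := .inl i) (t := .inl j) h)

/-- inclusion of the second factor -/
def i₂ : Art M₂ →* Art (sumM M₁ M₂ c hc) :=
  PresentedGroup.toGroup (f := fun s => sg (sumM M₁ M₂ c hc) (.inr s)) (by
    rintro r ⟨i, j, h, rfl⟩
    rw [map_mul, map_inv, map_alt, map_alt, FreeGroup.lift_apply_of, FreeGroup.lift_apply_of,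
      mul_inv_eq_one]
    exact sg_braid (M := sumM M₁ M₂ c hc) (s := .inr i) (t := .inr j) h)

theorem i₁_sg (s : S₁) : i₁ M₁ M₂ c hc (sg M₁ s) = sg (sumM M₁ M₂ c hc) (.inl s) :=
  PresentedGroup.toGroup.of _

theorem i₂_sg (s : S₂) : i₂ M₁ M₂ c hc (sg M₂ s) = sg (sumM M₁ M₂ c hc) (.inr s) :=
  PresentedGroup.toGroup.of _

/-- homomorphisms on the sum -/
def lj {K : Type} [Group K] (f₁ : Art M₁ →* K) (f₂ : Art M₂ →* K)
    (h : c = 0 ∨ c = 2 ∧ ∀ a b, f₁ (sg M₁ a) * f₂ (sg M₂ b) = f₂ (sg M₂ b) * f₁ (sg M₁ a)) :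
    Art (sumM M₁ M₂ c hc) →* K :=
  PresentedGroup.toGroup (f := Sum.elim (fun s => f₁ (sg M₁ s)) (fun s => f₂ (sg M₂ s))) (by
    rintro r ⟨i, j, h0, rfl⟩
    rw [map_mul, map_inv, map_alt, map_alt, FreeGroup.lift_apply_of, FreeGroup.lift_apply_of,
      mul_inv_eq_one]
    rcases i with i | i <;> rcases j with j | j
    · rw [sumM_ll] at h0 ⊢
      change alt _ (f₁ (sg M₁ i)) (f₁ (sg M₁ j)) = alt _ (f₁ (sg M₁ j)) (f₁ (sg M₁ i))
      rw [← map_alt, ← map_alt, sg_braid h0]
    · rw [sumM_lr] at h0 ⊢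
      rcases h with h | ⟨h, h'⟩
      · exact absurd h h0
      · rw [h]
        change alt 2 (f₁ (sg M₁ i)) (f₂ (sg M₂ j)) = alt 2 (f₂ (sg M₂ j)) (f₁ (sg M₁ i))
        simpa [alt] using h' i j
    · rw [sumM_rl] at h0 ⊢
      rcases h with h | ⟨h, h'⟩
      · exact absurd h h0
      · rw [h]
        change alt 2 (f₂ (sg M₂ i)) (f₁ (sg M₁ j)) = alt 2 (f₁ (sg M₁ j)) (f₂ (sg M₂ i))
        simpa [alt] using (h' j i).symm
    · rw [sumM_rr] at h0 ⊢
      change alt _ (f₂ (sg M₂ i)) (f₂ (sg M₂ j)) = alt _ (f₂ (sg M₂ j)) (f₂ (sg M₂ i))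
      rw [← map_alt, ← map_alt, sg_braid h0])

theorem lj_i₁ {K : Type} [Group K] (f₁ : Art M₁ →* K) (f₂ : Art M₂ →* K)
    (h : c = 0 ∨ c = 2 ∧ ∀ a b, f₁ (sg M₁ a) * f₂ (sg M₂ b) = f₂ (sg M₂ b) * f₁ (sg M₁ a)) :
    (lj M₁ M₂ c hc f₁ f₂ h).comp (i₁ M₁ M₂ c hc) = f₁ := by
  apply PresentedGroup.ext
  intro s
  change lj M₁ M₂ c hc f₁ f₂ h (i₁ M₁ M₂ c hc (sg M₁ s)) = f₁ (sg M₁ s)
  rw [i₁_sg]
  exact PresentedGroup.toGroup.of _

theorem lj_i₂ {K : Type} [Group K] (f₁ : Art M₁ →* K) (f₂ : Art M₂ →* K)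
    (h : c = 0 ∨ c = 2 ∧ ∀ a b, f₁ (sg M₁ a) * f₂ (sg M₂ b) = f₂ (sg M₂ b) * f₁ (sg M₁ a)) :
    (lj M₁ M₂ c hc f₁ f₂ h).comp (i₂ M₁ M₂ c hc) = f₂ := by
  apply PresentedGroup.ext
  intro s
  change lj M₁ M₂ c hc f₁ f₂ h (i₂ M₁ M₂ c hc (sg M₂ s)) = f₂ (sg M₂ s)
  rw [i₂_sg]
  exact PresentedGroup.toGroup.of _

/-- compatibility with the Coxeter groups -/
theorem cox_i₁ (g : Art M₁) (hg : toCox M₁ g = 1) :
    toCox (sumM M₁ M₂ c hc) (i₁ M₁ M₂ c hc g) = 1 := by
  have hl : M₁.IsLiftable (fun s => (sumM M₁ M₂ c hc).simple (.inl s)) :=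
    fun i j => simple_pow (sumM M₁ M₂ c hc) (.inl i) (.inl j)
  let w : M₁.Group →* (sumM M₁ M₂ c hc).Group :=
    M₁.toCoxeterSystem.lift ⟨fun s => (sumM M₁ M₂ c hc).simple (.inl s), hl⟩
  have h : (toCox (sumM M₁ M₂ c hc)).comp (i₁ M₁ M₂ c hc) = w.comp (toCox M₁) := by
    apply PresentedGroup.ext
    intro s
    change toCox (sumM M₁ M₂ c hc) (i₁ M₁ M₂ c hc (sg M₁ s)) = w (toCox M₁ (sg M₁ s))
    rw [i₁_sg, toCox_sg, toCox_sg]
    exact (M₁.toCoxeterSystem.lift_apply_simple hl s).symm
  have h2 := DFunLike.congr_fun h g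
  simp only [MonoidHom.comp_apply, hg, map_one] at h2
  exact h2

theorem cox_i₂ (g : Art M₂) (hg : toCox M₂ g = 1) :
    toCox (sumM M₁ M₂ c hc) (i₂ M₁ M₂ c hc g) = 1 := by
  have hl : M₂.IsLiftable (fun s => (sumM M₁ M₂ c hc).simple (.inr s)) :=
    fun i j => simple_pow (sumM M₁ M₂ c hc) (.inr i) (.inr j)
  let w : M₂.Group →* (sumM M₁ M₂ c hc).Group :=
    M₂.toCoxeterSystem.lift ⟨fun s => (sumM M₁ M₂ c hc).simple (.inr s), hl⟩
  have h : (toCox (sumM M₁ M₂ c hc)).comp (i₂ M₁ M₂ c hc) = w.comp (toCox M₂) := by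
    apply PresentedGroup.ext
    intro s
    change toCox (sumM M₁ M₂ c hc) (i₂ M₁ M₂ c hc (sg M₂ s)) = w (toCox M₂ (sg M₂ s))
    rw [i₂_sg, toCox_sg, toCox_sg]
    exact (M₂.toCoxeterSystem.lift_apply_simple hl s).symm
  have h2 := DFunLike.congr_fun h g
  simp only [MonoidHom.comp_apply, hg, map_one] at h2
  exact h2

end sum

/-! ### the class -/

/-- groups embedding in a pure Artin group of the class -/
def CA (G : Type) [Group G] : Prop :=
  ∃ (S : Type) (_ : Fintype S) (_ : DecidableEq S) (M : CoxeterMatrix S), RankTwo M ∧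
    ∃ f : G →* Art M, Function.Injective f ∧ ∀ g, toCox M (f g) = 1

theorem CA.locGood {G : Type} [Group G] (h : CA G) : LocGood G := by
  obtain ⟨S, _, _, M, hR, f, hf, h1⟩ := h
  exact (locGood_pure (M := M) hR).of_injective (f.codRestrict (toCox M).ker h1)
    (fun a b hab => hf (congrArg Subtype.val hab))

theorem CA.prod (G H : Type) [Group G] [Group H] (hG : CA G) (hH : CA H) : CA (G × H) := by
  obtain ⟨S₁, _, _, M₁, hR₁, f₁, hf₁, hk₁⟩ := hG
  obtain ⟨S₂, _, _, M₂, hR₂, f₂, hf₂, hk₂⟩ := hH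
  set J := sumM M₁ M₂ 2 (by norm_num) with hJ
  have hgen : ∀ a b, sg J (.inl a) * sg J (.inr b) = sg J (.inr b) * sg J (.inl a) := by
    intro a b
    have := sg_braid (M := J) (s := .inl a) (t := .inr b) (by rw [hJ, sumM_lr]; norm_num)
    rw [hJ, sumM_lr] at this
    simpa [alt] using this
  have hcomm : ∀ x y, Commute (i₁ M₁ M₂ 2 (by norm_num) x) (i₂ M₁ M₂ 2 (by norm_num) y) := by
    have h1 : ∀ (a : S₁) y, Commute (sg J (.inl a)) (i₂ M₁ M₂ 2 (by norm_num) y) := by
      intro a y
      have hy : y ∈ (Subgroup.centralizer {sg J (.inl a)}).comap (i₂ M₁ M₂ 2 (by norm_num)) := by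
        have : (⊤ : Subgroup (Art M₂)) ≤ (Subgroup.centralizer {sg J (.inl a)}).comap
            (i₂ M₁ M₂ 2 (by norm_num)) := by
          rw [← PresentedGroup.closure_range_of, Subgroup.closure_le]
          rintro _ ⟨b, rfl⟩
          change i₂ M₁ M₂ 2 _ (sg M₂ b) ∈ Subgroup.centralizer {sg J (.inl a)}
          rw [i₂_sg, Subgroup.mem_centralizer_singleton_iff]
          exact (hgen a b).symm
        exact this trivial
      rw [Subgroup.mem_comap, Subgroup.mem_centralizer_singleton_iff] at hy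
      exact hy.symm
    intro x y
    have hx : x ∈ (Subgroup.centralizer {i₂ M₁ M₂ 2 (by norm_num) y}).comap
        (i₁ M₁ M₂ 2 (by norm_num)) := by
      have : (⊤ : Subgroup (Art M₁)) ≤ (Subgroup.centralizer
          {i₂ M₁ M₂ 2 (by norm_num) y}).comap (i₁ M₁ M₂ 2 (by norm_num)) := by
        rw [← PresentedGroup.closure_range_of, Subgroup.closure_le]
        rintro _ ⟨a, rfl⟩
        change i₁ M₁ M₂ 2 _ (sg M₁ a) ∈ Subgroup.centralizer {i₂ M₁ M₂ 2 (by norm_num) y}
        rw [i₁_sg, Subgroup.mem_centralizer_singleton_iff]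
        exact h1 a y
      exact this trivial
    rw [Subgroup.mem_comap, Subgroup.mem_centralizer_singleton_iff] at hx
    exact hx
  refine ⟨S₁ ⊕ S₂, inferInstance, inferInstance, J, rankTwo_sum M₁ M₂ 2 _ hR₁ hR₂ (by norm_num),
    MonoidHom.noncommCoprod ((i₁ M₁ M₂ 2 (by norm_num)).comp f₁)
      ((i₂ M₁ M₂ 2 (by norm_num)).comp f₂) (fun g h => hcomm _ _), ?_, ?_⟩
  · -- the projections
    have hr : (2 : ℕ) = 0 ∨ 2 = 2 ∧ ∀ a b,
        (MonoidHom.inl (Art M₁) (Art M₂)) (sg M₁ a) * (MonoidHom.inr (Art M₁) (Art M₂)) (sg M₂ b) =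
          (MonoidHom.inr (Art M₁) (Art M₂)) (sg M₂ b) *
            (MonoidHom.inl (Art M₁) (Art M₂)) (sg M₁ a) :=
      Or.inr ⟨rfl, fun a b => by simp [MonoidHom.inl_apply, MonoidHom.inr_apply]⟩
    let r := lj M₁ M₂ 2 (by norm_num) (MonoidHom.inl (Art M₁) (Art M₂))
      (MonoidHom.inr (Art M₁) (Art M₂)) hr
    rintro ⟨g, h⟩ ⟨g', h'⟩ e
    have e2 := congrArg r e
    simp only [MonoidHom.noncommCoprod_apply, MonoidHom.comp_apply, map_mul] at e2
    have e3 : ∀ x, r (i₁ M₁ M₂ 2 (by norm_num) x) = (x, 1) := fun x =>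
      DFunLike.congr_fun (lj_i₁ M₁ M₂ 2 (by norm_num) _ _ hr) x
    have e4 : ∀ x, r (i₂ M₁ M₂ 2 (by norm_num) x) = (1, x) := fun x =>
      DFunLike.congr_fun (lj_i₂ M₁ M₂ 2 (by norm_num) _ _ hr) x
    rw [e3, e3, e4, e4] at e2
    simp only [Prod.mk_mul_mk, mul_one, one_mul, Prod.mk.injEq] at e2
    rw [hf₁ e2.1, hf₂ e2.2]
  · rintro ⟨g, h⟩
    rw [MonoidHom.noncommCoprod_apply, map_mul, MonoidHom.comp_apply, MonoidHom.comp_apply,
      cox_i₁ _ _ _ _ _ (hk₁ g), cox_i₂ _ _ _ _ _ (hk₂ h), mul_one]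

/-- the Coxeter matrix without relations -/
def M0 (m : ℕ) : CoxeterMatrix (Fin m) where
  M i j := if i = j then 1 else 0
  isSymm := by
    ext i j
    change (if j = i then 1 else 0) = (if i = j then 1 else 0)
    by_cases h : i = j
    · rw [if_pos h, if_pos h.symm]
    · rw [if_neg h, if_neg (fun h' => h h'.symm)]
  diagonal i := if_pos rfl
  off_diagonal i j h := by
    rw [if_neg h]
    norm_num

theorem M0_ne {m : ℕ} {i j : Fin m} (h : i ≠ j) : M0 m i j = 0 := if_neg h

theorem rankTwo_M0 (m : ℕ) : RankTwo (M0 m) := fun i _ k hik _ _ => M0_ne hik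

/-- from the Artin group without relations to the free group -/
def fr (m : ℕ) : Art (M0 m) →* FreeGroup (Fin m) :=
  PresentedGroup.toGroup (f := FreeGroup.of) (by
    rintro r ⟨i, j, h, rfl⟩
    have hij : i = j := by
      by_contra hne
      exact h (M0_ne hne)
    subst hij
    rw [map_mul, map_inv, mul_inv_cancel])

theorem CA.free (G : Type) [Group G] (m : ℕ) (hG : CA G) : CA (Coprod G (FreeGroup (Fin m))) := by
  obtain ⟨S, _, _, M, hR, f, hf, hk⟩ := hG
  let s : FreeGroup (Fin m) →* Art (M0 m) := FreeGroup.lift fun i => sg (M0 m) i ^ 2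
  have hs : Function.Injective s := by
    have h1 : (fr m).comp s = sqh (Fin m) := by
      apply FreeGroup.ext_hom
      intro i
      have h2 : s (FreeGroup.of i) = sg (M0 m) i ^ 2 := FreeGroup.lift_apply_of
      have h3 : fr m (sg (M0 m) i) = FreeGroup.of i := PresentedGroup.toGroup.of _
      rw [MonoidHom.comp_apply, h2, map_pow, h3, sqh, FreeGroup.lift_apply_of]
    have h2 : Function.Injective ((fr m).comp s) := by rw [h1]; exact sqh_injective
    intro a b hab
    exact h2 (by rw [MonoidHom.comp_apply, MonoidHom.comp_apply, hab])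
  have hsk : ∀ x, toCox (M0 m) (s x) = 1 := by
    have h1 : (toCox (M0 m)).comp s = 1 := by
      apply FreeGroup.ext_hom
      intro i
      have h2 : s (FreeGroup.of i) = sg (M0 m) i ^ 2 := FreeGroup.lift_apply_of
      rw [MonoidHom.comp_apply, h2, map_pow, toCox_sg, pow_two, simple_sq]
      rfl
    intro x
    exact DFunLike.congr_fun h1 x
  set J := sumM M (M0 m) 0 (by norm_num) with hJ
  let F : Coprod (Art M) (Art (M0 m)) →* Art J :=
    Coprod.lift (i₁ M (M0 m) 0 (by norm_num)) (i₂ M (M0 m) 0 (by norm_num))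
  have hF : Function.Injective F := by
    let r := lj M (M0 m) 0 (by norm_num) (Coprod.inl : Art M →* Coprod (Art M) (Art (M0 m)))
      (Coprod.inr : Art (M0 m) →* Coprod (Art M) (Art (M0 m))) (Or.inl rfl)
    have h1 : r.comp F = MonoidHom.id _ := by
      apply Coprod.hom_ext
      · refine MonoidHom.ext fun x => ?_
        have := DFunLike.congr_fun (lj_i₁ M (M0 m) 0 (by norm_num)
          (Coprod.inl : Art M →* Coprod (Art M) (Art (M0 m)))
          (Coprod.inr : Art (M0 m) →* Coprod (Art M) (Art (M0 m))) (Or.inl rfl)) x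
        simpa [F, r] using this
      · refine MonoidHom.ext fun x => ?_
        have := DFunLike.congr_fun (lj_i₂ M (M0 m) 0 (by norm_num)
          (Coprod.inl : Art M →* Coprod (Art M) (Art (M0 m)))
          (Coprod.inr : Art (M0 m) →* Coprod (Art M) (Art (M0 m))) (Or.inl rfl)) x
        simpa [F, r] using this
    intro a b hab
    have h2 : ∀ a, r (F a) = a := fun a => DFunLike.congr_fun h1 a
    rw [← h2 a, hab, h2]
  refine ⟨S ⊕ Fin m, inferInstance, inferInstance, J,
    rankTwo_sum M (M0 m) 0 _ hR (rankTwo_M0 m) (by norm_num), F.comp (Coprod.map f s),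
    hF.comp (inj_map2 f s hf hs), ?_⟩
  have h1 : ((toCox J).comp (F.comp (Coprod.map f s))) = 1 := by
    apply Coprod.hom_ext
    · refine MonoidHom.ext fun g => ?_
      have := cox_i₁ M (M0 m) 0 (by norm_num) (f g) (hk g)
      simpa [F] using this
    · refine MonoidHom.ext fun g => ?_
      have := cox_i₂ M (M0 m) 0 (by norm_num) (s g) (hsk g)
      simpa [F] using this
  intro g
  exact DFunLike.congr_fun h1 g

end Pool.Agent.TH107.AT
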