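import Mathlib

/-!
Averages of the moments of positive integer matrices.
-/

set_option autoImplicit false
set_option linter.unusedSectionVars false

open Filter Topology Matrix Polynomial

namespace Pool.Agent.TH107.AT

variable {n : Type} [Fintype n] [DecidableEq n]

/-- traces of powers -/
theorem trace_pow_eq {H : Matrix n n ℂ} (hH : H.IsHermitian) (c : ℂ) (k : ℕ) :
    trace ((1 - c • H) ^ k) = ∑ j, (1 - c * (hH.eigenvalues j : ℂ)) ^ k := by
  set Φ := Unitary.conjStarAlgAut ℂ (Matrix n n ℂ) hH.eigenvectorUnitary with hΦ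
  have h1 : H = Φ (diagonal (RCLike.ofReal ∘ hH.eigenvalues)) := hH.spectral_theorem
  have h2 : (1 - c • H) ^ k =
      Φ ((1 - c • diagonal ((RCLike.ofReal : ℝ → ℂ) ∘ hH.eigenvalues)) ^ k) := by
    rw [map_pow, map_sub, map_one, map_smul, ← h1]
  have h3 : ∀ Y : Matrix n n ℂ, trace (Φ Y) = trace Y := by
    intro Y
    rw [hΦ, Unitary.conjStarAlgAut_apply, trace_mul_cycle, Unitary.coe_star_mul_self, one_mul]
  have h4 : (1 - c • diagonal ((RCLike.ofReal : ℝ → ℂ) ∘ hH.eigenvalues) : Matrix n n ℂ) =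
      diagonal (fun j => 1 - c * (hH.eigenvalues j : ℂ)) := by
    rw [← diagonal_one, ← diagonal_smul, diagonal_sub]
    rfl
  rw [h2, h3, h4, diagonal_pow, trace_diagonal]
  rfl

/-- the product of the nonzero eigenvalues of an integer matrix is at least one -/
theorem one_le_prod (B : Matrix n n ℤ) (hH : (B.map (Int.castRingHom ℂ)).IsHermitian)
    (hpos : ∀ j, 0 ≤ hH.eigenvalues j) :
    1 ≤ ∏ j ∈ Finset.univ.filter (fun j => hH.eigenvalues j ≠ 0), hH.eigenvalues j := by
  classical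
  set e := hH.eigenvalues with he
  set z := (Finset.univ.filter (fun j => ¬ e j ≠ 0)).card with hz
  have h1 : (B.map (Int.castRingHom ℂ)).charpoly = ∏ j, (X - C ((e j : ℝ) : ℂ)) := hH.charpoly_eq
  have h2 : (B.map (Int.castRingHom ℂ)).charpoly = B.charpoly.map (Int.castRingHom ℂ) :=
    Matrix.charpoly_map B (Int.castRingHom ℂ)
  have h3 : ∏ j, (X - C ((e j : ℝ) : ℂ)) =
      X ^ z * ∏ j ∈ Finset.univ.filter (fun j => e j ≠ 0), (X - C ((e j : ℝ) : ℂ)) := by
    rw [← Finset.prod_filter_mul_prod_filter_not Finset.univ (fun j => e j ≠ 0), mul_comm]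
    congr 1
    rw [hz, ← Finset.prod_const]
    refine Finset.prod_congr rfl fun j hj => ?_
    have : e j = 0 := by
      have := (Finset.mem_filter.1 hj).2
      push Not at this
      exact this
    rw [this]
    simp
  have h4 : (B.charpoly.map (Int.castRingHom ℂ)).coeff z =
      ∏ j ∈ Finset.univ.filter (fun j => e j ≠ 0), (-((e j : ℝ) : ℂ)) := by
    rw [← h2, h1, h3]
    have := Polynomial.coeff_X_pow_mul
      (∏ j ∈ Finset.univ.filter (fun j => e j ≠ 0), (X - C ((e j : ℝ) : ℂ))) z 0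
    rw [zero_add] at this
    rw [this, Polynomial.coeff_zero_eq_eval_zero, Polynomial.eval_prod]
    refine Finset.prod_congr rfl fun j _ => ?_
    simp
  rw [Polynomial.coeff_map] at h4
  have h5 : ‖((Int.castRingHom ℂ) (B.charpoly.coeff z))‖ =
      ∏ j ∈ Finset.univ.filter (fun j => e j ≠ 0), e j := by
    rw [h4, norm_prod]
    refine Finset.prod_congr rfl fun j _ => ?_
    rw [norm_neg, Complex.norm_real, Real.norm_of_nonneg (hpos j)]
  rw [← h5]
  have h6 : B.charpoly.coeff z ≠ 0 := by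
    intro h0
    rw [h0, map_zero, norm_zero] at h5
    have := Finset.prod_eq_zero_iff.1 h5.symm
    obtain ⟨j, hj, hj0⟩ := this
    exact (Finset.mem_filter.1 hj).2 hj0
  have h7 : (1 : ℝ) ≤ |((B.charpoly.coeff z : ℤ) : ℝ)| := by
    exact_mod_cast Int.one_le_abs h6
  have h8 : (Int.castRingHom ℂ) (B.charpoly.coeff z) = (((B.charpoly.coeff z : ℤ) : ℝ) : ℂ) := by
    simp
  rw [h8, Complex.norm_real]
  exact h7

/-- few small eigenvalues -/
theorem count_small (e : n → ℝ) (hpos : ∀ j, 0 ≤ e j) (K : ℝ) (hK : 2 ≤ K)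
    (hle : ∀ j, e j ≤ K)
    (hprod : 1 ≤ ∏ j ∈ Finset.univ.filter (fun j => e j ≠ 0), e j) (L : ℕ) :
    L * (Finset.univ.filter (fun j => e j ≠ 0 ∧ e j < (K ^ L)⁻¹)).card ≤ Fintype.card n := by
  classical
  set s := (Finset.univ.filter (fun j => e j ≠ 0 ∧ e j < (K ^ L)⁻¹)) with hs
  have hK0 : (0 : ℝ) < K := by linarith
  have h1 : ∏ j ∈ Finset.univ.filter (fun j => e j ≠ 0), e j ≤
      ((K ^ L)⁻¹) ^ s.card * K ^ (Fintype.card n) := by
    rw [← Finset.prod_filter_mul_prod_filter_not (Finset.univ.filter (fun j => e j ≠ 0))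
      (fun j => e j < (K ^ L)⁻¹)]
    have e1 : (Finset.univ.filter (fun j => e j ≠ 0)).filter (fun j => e j < (K ^ L)⁻¹) = s := by
      rw [hs, Finset.filter_filter]
    rw [e1]
    apply mul_le_mul
    · rw [← Finset.prod_const]
      exact Finset.prod_le_prod (fun j _ => hpos j) fun j hj =>
        (Finset.mem_filter.1 hj).2.2.le
    · refine (Finset.prod_le_prod (fun j _ => hpos j) fun j _ => hle j).trans ?_
      rw [Finset.prod_const]
      apply pow_le_pow_right₀ (by linarith)
      exact (Finset.card_filter_le _ _).trans (Finset.card_filter_le _ _)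
    · exact Finset.prod_nonneg fun j _ => hpos j
    · positivity
  have h2 : 1 ≤ ((K ^ L)⁻¹) ^ s.card * K ^ (Fintype.card n) := hprod.trans h1
  have h3 : (K ^ L) ^ s.card ≤ K ^ (Fintype.card n) := by
    rw [inv_pow, inv_mul_eq_div, one_le_div (by positivity)] at h2
    exact h2
  rw [← pow_mul] at h3
  exact (pow_le_pow_iff_right₀ (by linarith)).1 h3

/-- averages of the powers -/
theorem avg_le (x : ℝ) (N : ℕ) (hN : 0 < N) (h1 : |x| ≤ 1) (hx : x < 1) :
    |(N : ℝ)⁻¹ * ∑ k ∈ Finset.range N, x ^ k| ≤ min 1 (2 / ((1 - x) * N)) := by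
  have hN' : (0 : ℝ) < N := by exact_mod_cast hN
  rw [le_min_iff]
  constructor
  · rw [abs_mul, abs_of_pos (inv_pos.2 hN'), inv_mul_le_iff₀ hN', mul_one]
    refine (Finset.abs_sum_le_sum_abs _ _).trans ?_
    calc ∑ k ∈ Finset.range N, |x ^ k| ≤ ∑ k ∈ Finset.range N, (1 : ℝ) :=
          Finset.sum_le_sum fun k _ => by rw [abs_pow]; exact pow_le_one₀ (abs_nonneg _) h1
      _ = N := by simp
  · have h2 : (1 - x) * ∑ k ∈ Finset.range N, x ^ k = 1 - x ^ N := by
      rw [mul_neg_geom_sum]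
    have h3 : ∑ k ∈ Finset.range N, x ^ k = (1 - x ^ N) / (1 - x) := by
      rw [eq_div_iff (by linarith), mul_comm, h2]
    rw [h3, abs_mul, abs_of_pos (inv_pos.2 hN'), abs_div, abs_of_pos (show 0 < 1 - x by linarith)]
    have h4 : |1 - x ^ N| ≤ 2 := by
      have h5 : |x ^ N| ≤ 1 := by rw [abs_pow]; exact pow_le_one₀ (abs_nonneg _) h1
      have := abs_le.1 h5
      rw [abs_le]
      constructor <;> linarith
    have h6 : (0 : ℝ) < 1 - x := by linarith
    rw [inv_mul_eq_div, div_div, div_le_div_iff_of_pos_right (by positivity)]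
    exact h4

/-- the averages of the moments are close to the number of zero eigenvalues -/
theorem mat_bound (B : Matrix n n ℤ) (hH : (B.map (Int.castRingHom ℂ)).IsHermitian)
    (hpos : ∀ j, 0 ≤ hH.eigenvalues j) (c : ℝ) (hc : 0 < c) (hc1 : c ≤ 1)
    (hb : ∃ b : ℝ, ∀ k : ℕ, ‖trace ((1 - (c : ℂ) • (B.map (Int.castRingHom ℂ))) ^ k)‖ ≤ b) :
    ∃ z : ℂ, ∀ N L : ℕ, 0 < N → 0 < L →
      ‖(N : ℂ)⁻¹ * ∑ k ∈ Finset.range N, trace ((1 - (c : ℂ) • (B.map (Int.castRingHom ℂ))) ^ k)
        - z‖ ≤ Fintype.card n * (1 / L + 2 * (2 / c) ^ L / (c * N)) := by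
  classical
  set e := hH.eigenvalues with he
  have htr : ∀ k : ℕ, trace ((1 - (c : ℂ) • (B.map (Int.castRingHom ℂ))) ^ k) =
      ((∑ j, (1 - c * e j) ^ k : ℝ) : ℂ) := by
    intro k
    rw [trace_pow_eq hH]
    push_cast
    rfl
  -- the eigenvalues are bounded
  have hbd : ∀ j, c * e j ≤ 2 := by
    intro j
    by_contra hcon
    push Not at hcon
    obtain ⟨b, hb⟩ := hb
    have h1 : ∀ k : ℕ, ((1 - c * e j) ^ 2) ^ k ≤ b := by
      intro k
      have h2 := hb (2 * k)
      rw [htr, Complex.norm_real] at h2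
      refine le_trans ?_ ((le_abs_self _).trans h2)
      rw [← pow_mul]
      exact Finset.single_le_sum (f := fun j => (1 - c * e j) ^ (2 * k))
        (fun i _ => by rw [pow_mul]; positivity) (Finset.mem_univ j)
    have h3 : 1 < (1 - c * e j) ^ 2 := by nlinarith
    obtain ⟨k, hk⟩ := pow_unbounded_of_one_lt b h3
    exact absurd (h1 k) (not_le.2 hk)
  have hK : (2 : ℝ) ≤ 2 / c := by
    rw [le_div_iff₀ hc]; linarith
  have hle : ∀ j, e j ≤ 2 / c := fun j => by
    rw [le_div_iff₀ hc, mul_comm]; exact hbd j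
  refine ⟨((Finset.univ.filter (fun j => ¬ e j ≠ 0)).card : ℂ), fun N L hN hL => ?_⟩
  have hN' : (0 : ℝ) < N := by exact_mod_cast hN
  have hL' : (0 : ℝ) < L := by exact_mod_cast hL
  set f : n → ℝ := fun j => (N : ℝ)⁻¹ * ∑ k ∈ Finset.range N, (1 - c * e j) ^ k with hf
  have h1 : (N : ℂ)⁻¹ * ∑ k ∈ Finset.range N, trace ((1 - (c : ℂ) •
      (B.map (Int.castRingHom ℂ))) ^ k) = ((∑ j, f j : ℝ) : ℂ) := by
    simp only [htr, hf]
    rw [← Finset.mul_sum, Finset.sum_comm]
    push_cast
    rfl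
  have h2 : ∑ j, f j = ∑ j ∈ Finset.univ.filter (fun j => e j ≠ 0), f j +
      (Finset.univ.filter (fun j => ¬ e j ≠ 0)).card := by
    rw [← Finset.sum_filter_add_sum_filter_not Finset.univ (fun j => e j ≠ 0)]
    congr 1
    rw [Finset.card_eq_sum_ones, Nat.cast_sum]
    refine Finset.sum_congr rfl fun j hj => ?_
    have : e j = 0 := by
      have := (Finset.mem_filter.1 hj).2
      push Not at this
      exact this
    rw [hf]
    simp only [this, mul_zero, sub_zero, one_pow, Finset.sum_const, Finset.card_range,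
      nsmul_eq_mul, mul_one]
    rw [inv_mul_cancel₀ hN'.ne']
    simp
  rw [h1, h2]
  push_cast
  rw [add_sub_cancel_right, ← Complex.ofReal_sum, Complex.norm_real]
  refine (Finset.abs_sum_le_sum_abs _ _).trans ?_
  have h3 : ∀ j, e j ≠ 0 → |f j| ≤ min 1 (2 / (c * e j * N)) := by
    intro j hj
    have hej : 0 < e j := lt_of_le_of_ne (hpos j) (Ne.symm hj)
    have h4 := avg_le (1 - c * e j) N hN (by
      rw [abs_le]
      constructor
      · linarith [hbd j]
      · have := mul_pos hc hej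
        linarith) (by have := mul_pos hc hej; linarith)
    have h5 : 1 - (1 - c * e j) = c * e j := by ring
    rwa [h5] at h4
  rw [← Finset.sum_filter_add_sum_filter_not (Finset.univ.filter (fun j => e j ≠ 0))
    (fun j => e j < ((2 / c) ^ L)⁻¹), mul_add]
  apply add_le_add
  · rw [Finset.filter_filter]
    have h4 : ∑ j ∈ Finset.univ.filter (fun j => e j ≠ 0 ∧ e j < ((2 / c) ^ L)⁻¹), |f j| ≤
        ((Finset.univ.filter (fun j => e j ≠ 0 ∧ e j < ((2 / c) ^ L)⁻¹)).card : ℝ) := by
      rw [Finset.card_eq_sum_ones, Nat.cast_sum]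
      refine Finset.sum_le_sum fun j hj => ?_
      rw [Nat.cast_one]
      exact (h3 j (Finset.mem_filter.1 hj).2.1).trans (min_le_left _ _)
    refine h4.trans ?_
    have h5 := count_small e hpos (2 / c) hK hle (one_le_prod B hH hpos) L
    have h6 : (L : ℝ) * ((Finset.univ.filter
        (fun j => e j ≠ 0 ∧ e j < ((2 / c) ^ L)⁻¹)).card : ℝ) ≤ Fintype.card n := by
      exact_mod_cast h5
    rw [mul_one_div, le_div_iff₀ hL', mul_comm]
    exact h6
  · have h4 : ∀ j ∈ (Finset.univ.filter (fun j => e j ≠ 0)).filter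
        (fun j => ¬ e j < ((2 / c) ^ L)⁻¹), |f j| ≤ 2 * (2 / c) ^ L / (c * N) := by
      intro j hj
      have hj1 := (Finset.mem_filter.1 (Finset.mem_filter.1 hj).1).2
      have hj2 := (Finset.mem_filter.1 hj).2
      push Not at hj2
      have hej : 0 < e j := lt_of_le_of_ne (hpos j) (Ne.symm hj1)
      refine (h3 j hj1).trans ((min_le_right _ _).trans ?_)
      rw [div_le_div_iff₀ (by positivity) (by positivity)]
      have h7 : 1 ≤ (2 / c) ^ L * e j := by
        rw [inv_le_iff_one_le_mul₀ (by positivity)] at hj2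
        rw [mul_comm]; exact hj2
      have h8 : 0 < c * N := by positivity
      nlinarith
    refine (Finset.sum_le_sum h4).trans ?_
    rw [Finset.sum_const, nsmul_eq_mul]
    apply mul_le_mul_of_nonneg_right _ (by positivity)
    exact_mod_cast (Finset.card_filter_le _ _).trans (Finset.card_filter_le _ _)

end Pool.Agent.TH107.AT
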