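import Pool.Agent.TH107.AT.Alg
import Pool.Agent.TH107.AT.Spec

/-!
The averages of the moments of an integer matrix over the group ring of a finite group.
-/

set_option autoImplicit false
set_option linter.unusedSectionVars false

open scoped InnerProductSpace ENNReal ComplexOrder
open Filter Topology

namespace Pool.Agent.TH107.AT

open Pool.Agent.H80R2
open Pool.Agent.H80R2.BC (L2 GMat vdim IsTr LInv Equi act kerA)
open Pool.Agent.H812R3
open Pool.Agent.W656.VA

variable {ι κ μ G : Type} [Group G] [Fintype ι] [Fintype κ] [Fintype μ]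

/-- the contraction -/
noncomputable def CC [DecidableEq ι] (X : Matrix κ ι (MonoidAlgebra ℂ G)) (c : ℝ) :
    Matrix ι ι (MonoidAlgebra ℂ G) := 1 - (c : ℂ) • (adjM X * X)

theorem mop_CC [DecidableEq ι] (X : Matrix κ ι (MonoidAlgebra ℂ G)) (c : ℝ) :
    mop (CC X c) = 1 - (c : ℂ) • ((ContinuousLinearMap.adjoint (mop X)).comp (mop X)) := by
  rw [CC, mop_sub, mop_one, mop_smul, mop_mul, adjoint_mop]

theorem norm_CC_le [DecidableEq ι] (X : Matrix κ ι (MonoidAlgebra ℂ G)) (c : ℝ) (hc : 0 ≤ c)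
    (hc2 : c * n1 X ^ 2 ≤ 1) : ‖mop (CC X c)‖ ≤ 1 := by
  rw [mop_CC]
  apply contr (mop X) c hc
  refine le_trans ?_ hc2
  apply mul_le_mul_of_nonneg_left _ hc
  exact pow_le_pow_left₀ (norm_nonneg _) (norm_mop_le X) 2

/-- the averages of the moments -/
noncomputable def mN [DecidableEq ι] (X : Matrix κ ι (MonoidAlgebra ℂ G)) (c : ℝ) (N : ℕ) : ℂ :=
  (N : ℂ)⁻¹ * ∑ k ∈ Finset.range N, ∑ i, ((CC X c ^ k) i i).coeff 1

theorem mN_tendsto [DecidableEq ι] (X : Matrix κ ι (MonoidAlgebra ℂ G)) (c : ℝ) (hc : 0 < c)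
    (hc2 : c * n1 X ^ 2 ≤ 1) :
    Tendsto (fun N : ℕ => mN X c N) atTop (𝓝 (vdim (kr (mop X)) : ℂ)) := by
  have hcc : (c : ℂ) ≠ 0 := by exact_mod_cast hc.ne'
  have hP := hasProj (isClosed_kr (mop X))
  have h := erg (mop (CC X c)) (norm_CC_le X c hc.le hc2) (kr (mop X)) (by
    intro x
    rw [mem_kr, mop_CC]
    have h1 : (1 - (c : ℂ) • ((ContinuousLinearMap.adjoint (mop X)).comp (mop X)) :
        L2 (ι × G) →L[ℂ] L2 (ι × G)) x
        = x - (c : ℂ) • ((ContinuousLinearMap.adjoint (mop X)).comp (mop X)) x := rfl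
    rw [h1, sub_eq_self, smul_eq_zero, or_iff_right hcc, ker_adj_comp])
  refine h.congr fun N => ?_
  rw [mN]
  congr 1
  refine Finset.sum_congr rfl fun k _ => ?_
  rw [← mop_pow, trc_mop]

/-! ### finite groups -/

variable {F : Type} [Group F] [Fintype F]

/-- the matrix of the operator -/
def Mt (Y : Matrix κ ι (MonoidAlgebra ℂ F)) : Matrix (κ × F) (ι × F) ℂ :=
  Matrix.of fun p q => (Y p.1 q.1).coeff (p.2⁻¹ * q.2)

theorem Mt_apply (Y : Matrix κ ι (MonoidAlgebra ℂ F)) (k : κ) (g : F) (i : ι) (h : F) :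
    Mt Y (k, g) (i, h) = (Y k i).coeff (g⁻¹ * h) := rfl

theorem Mt_mul (X : Matrix μ κ (MonoidAlgebra ℂ F)) (Y : Matrix κ ι (MonoidAlgebra ℂ F)) :
    Mt (X * Y) = Mt X * Mt Y := by
  ext ⟨m, g⟩ ⟨i, h⟩
  rw [Mt_apply, ← mop_de, mop_mul, ContinuousLinearMap.comp_apply, mop_apply, Matrix.mul_apply,
    Fintype.sum_prod_type]
  refine Finset.sum_congr rfl fun k _ => ?_
  rw [ra_apply, Finsupp.sum_fintype _ _ (fun _ => zero_mul _)]
  rw [← Equiv.sum_comp (Equiv.mulLeft g) (fun u => Mt X (m, g) (k, u) * Mt Y (k, u) (i, h))]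
  refine Finset.sum_congr rfl fun u _ => ?_
  rw [mop_de, Equiv.coe_mulLeft, Mt_apply, Mt_apply, inv_mul_cancel_left]

theorem Mt_one [DecidableEq ι] [DecidableEq F] :
    Mt (1 : Matrix ι ι (MonoidAlgebra ℂ F)) = 1 := by
  ext ⟨m, g⟩ ⟨i, h⟩
  rw [Mt_apply]
  by_cases hmi : m = i
  · subst hmi
    rw [Matrix.one_apply_eq, MonoidAlgebra.one_def, MonoidAlgebra.coeff_single,
      Finsupp.single_apply, Matrix.one_apply]
    by_cases hg : g = h
    · subst hg
      rw [if_pos (by simp), if_pos rfl]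
    · rw [if_neg, if_neg]
      · intro e; exact hg (congrArg Prod.snd e)
      · intro e
        apply hg
        rw [eq_comm, inv_mul_eq_one] at e
        exact e
  · rw [Matrix.one_apply_ne hmi, Matrix.one_apply_ne (fun e => hmi (congrArg Prod.fst e))]
    rfl

theorem Mt_sub (X Y : Matrix κ ι (MonoidAlgebra ℂ F)) : Mt (X - Y) = Mt X - Mt Y := by
  ext p q
  rfl

theorem Mt_smul (c : ℂ) (X : Matrix κ ι (MonoidAlgebra ℂ F)) : Mt (c • X) = c • Mt X := by
  ext p q
  rfl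

theorem Mt_pow [DecidableEq ι] [DecidableEq F] (X : Matrix ι ι (MonoidAlgebra ℂ F)) (n : ℕ) :
    Mt (X ^ n) = Mt X ^ n := by
  induction n with
  | zero => rw [pow_zero, pow_zero, Mt_one]
  | succ n ih => rw [pow_succ, pow_succ, Mt_mul, ih]

theorem trace_Mt (X : Matrix ι ι (MonoidAlgebra ℂ F)) :
    Matrix.trace (Mt X) = Fintype.card F * ∑ i, (X i i).coeff 1 := by
  rw [Matrix.trace, Fintype.sum_prod_type, Finset.mul_sum]
  refine Finset.sum_congr rfl fun i _ => ?_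
  simp only [Matrix.diag_apply, Mt_apply, inv_mul_cancel, Finset.sum_const, Finset.card_univ,
    nsmul_eq_mul]

theorem Mt_adjM (X : Matrix κ ι (MonoidAlgebra ℂ F)) : Mt (adjM X) = (Mt X).conjTranspose := by
  ext ⟨i, h⟩ ⟨k, g⟩
  rw [Mt_apply, Matrix.conjTranspose_apply, Mt_apply]
  change (st (X k i)).coeff _ = _
  rw [st_coeff]
  change (starRingEnd ℂ) _ = (starRingEnd ℂ) _
  congr 2
  group

/-- integral matrices -/
def Itg (X : Matrix κ ι (MonoidAlgebra ℂ G)) : Prop :=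
  ∀ k i g, ∃ z : ℤ, (X k i).coeff g = (z : ℂ)

theorem norm_trc_le (T : L2 (ι × G) →L[ℂ] L2 (ι × G)) (hT : ‖T‖ ≤ 1) :
    ‖trc T‖ ≤ Fintype.card ι := by
  unfold trc
  refine (norm_sum_le _ _).trans ?_
  calc _ ≤ ∑ i : ι, (1 : ℝ) := Finset.sum_le_sum fun i _ => by
        refine (norm_inner_le_norm _ _).trans ?_
        rw [norm_de, one_mul]
        refine (T.le_opNorm _).trans ?_
        rw [norm_de, mul_one]
        exact hT
    _ = _ := by simp

theorem norm_pow_le_one (T : L2 (ι × G) →L[ℂ] L2 (ι × G)) (hT : ‖T‖ ≤ 1) (k : ℕ) :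
    ‖T ^ k‖ ≤ 1 := by
  induction k with
  | zero => rw [pow_zero]; exact ContinuousLinearMap.norm_id_le
  | succ k ih =>
    rw [pow_succ]
    refine (ContinuousLinearMap.opNorm_comp_le _ _).trans ?_
    calc _ ≤ (1 : ℝ) * 1 := mul_le_mul ih hT (norm_nonneg _) zero_le_one
      _ = 1 := mul_one 1

/-- the bound, uniform over all finite groups -/
theorem fin_bound [DecidableEq ι] (X : Matrix κ ι (MonoidAlgebra ℂ F)) (hX : Itg X) (c : ℝ)
    (hc : 0 < c) (hc1 : c ≤ 1) (hc2 : c * n1 X ^ 2 ≤ 1) :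
    ∃ z : ℂ, ∀ N L : ℕ, 0 < N → 0 < L →
      ‖mN X c N - z‖ ≤ Fintype.card ι * (1 / L + 2 * (2 / c) ^ L / (c * N)) := by
  classical
  choose z hz using hX
  let Z : Matrix (κ × F) (ι × F) ℤ := Matrix.of fun p q => z p.1 q.1 (p.2⁻¹ * q.2)
  have hZ : Mt X = Z.map (Int.castRingHom ℂ) := by
    ext ⟨k, g⟩ ⟨i, h⟩
    rw [Mt_apply, hz]
    rfl
  have hB : (Z.transpose * Z).map (Int.castRingHom ℂ) = (Mt X).conjTranspose * Mt X := by
    rw [Matrix.map_mul, hZ]
    congr 1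
    ext p q
    simp [Matrix.conjTranspose_apply]
  have hps : ((Z.transpose * Z).map (Int.castRingHom ℂ)).PosSemidef := by
    rw [hB]
    exact Matrix.posSemidef_conjTranspose_mul_self _
  have hH := hps.isHermitian
  have hCC : ∀ k : ℕ, (1 - (c : ℂ) • ((Z.transpose * Z).map (Int.castRingHom ℂ))) ^ k =
      Mt (CC X c ^ k) := by
    intro k
    rw [Mt_pow, CC, Mt_sub, Mt_one, Mt_smul, Mt_mul, Mt_adjM, hB]
  have hcard : (Fintype.card F : ℂ) ≠ 0 := by
    exact_mod_cast Fintype.card_ne_zero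
  have hcard' : (0 : ℝ) < Fintype.card F := by
    exact_mod_cast Fintype.card_pos
  obtain ⟨w, hw⟩ := mat_bound (Z.transpose * Z) hH (fun j => hps.eigenvalues_nonneg j) c hc hc1
    ⟨Fintype.card F * Fintype.card ι, fun k => by
      rw [hCC, trace_Mt, ← trc_mop, mop_pow, norm_mul, Complex.norm_natCast]
      apply mul_le_mul_of_nonneg_left _ hcard'.le
      exact norm_trc_le _ (norm_pow_le_one _ (norm_CC_le X c hc.le hc2) k)⟩
  refine ⟨w / Fintype.card F, fun N L hN hL => ?_⟩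
  have h1 := hw N L hN hL
  have h2 : (N : ℂ)⁻¹ * ∑ k ∈ Finset.range N, Matrix.trace ((1 - (c : ℂ) •
      ((Z.transpose * Z).map (Int.castRingHom ℂ))) ^ k) = Fintype.card F * mN X c N := by
    simp only [hCC, trace_Mt]
    rw [← Finset.mul_sum, mN]
    ring
  rw [h2] at h1
  have h3 : (Fintype.card F : ℂ) * mN X c N - w =
      Fintype.card F * (mN X c N - w / Fintype.card F) := by
    field_simp
  rw [h3, norm_mul, Complex.norm_natCast, Fintype.card_prod] at h1
  push_cast at h1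
  have h4 : (Fintype.card F : ℝ) * ‖mN X c N - w / Fintype.card F‖ ≤
      Fintype.card F * (Fintype.card ι * (1 / L + 2 * (2 / c) ^ L / (c * N))) := by
    refine h1.trans (le_of_eq ?_)
    ring
  exact le_of_mul_le_mul_left h4 hcard'

end Pool.Agent.TH107.AT
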