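import Pool.Agent.TH107.AT.Fin

/-!
Approximation of the dimension of the kernel by quotients.
-/

set_option autoImplicit false
set_option linter.unusedSectionVars false

open scoped InnerProductSpace ENNReal ComplexOrder
open Filter Topology

namespace Pool.Agent.TH107.AT

open Pool.Agent.H80R2
open Pool.Agent.H80R2.BC (L2 GMat vdim IsTr LInv Equi act kerA)
open Pool.Agent.H812R3
open Pool.Agent.W656.VA

variable {ι κ μ G G' : Type} [Group G] [Group G'] [Fintype ι] [Fintype κ] [Fintype μ]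

/-- the induced homomorphism of group algebras -/
noncomputable def hm (f : G →* G') : MonoidAlgebra ℂ G →ₐ[ℂ] MonoidAlgebra ℂ G' :=
  MonoidAlgebra.mapDomainAlgHom ℂ ℂ f

theorem hm_coeff (f : G →* G') (a : MonoidAlgebra ℂ G) :
    (hm f a).coeff = a.coeff.mapDomain f := rfl

theorem hm_single (f : G →* G') (g : G) (c : ℂ) :
    hm f (MonoidAlgebra.single g c) = MonoidAlgebra.single (f g) c := by
  apply MonoidAlgebra.ext
  rw [hm_coeff, MonoidAlgebra.coeff_single, MonoidAlgebra.coeff_single, Finsupp.mapDomain_single]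

theorem hm_coeff_one (f : G →* G') (a : MonoidAlgebra ℂ G)
    (h : ∀ g ∈ a.coeff.support, f g = 1 → g = 1) : (hm f a).coeff 1 = a.coeff 1 := by
  classical
  rw [hm_coeff, Finsupp.mapDomain, Finsupp.sum_apply, Finsupp.sum]
  have h1 : ∀ g ∈ a.coeff.support, (Finsupp.single (f g) (a.coeff g)) 1 =
      if g = 1 then a.coeff g else 0 := by
    intro g hg
    rw [Finsupp.single_apply]
    by_cases h2 : g = 1
    · rw [if_pos h2, if_pos (by rw [h2, map_one])]
    · rw [if_neg h2, if_neg (fun h3 => h2 (h g hg h3))]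
  rw [Finset.sum_congr rfl h1, Finset.sum_ite_eq']
  split_ifs with h2
  · rfl
  · exact (Finsupp.notMem_support_iff.1 h2).symm

theorem st_add (a b : MonoidAlgebra ℂ G) : st (a + b) = st a + st b := by
  apply MonoidAlgebra.ext
  ext g
  rw [st_coeff, MonoidAlgebra.coeff_add, MonoidAlgebra.coeff_add, Finsupp.add_apply,
    Finsupp.add_apply, st_coeff, st_coeff, map_add]

theorem st_zero : st (0 : MonoidAlgebra ℂ G) = 0 := by
  apply MonoidAlgebra.ext
  ext g
  rw [st_coeff, MonoidAlgebra.coeff_zero, Finsupp.zero_apply, Finsupp.zero_apply, map_zero]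

theorem st_single (g : G) (c : ℂ) :
    st (MonoidAlgebra.single g c) = MonoidAlgebra.single g⁻¹ ((starRingEnd ℂ) c) := by
  classical
  apply MonoidAlgebra.ext
  ext h
  rw [st_coeff, MonoidAlgebra.coeff_single, MonoidAlgebra.coeff_single, Finsupp.single_apply,
    Finsupp.single_apply]
  by_cases e : g = h⁻¹
  · rw [if_pos e, if_pos (by rw [e, inv_inv])]
  · rw [if_neg e, if_neg, map_zero]
    intro e2
    exact e (by rw [← e2, inv_inv])

theorem st_hm (f : G →* G') (a : MonoidAlgebra ℂ G) : st (hm f a) = hm f (st a) := by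
  induction a using MonoidAlgebra.induction_linear with
  | zero => rw [map_zero, st_zero, st_zero, map_zero]
  | add a b ha hb => rw [map_add, st_add, st_add, map_add, ha, hb]
  | single g c => rw [hm_single, st_single, st_single, hm_single, map_inv]

/-- the image of a matrix -/
noncomputable def im (f : G →* G') (X : Matrix κ ι (MonoidAlgebra ℂ G)) :
    Matrix κ ι (MonoidAlgebra ℂ G') := X.map (hm f)

theorem adjM_im (f : G →* G') (X : Matrix κ ι (MonoidAlgebra ℂ G)) :
    adjM (im f X) = im f (adjM X) := by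
  ext1 i k
  exact st_hm f _

theorem im_mul (f : G →* G') (X : Matrix μ κ (MonoidAlgebra ℂ G))
    (Y : Matrix κ ι (MonoidAlgebra ℂ G)) : im f (X * Y) = im f X * im f Y :=
  Matrix.map_mul (f := (hm f : MonoidAlgebra ℂ G →+* MonoidAlgebra ℂ G'))

theorem im_one [DecidableEq ι] (f : G →* G') :
    im f (1 : Matrix ι ι (MonoidAlgebra ℂ G)) = 1 :=
  Matrix.map_one _ (map_zero _) (map_one _)

theorem im_pow [DecidableEq ι] (f : G →* G') (X : Matrix ι ι (MonoidAlgebra ℂ G)) (n : ℕ) :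
    im f (X ^ n) = im f X ^ n := by
  induction n with
  | zero => rw [pow_zero, pow_zero, im_one]
  | succ n ih => rw [pow_succ, pow_succ, im_mul, ih]

theorem im_CC [DecidableEq ι] (f : G →* G') (X : Matrix κ ι (MonoidAlgebra ℂ G)) (c : ℝ) :
    im f (CC X c) = CC (im f X) c := by
  have h1 : ∀ Y Z : Matrix ι ι (MonoidAlgebra ℂ G), im f (Y - Z) = im f Y - im f Z := by
    intro Y Z
    ext1 i j
    exact map_sub (hm f) _ _
  have h2 : ∀ Y : Matrix ι ι (MonoidAlgebra ℂ G), im f ((c : ℂ) • Y) = (c : ℂ) • im f Y := by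
    intro Y
    ext1 i j
    exact map_smul (hm f) _ _
  rw [CC, CC, h1, im_one, h2, im_mul, adjM_im]

theorem n1_im_le (f : G →* G') (X : Matrix κ ι (MonoidAlgebra ℂ G)) : n1 (im f X) ≤ n1 X := by
  classical
  unfold n1
  refine Finset.sum_le_sum fun k _ => Finset.sum_le_sum fun i _ => ?_
  set v := (X k i).coeff with hv
  have h0 : (im f X k i).coeff = v.mapDomain f := rfl
  rw [h0, Finsupp.sum, Finsupp.sum]
  have h1 : ∀ y, ‖(v.mapDomain f) y‖ ≤ ∑ x ∈ v.support, if f x = y then ‖v x‖ else 0 := by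
    intro y
    rw [Finsupp.mapDomain, Finsupp.sum_apply, Finsupp.sum]
    refine (norm_sum_le _ _).trans (Finset.sum_le_sum fun x _ => ?_)
    rw [Finsupp.single_apply]
    split_ifs <;> simp
  refine (Finset.sum_le_sum fun y _ => h1 y).trans ?_
  rw [Finset.sum_comm]
  refine Finset.sum_le_sum fun x _ => ?_
  rw [Finset.sum_ite_eq]
  split_ifs
  · exact le_rfl
  · exact norm_nonneg _

theorem itg_im (f : G →* G') (X : Matrix κ ι (MonoidAlgebra ℂ G)) (hX : Itg X) :
    Itg (im f X) := by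
  intro k i g
  have h1 := coef_mapDomain (R := (Int.castRingHom ℂ).range) f (X k i).coeff (fun x => by
    obtain ⟨z, hz⟩ := hX k i x
    exact ⟨z, hz.symm⟩) g
  obtain ⟨z, hz⟩ := h1
  exact ⟨z, hz.symm⟩

/-- exceptional elements -/
noncomputable def Ex [DecidableEq ι] [DecidableEq G] (X : Matrix κ ι (MonoidAlgebra ℂ G)) (c : ℝ)
    (N : ℕ) : Finset G :=
  (((Finset.range N).biUnion fun k => Finset.univ.biUnion fun i : ι =>
    ((CC X c ^ k) i i).coeff.support).filter fun g => g ≠ 1)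

theorem mN_im [DecidableEq ι] [DecidableEq G] (f : G →* G')
    (X : Matrix κ ι (MonoidAlgebra ℂ G)) (c : ℝ) (N : ℕ) (h : ∀ g ∈ Ex X c N, f g ≠ 1) :
    mN (im f X) c N = mN X c N := by
  rw [mN, mN]
  congr 1
  refine Finset.sum_congr rfl fun k hk => Finset.sum_congr rfl fun i _ => ?_
  rw [← im_CC, ← im_pow]
  apply hm_coeff_one
  intro g hg hfg
  by_contra hne
  apply h g _ hfg
  rw [Ex, Finset.mem_filter, Finset.mem_biUnion]
  exact ⟨⟨k, hk, Finset.mem_biUnion.2 ⟨i, Finset.mem_univ _, hg⟩⟩, hne⟩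

/-- residually a member of a class -/
def ResBy (C : (Q : Type) → [Group Q] → Prop) (G : Type) [Group G] : Prop :=
  ∀ S : Finset G, (∀ s ∈ S, s ≠ 1) → ∃ (Q : Type) (_ : Group Q) (f : G →* Q), C Q ∧
    ∀ s ∈ S, f s ≠ 1

/-- residually finite -/
def RF (G : Type) [Group G] : Prop := ResBy (fun Q _ => Finite Q) G

theorem cauchy_rf [DecidableEq ι] (hG : RF G) (X : Matrix κ ι (MonoidAlgebra ℂ G)) (hX : Itg X)
    (c : ℝ) (hc : 0 < c) (hc1 : c ≤ 1) (hc2 : c * n1 X ^ 2 ≤ 1) (N N' L : ℕ) (hN : 0 < N)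
    (hN' : 0 < N') (hL : 0 < L) :
    ‖mN X c N - mN X c N'‖ ≤ Fintype.card ι * (1 / L + 2 * (2 / c) ^ L / (c * N)) +
      Fintype.card ι * (1 / L + 2 * (2 / c) ^ L / (c * N')) := by
  classical
  obtain ⟨F, _, f, hF, hf⟩ := hG (Ex X c N ∪ Ex X c N') (by
    intro s hs
    rcases Finset.mem_union.1 hs with h | h
    · exact (Finset.mem_filter.1 h).2
    · exact (Finset.mem_filter.1 h).2)
  have hF' : Fintype F := Fintype.ofFinite F
  have h1 := mN_im f X c N (fun g hg => hf g (Finset.mem_union_left _ hg))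
  have h2 := mN_im f X c N' (fun g hg => hf g (Finset.mem_union_right _ hg))
  have h3 : c * n1 (im f X) ^ 2 ≤ 1 := by
    refine le_trans ?_ hc2
    apply mul_le_mul_of_nonneg_left _ hc.le
    exact pow_le_pow_left₀ (n1_nonneg _) (n1_im_le f X) 2
  obtain ⟨z, hz⟩ := fin_bound (im f X) (itg_im f X hX) c hc hc1 h3
  rw [← h1, ← h2]
  have e : mN (im f X) c N - mN (im f X) c N' =
      (mN (im f X) c N - z) - (mN (im f X) c N' - z) := by ring
  rw [e]
  exact (norm_sub_le _ _).trans (add_le_add (hz N L hN hL) (hz N' L hN' hL))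

theorem tendsto_err (c : ℝ) (hc : 0 < c) (L : ℕ) (a : ℝ) :
    Tendsto (fun N : ℕ => a * (1 / L + 2 * (2 / c) ^ L / (c * N))) atTop (𝓝 (a * (1 / L))) := by
  have h1 : Tendsto (fun N : ℕ => 2 * (2 / c) ^ L / (c * N)) atTop (𝓝 0) := by
    apply Tendsto.div_atTop tendsto_const_nhds
    exact Tendsto.const_mul_atTop hc tendsto_natCast_atTop_atTop
  have h2 := (tendsto_const_nhds (x := (1 : ℝ) / L)).add h1
  rw [add_zero] at h2
  exact h2.const_mul a

theorem vdim_rf [DecidableEq ι] (hG : RF G) (X : Matrix κ ι (MonoidAlgebra ℂ G)) (hX : Itg X)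
    (c : ℝ) (hc : 0 < c) (hc1 : c ≤ 1) (hc2 : c * n1 X ^ 2 ≤ 1) (N L : ℕ) (hN : 0 < N)
    (hL : 0 < L) :
    ‖mN X c N - (vdim (kr (mop X)) : ℂ)‖ ≤
      Fintype.card ι * (1 / L + 2 * (2 / c) ^ L / (c * N)) + Fintype.card ι * (1 / L) := by
  have h1 : Tendsto (fun N' : ℕ => ‖mN X c N - mN X c N'‖) atTop
      (𝓝 ‖mN X c N - (vdim (kr (mop X)) : ℂ)‖) :=
    (tendsto_const_nhds.sub (mN_tendsto X c hc hc2)).norm
  have h2 := (tendsto_const_nhds (x := (Fintype.card ι : ℝ) *
    (1 / L + 2 * (2 / c) ^ L / (c * N)))).add (tendsto_err c hc L (Fintype.card ι))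
  refine le_of_tendsto_of_tendsto h1 h2 ?_
  filter_upwards [eventually_gt_atTop 0] with N' hN'
  exact cauchy_rf hG X hX c hc hc1 hc2 N N' L hN hN' hL

/-- a real number which is arbitrarily close to integers is an integer -/
theorem int_of_close (v : ℝ) (h : ∀ ε : ℝ, 0 < ε → ∃ z : ℤ, |v - z| < ε) : ∃ z : ℤ, v = z := by
  refine ⟨round v, ?_⟩
  by_contra hne
  have h1 : 0 < |v - round v| := abs_pos.2 (sub_ne_zero.2 hne)
  obtain ⟨z, hz⟩ := h _ h1
  exact absurd (round_le v z) (not_le.2 hz)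

/-- integrality passes from residually finite quotients to the group -/
theorem integral_of_res {C : (Q : Type) → [Group Q] → Prop} (hG : ResBy C G)
    (hC : ∀ (Q : Type) [Group Q], C Q → RF Q)
    (hI : ∀ (Q : Type) [Group Q], C Q → ∀ Y : Matrix κ ι (MonoidAlgebra ℂ Q), Itg Y →
      ∃ z : ℤ, vdim (kr (mop Y)) = z)
    (X : Matrix κ ι (MonoidAlgebra ℂ G)) (hX : Itg X) : ∃ z : ℤ, vdim (kr (mop X)) = z := by
  classical
  apply int_of_close
  intro ε hε
  set c : ℝ := 1 / (n1 X ^ 2 + 1) with hcdef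
  have hpos : 0 < n1 X ^ 2 + 1 := by positivity
  have hc : 0 < c := by positivity
  have hc1 : c ≤ 1 := by
    rw [hcdef, div_le_one hpos]
    have := sq_nonneg (n1 X)
    linarith
  have hc2 : c * n1 X ^ 2 ≤ 1 := by
    rw [hcdef, one_div, inv_mul_le_iff₀ hpos]
    linarith
  -- choose `L`
  obtain ⟨L, hL0, hL⟩ : ∃ L : ℕ, 0 < L ∧ (Fintype.card ι : ℝ) * (1 / L) < ε / 4 := by
    obtain ⟨L, hL⟩ := exists_nat_gt ((Fintype.card ι : ℝ) / (ε / 4))
    have hL' : (0 : ℝ) < L := lt_of_le_of_lt (by positivity) hL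
    refine ⟨L, by exact_mod_cast hL', ?_⟩
    rw [mul_one_div, div_lt_iff₀ hL']
    rw [div_lt_iff₀ (by positivity)] at hL
    linarith
  have h1 := (tendsto_err c hc L (Fintype.card ι)).eventually (gt_mem_nhds hL)
  have h2 := (mN_tendsto X c hc hc2).eventually (Metric.ball_mem_nhds _ (show 0 < ε / 4 by positivity))
  obtain ⟨N, hN1, hN2, hN0⟩ := (h1.and (h2.and (eventually_gt_atTop 0))).exists
  obtain ⟨Q, _, f, hQ, hf⟩ := hG (Ex X c N) (fun s hs => (Finset.mem_filter.1 hs).2)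
  have h3 := mN_im f X c N hf
  have h4 : c * n1 (im f X) ^ 2 ≤ 1 := by
    refine le_trans ?_ hc2
    apply mul_le_mul_of_nonneg_left _ hc.le
    exact pow_le_pow_left₀ (n1_nonneg _) (n1_im_le f X) 2
  have h5 := vdim_rf (hC Q hQ) (im f X) (itg_im f X hX) c hc hc1 h4 N L hN0 hL0
  obtain ⟨z, hz⟩ := hI Q hQ (im f X) (itg_im f X hX)
  refine ⟨z, ?_⟩
  rw [h3] at h5
  rw [dist_eq_norm] at hN2
  have h6 : ‖((vdim (kr (mop X)) - vdim (kr (mop (im f X))) : ℝ) : ℂ)‖ < ε := by
    have e : ((vdim (kr (mop X)) - vdim (kr (mop (im f X))) : ℝ) : ℂ) =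
        (mN X c N - (vdim (kr (mop (im f X))) : ℂ)) - (mN X c N - (vdim (kr (mop X)) : ℂ)) := by
      push_cast; ring
    rw [e]
    refine lt_of_le_of_lt (norm_sub_le _ _) ?_
    linarith
  rw [Complex.norm_real, hz] at h6
  exact h6

end Pool.Agent.TH107.AT
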