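import Pool.Agent.TH107.AT.Alg
import Pool.Agent.TH107.RF.LIcons
import Pool.Agent.W649.ZL.Lead
import Pool.Agent.TH714.PF.Fol

/-!
Kernel dimensions over amenable locally indicable groups are integers.
-/

set_option autoImplicit false
set_option linter.unusedSectionVars false

open scoped InnerProductSpace ENNReal Pointwise
open Filter Topology

namespace Pool.Agent.TH107.AT

open Pool.Agent.H80R2
open Pool.Agent.H80R2.BC (L2 GMat vdim IsTr LInv Equi act kerA)
open Pool.Agent.H812R3
open Pool.Agent.W656.VA
open Pool.Agent.TH107.RF (LI)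
open Pool.Agent.TH714.PF (Fol)

variable {ι κ μ G : Type} [Group G] [Fintype ι] [Fintype κ] [Fintype μ]

theorem ra_inj (hG : LI G) {u : MonoidAlgebra ℂ G} (hu : u ≠ 0)
    (φ : L2 (κ × G)) (k : κ) (h : ∀ g, ra u (fun h => φ (k, h)) g = 0) (g : G) :
    φ (k, g) = 0 := by
  have hinj : Function.Injective (fun p : G × Unit => ((k, p.1⁻¹) : κ × G)) := by
    rintro ⟨a, ⟨⟩⟩ ⟨b, ⟨⟩⟩ hab
    simp only [Prod.mk.injEq, inv_inj, true_and] at hab
    rw [hab]
  let f : Pool.Agent.W649.ZL.EE G Unit := KP.pull _ hinj φ
  have hf : ∀ x, f (x, ()) = φ (k, x⁻¹) := fun x => rfl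
  have h1 : Pool.Agent.W649.ZL.cop u.coeff f = 0 := by
    ext ⟨x, ⟨⟩⟩
    rw [Pool.Agent.W649.ZL.cop_apply]
    have h2 := h x⁻¹
    rw [ra_apply, Finsupp.sum] at h2
    change _ = (0 : ℂ)
    rw [← h2]
    refine Finset.sum_congr rfl fun t _ => ?_
    rw [hf]
    congr 3
    group
  have h2 : f = 0 := by
    apply Pool.Agent.W649.ZL.LI_injective _ G hG u.coeff rfl
      (fun h0 => hu (MonoidAlgebra.coeff_eq_zero.1 h0))
    rw [h1, map_zero]
  have h3 : f (g⁻¹, ()) = 0 := by rw [h2]; rfl
  rw [hf, inv_inv] at h3
  exact h3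

/-- the left Ore condition -/
theorem ore (hnz : NoZeroDivisors (MonoidAlgebra ℂ G)) (hF : Fol G) (p q : MonoidAlgebra ℂ G)
    (hp : p ≠ 0) : ∃ u v : MonoidAlgebra ℂ G, u ≠ 0 ∧ u * q = v * p := by
  classical
  set Θ := p.coeff.support ∪ q.coeff.support with hΘ
  obtain ⟨Φ, hΦ, hcard0⟩ := hF.ex Θ (1 / 2) (by norm_num)
  set Ψ := Φ * Θ with hΨ
  have hcard : Ψ.card < 2 * Φ.card := by
    have h1 : (0 : ℝ) < Φ.card := by exact_mod_cast hΦ.card_pos
    have h3 : ((Φ * Θ).card : ℝ) < 2 * Φ.card := by linarith
    exact_mod_cast h3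
  let E : ({g // g ∈ Φ} → ℂ) →ₗ[ℂ] MonoidAlgebra ℂ G :=
    { toFun := fun u => ∑ g : {g // g ∈ Φ}, MonoidAlgebra.single (g : G) (u g)
      map_add' := by
        intro u v
        rw [← Finset.sum_add_distrib]
        refine Finset.sum_congr rfl fun g _ => ?_
        rw [Pi.add_apply, MonoidAlgebra.single_add]
      map_smul' := by
        intro c u
        rw [RingHom.id_apply, Finset.smul_sum]
        refine Finset.sum_congr rfl fun g _ => ?_
        rw [Pi.smul_apply, MonoidAlgebra.smul_single] }
  have hEc : ∀ (u : {g // g ∈ Φ} → ℂ) (g : {g // g ∈ Φ}), (E u).coeff (g : G) = u g := by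
    intro u g
    change (∑ g : {g // g ∈ Φ}, MonoidAlgebra.single (g : G) (u g)).coeff (g : G) = u g
    rw [MonoidAlgebra.coeff_sum, Finsupp.finset_sum_apply, Finset.sum_eq_single g]
    · rw [MonoidAlgebra.coeff_single, Finsupp.single_eq_same]
    · intro b _ hb
      rw [MonoidAlgebra.coeff_single, Finsupp.single_apply, if_neg]
      intro h
      exact hb (Subtype.ext h)
    · intro h
      exact absurd (Finset.mem_univ _) h
  have hEs : ∀ (u : {g // g ∈ Φ} → ℂ), (E u).coeff.support ⊆ Φ := by
    intro u x hx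
    by_contra hcon
    rw [Finsupp.mem_support_iff] at hx
    apply hx
    change (∑ g : {g // g ∈ Φ}, MonoidAlgebra.single (g : G) (u g)).coeff x = 0
    rw [MonoidAlgebra.coeff_sum, Finsupp.finset_sum_apply]
    refine Finset.sum_eq_zero fun g _ => ?_
    rw [MonoidAlgebra.coeff_single, Finsupp.single_apply, if_neg]
    rintro rfl
    exact hcon g.2
  let T : (({g // g ∈ Φ} → ℂ) × ({g // g ∈ Φ} → ℂ)) →ₗ[ℂ] ({g // g ∈ Ψ} → ℂ) :=
    { toFun := fun w x => (E w.1 * q - E w.2 * p).coeff (x : G)
      map_add' := by
        intro w w'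
        funext x
        simp only [Prod.fst_add, Prod.snd_add, map_add, add_mul, Pi.add_apply]
        rw [← Finsupp.add_apply, ← MonoidAlgebra.coeff_add]
        congr 2
        abel
      map_smul' := by
        intro c w
        funext x
        simp only [Prod.smul_fst, Prod.smul_snd, map_smul, RingHom.id_apply, Pi.smul_apply,
          smul_mul_assoc]
        rw [← smul_sub]
        rfl }
  have hker : LinearMap.ker T ≠ ⊥ := by
    apply LinearMap.ker_ne_bot_of_finrank_lt
    rw [Module.finrank_prod, Module.finrank_fintype_fun_eq_card, Module.finrank_fintype_fun_eq_card,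
      Fintype.card_coe, Fintype.card_coe]
    omega
  obtain ⟨⟨u, v⟩, huv, hne⟩ := Submodule.exists_mem_ne_zero_of_ne_bot hker
  have hsup : ∀ (w : {g // g ∈ Φ} → ℂ) (a : MonoidAlgebra ℂ G), a.coeff.support ⊆ Θ →
      ∀ x, x ∉ Ψ → (E w * a).coeff x = 0 := by
    intro w a ha x hx
    by_contra hcon
    apply hx
    have h1 := MonoidAlgebra.support_coeff_mul_subset (E w) a (Finsupp.mem_support_iff.2 hcon)
    rw [Finset.mem_mul] at h1
    obtain ⟨y, hy, z, hz, rfl⟩ := h1
    exact Finset.mem_mul.2 ⟨y, hEs w hy, z, ha hz, rfl⟩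
  have heq : E u * q = E v * p := by
    rw [← sub_eq_zero]
    apply MonoidAlgebra.ext
    ext x
    by_cases hx : x ∈ Ψ
    · exact congrFun (LinearMap.mem_ker.1 huv) ⟨x, hx⟩
    · rw [MonoidAlgebra.coeff_sub, Finsupp.sub_apply,
        hsup u q Finset.subset_union_right x hx, hsup v p Finset.subset_union_left x hx, sub_zero]
      rfl
  refine ⟨E u, E v, ?_, heq⟩
  intro hu
  apply hne
  have hv : E v = 0 := by
    rw [hu, zero_mul] at heq
    exact (mul_eq_zero.1 heq.symm).resolve_right hp
  have h1 : u = 0 := by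
    funext g
    rw [← hEc u g, hu]
    rfl
  have h2 : v = 0 := by
    funext g
    rw [← hEc v g, hv]
    rfl
  rw [h1, h2]
  rfl

theorem kr_mop (X : Matrix κ ι (MonoidAlgebra ℂ G)) :
    kr (mop X) = kerA (fun k i => (X k i).coeff) := (kerA_eq _).symm

theorem mem_kr_mop (X : Matrix κ ι (MonoidAlgebra ℂ G)) (x : L2 (ι × G)) :
    x ∈ kr (mop X) ↔ ∀ k g, ∑ i, ra (X k i) (fun h => x (i, h)) g = 0 := by
  rw [mem_kr]
  constructor
  · intro h k g
    rw [← mop_apply, h]
    rfl
  · intro h
    ext ⟨k, g⟩
    rw [mop_apply]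
    exact h k g

/-- a zero column -/
theorem zero_col {n : ℕ} (B : Matrix κ (Fin (n + 1)) (MonoidAlgebra ℂ G))
    (hB : ∀ k, B k (Fin.last n) = 0) :
    vdim (kr (mop B)) = vdim (kr (mop (Matrix.of fun k (i : Fin n) => B k i.castSucc))) + 1 := by
  classical
  let A' : GMat Empty (Fin 1) G := fun e _ => e.elim
  have h1 : (fun k i => (B k i).coeff : GMat κ (Fin (n + 1)) G) =
      ri (Equiv.sumEmpty κ Empty).symm (finSumFinEquiv (m := n) (n := 1)).symm
        (bd (fun k (i : Fin n) => (B k i.castSucc).coeff) A') := by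
    funext k i
    obtain ⟨s, rfl⟩ := (finSumFinEquiv (m := n) (n := 1)).surjective i
    rw [ri, Equiv.symm_apply_apply, Equiv.sumEmpty_symm_apply]
    rcases s with i | j
    · rfl
    · have hj : j = 0 := Subsingleton.elim _ _
      subst hj
      have : (finSumFinEquiv (m := n) (n := 1)) (Sum.inr 0) = Fin.last n := rfl
      rw [this, hB]
      rfl
  rw [kr_mop, kr_mop, h1, vdim_ri, vdim_bd]
  congr 1
  have h2 : kerA A' = ⊤ := by
    rw [eq_top_iff]
    intro x _ e
    exact e.elim
  rw [h2, vdim_top]
  simp

/-- **integrality** over amenable locally indicable groups -/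
theorem integral_ore (hG : LI G) (hF : Fol G) (n : ℕ) :
    ∀ (κ : Type) [Fintype κ] (A : Matrix κ (Fin n) (MonoidAlgebra ℂ G)),
      ∃ z : ℤ, vdim (kr (mop A)) = z := by
  have hnz : NoZeroDivisors (MonoidAlgebra ℂ G) :=
    ⟨fun {x y} h => Pool.Agent.TH107.RF.nzd_of_LI hG ℂ x y h⟩
  induction n with
  | zero =>
    intro κ _ A
    refine ⟨0, ?_⟩
    have h1 := vdim_nonneg (kr (mop A))
    have h2 := vdim_le_card (kr (mop A))
    rw [Fintype.card_fin] at h2
    push_cast at h2 ⊢
    linarith
  | succ n ih =>
    intro κ _ A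
    by_cases h0 : ∀ k, A k (Fin.last n) = 0
    · obtain ⟨z, hz⟩ := ih κ (Matrix.of fun k (i : Fin n) => A k i.castSucc)
      refine ⟨z + 1, ?_⟩
      rw [zero_col A h0, hz]
      push_cast
      rfl
    · push Not at h0
      obtain ⟨k0, hk0⟩ := h0
      set p := A k0 (Fin.last n) with hp
      choose u v hu huv using fun k => ore hnz hF p (A k (Fin.last n)) hk0
      let B : Matrix κ (Fin (n + 1)) (MonoidAlgebra ℂ G) :=
        Matrix.of fun k i => u k * A k i - v k * A k0 i
      have hB : ∀ k, B k (Fin.last n) = 0 := by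
        intro k
        change u k * A k (Fin.last n) - v k * A k0 (Fin.last n) = 0
        rw [huv, sub_self]
      let R : Matrix Unit (Fin (n + 1)) (MonoidAlgebra ℂ G) := Matrix.of fun _ i => A k0 i
      obtain ⟨z, hz⟩ := ih κ (Matrix.of fun k (i : Fin n) => B k i.castSucc)
      have hK := zero_col B hB
      rw [hz] at hK
      have hBx : ∀ (x : L2 (Fin (n + 1) × G)) (k : κ) (g : G),
          ∑ i, ra (B k i) (fun h => x (i, h)) g =
            ra (u k) (fun h => mop A x (k, h)) g - ra (v k) (fun h => mop R x ((), h)) g := by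
        intro x k g
        have e1 : (fun h => mop A x (k, h)) = ∑ i, ra (A k i) (fun h => x (i, h)) := by
          funext h
          rw [mop_apply, Finset.sum_apply]
        have e2 : (fun h => mop R x ((), h)) = ∑ i, ra (A k0 i) (fun h => x (i, h)) := by
          funext h
          rw [mop_apply, Finset.sum_apply]
          rfl
        rw [e1, e2, map_sum, map_sum, Finset.sum_apply, Finset.sum_apply,
          ← Finset.sum_sub_distrib]
        refine Finset.sum_congr rfl fun i _ => ?_
        change ra (u k * A k i - v k * A k0 i) _ g = _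
        rw [map_sub, map_mul, map_mul]
        rfl
      have hAB : kr (mop A) = kr (mop B) ⊓ kr (mop R) := by
        ext x
        rw [Submodule.mem_inf]
        constructor
        · intro hx
          have hx' := (mem_kr _ _).1 hx
          have hR : mop R x = 0 := by
            ext ⟨⟨⟩, g⟩
            rw [mop_apply]
            exact (mem_kr_mop A x).1 hx k0 g
          refine ⟨(mem_kr_mop B x).2 fun k g => ?_, (mem_kr _ _).2 hR⟩
          rw [hBx, hx', hR]
          have e : (fun h => (0 : L2 (κ × G)) (k, h)) = 0 := rfl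
          have e' : (fun h => (0 : L2 (Unit × G)) ((), h)) = 0 := rfl
          rw [e, e', map_zero, map_zero]
          simp
        · rintro ⟨hx1, hx2⟩
          have hR := (mem_kr _ _).1 hx2
          rw [mem_kr]
          ext ⟨k, g⟩
          apply ra_inj hG (hu k) (mop A x) k
          intro g
          have h3 := (mem_kr_mop B x).1 hx1 k g
          rw [hBx, hR] at h3
          have e' : (fun h => (0 : L2 (Unit × G)) ((), h)) = 0 := rfl
          rw [e', map_zero] at h3
          simpa using h3
      have hrank := vdim_rank (isClosed_kr (mop B)) (linv_kr (equi_mop B)) (mop R) (equi_mop R)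
      rw [← hAB] at hrank
      -- the image is dense
      let Ec : Matrix (Fin (n + 1)) Unit (MonoidAlgebra ℂ G) :=
        Matrix.of fun i _ => if i = Fin.last n then 1 else 0
      have hBE : B * Ec = 0 := by
        ext1 k j
        rw [Matrix.mul_apply, Finset.sum_eq_single (Fin.last n)]
        · rw [hB, zero_mul]; rfl
        · intro i _ hi
          change B k i * (if i = Fin.last n then 1 else 0) = 0
          rw [if_neg hi, mul_zero]
        · intro h; exact absurd (Finset.mem_univ _) h
      have hRE : R * Ec = Matrix.of fun _ _ => p := by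
        ext1 k j
        rw [Matrix.mul_apply, Finset.sum_eq_single (Fin.last n)]
        · change A k0 (Fin.last n) * (if Fin.last n = Fin.last n then 1 else 0) = p
          rw [if_pos rfl, mul_one]
        · intro i _ hi
          change A k0 i * (if i = Fin.last n then 1 else 0) = 0
          rw [if_neg hi, mul_zero]
        · intro h; exact absurd (Finset.mem_univ _) h
      have htop : IsClosed ((⊤ : Submodule ℂ (L2 (Unit × G))) : Set (L2 (Unit × G))) :=
        isClosed_univ
      have hge := vdim_inj_le (K := (⊤ : Submodule ℂ (L2 (Unit × G)))) htop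
        (fun _ _ _ _ _ => trivial) (mop (R * Ec)) (equi_mop _)
        (R := ((kr (mop B)).map
          (mop R : L2 (Fin (n + 1) × G) →ₗ[ℂ] L2 (Unit × G))).topologicalClosure)
        (Submodule.isClosed_topologicalClosure _)
        (by
          intro x _
          apply Submodule.le_topologicalClosure
          refine ⟨mop Ec x, ?_, ?_⟩
          · change mop B (mop Ec x) = 0
            rw [← ContinuousLinearMap.comp_apply, ← mop_mul, hBE]
            ext ⟨k, g⟩
            rw [mop_apply]
            change ∑ i, ra (0 : MonoidAlgebra ℂ G) _ g = 0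
            simp
          · rw [mop_mul]; rfl)
        (by
          intro x _ hx
          ext ⟨⟨⟩, g⟩
          apply ra_inj hG hk0 x ()
          intro g
          have h3 := congrArg (fun f : L2 (Unit × G) => f ((), g)) hx
          simp only [mop_apply, hRE] at h3
          simpa using h3)
      rw [vdim_top] at hge
      have hle := vdim_le_card ((kr (mop B)).map
          (mop R : L2 (Fin (n + 1) × G) →ₗ[ℂ] L2 (Unit × G))).topologicalClosure
      rw [Fintype.card_unit] at hge hle
      refine ⟨z, ?_⟩
      push_cast at hge hle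
      linarith

end Pool.Agent.TH107.AT
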