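import Pool.Agent.TH107.AT.Tower
import Pool.Agent.Helper529.HJ.FolB

/-!
Quotients by the members of a series with torsion-free abelian factors are good if they are
residually finite.
-/

set_option autoImplicit false
set_option linter.unusedSectionVars false

namespace Pool.Agent.TH107.AT

open Pool.Agent.TH107.RF
open Pool.Agent.TH714.PF (Fol)
open scoped Pointwise

/-- from left to right Folner sets -/
theorem fol_of_left {G : Type} [Group G] (h : HJI.Fol.Fol G) : Fol G := by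
  classical
  intro S ε hε
  obtain ⟨T, hT, hTS⟩ := h (S.image fun s => s⁻¹) (ε / (S.card + 1)) (by positivity)
  refine ⟨T⁻¹, hT.inv, ?_⟩
  have h1 : (T⁻¹ * S) ⊆ T⁻¹ ∪ S.biUnion fun s =>
      (T.filter fun t => s⁻¹ * t ∉ T).image fun t => t⁻¹ * s := by
    intro x hx
    obtain ⟨a, ha, s, hs, rfl⟩ := Finset.mem_mul.1 hx
    rw [Finset.mem_union]
    by_cases h2 : a * s ∈ T⁻¹
    · exact Or.inl h2
    · right
      rw [Finset.mem_biUnion]
      refine ⟨s, hs, Finset.mem_image.2 ⟨a⁻¹, ?_, by simp⟩⟩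
      rw [Finset.mem_filter]
      refine ⟨Finset.mem_inv'.1 ha, fun h3 => h2 ?_⟩
      rw [Finset.mem_inv']
      simpa using h3
  have h2 : ((T⁻¹ * S).card : ℝ) ≤ T.card + ∑ s ∈ S, ε / (S.card + 1) * T.card := by
    have h3 : (T⁻¹ * S).card ≤ T.card + ∑ s ∈ S, (T.filter fun t => s⁻¹ * t ∉ T).card := by
      refine (Finset.card_le_card h1).trans ((Finset.card_union_le _ _).trans ?_)
      rw [Finset.card_inv]
      refine Nat.add_le_add_left ((Finset.card_biUnion_le).trans ?_) _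
      exact Finset.sum_le_sum fun s _ => Finset.card_image_le
    have h4 : ((T⁻¹ * S).card : ℝ) ≤ T.card + ∑ s ∈ S, ((T.filter fun t => s⁻¹ * t ∉ T).card : ℝ) := by
      exact_mod_cast h3
    refine h4.trans ?_
    gcongr with s hs
    have h5 := hTS s⁻¹ (Finset.mem_image_of_mem _ hs)
    refine le_trans (le_of_eq ?_) h5
    congr 2
  rw [Finset.card_inv]
  refine h2.trans ?_
  rw [Finset.sum_const, nsmul_eq_mul]
  have h3 : (S.card : ℝ) * (ε / (S.card + 1) * T.card) ≤ ε * T.card := by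
    have h4 : (S.card : ℝ) / (S.card + 1) ≤ 1 := by
      rw [div_le_one (by positivity)]
      linarith
    calc (S.card : ℝ) * (ε / (S.card + 1) * T.card) = (S.card : ℝ) / (S.card + 1) * (ε * T.card) := by
          ring
      _ ≤ 1 * (ε * T.card) := by gcongr
      _ = _ := one_mul _
  linarith

/-- groups with a finite series with abelian factors are amenable -/
theorem fol_of_tower {G : Type} [Group G] (D : ℕ → Subgroup G) (k : ℕ) (h0 : D 0 = ⊤)
    (hk : D k = ⊥) (ha : ∀ i, D (i + 1) ≤ D i)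
    (hc : ∀ i, ∀ x ∈ D i, ∀ y ∈ D i, x * y * x⁻¹ * y⁻¹ ∈ D (i + 1)) : Fol G := by
  classical
  have key : ∀ j, j ≤ k → HJI.Fol.Fol (D (k - j)) := by
    intro j
    induction j with
    | zero =>
      intro _
      rw [Nat.sub_zero, hk]
      exact HJI.Fol.fol_of_finite
    | succ j ih =>
      intro hj
      obtain ⟨i, hi⟩ : ∃ i, k - (j + 1) = i := ⟨_, rfl⟩
      have hi2 : k - j = i + 1 := by omega
      have ih2 := ih (by omega)
      rw [hi2] at ih2
      rw [hi]
      set K := (D (i + 1)).subgroupOf (D i) with hK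
      have hn : K.Normal := by
        constructor
        intro n hn g
        have h1 : (n : G) * g * (n : G)⁻¹ * (g : G)⁻¹ ∈ D (i + 1) := hc i n n.2 g g.2
        have h2 : ((g * n * g⁻¹ : D i) : G) = ((n : G) * g * (n : G)⁻¹ * (g : G)⁻¹)⁻¹ * n := by
          push_cast
          group
        rw [hK, Subgroup.mem_subgroupOf, h2]
        exact (D (i + 1)).mul_mem ((D (i + 1)).inv_mem h1) hn
      have h1 : HJI.Fol.Fol (D i ⧸ K) := by
        apply HJI.Fol.fol_comm
        intro a b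
        obtain ⟨a, rfl⟩ := QuotientGroup.mk_surjective a
        obtain ⟨b, rfl⟩ := QuotientGroup.mk_surjective b
        rw [← QuotientGroup.mk_mul, ← QuotientGroup.mk_mul, QuotientGroup.eq]
        rw [hK, Subgroup.mem_subgroupOf]
        have h2 := hc i (b : G)⁻¹ (D i |>.inv_mem b.2) (a : G)⁻¹ (D i |>.inv_mem a.2)
        have h3 : (((a * b)⁻¹ * (b * a) : D i) : G) =
            (b : G)⁻¹ * (a : G)⁻¹ * ((b : G)⁻¹)⁻¹ * ((a : G)⁻¹)⁻¹ := by
          push_cast
          group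
        rw [h3]
        exact h2
      apply HJI.Fol.fol_ext (QuotientGroup.mk' K) _ h1
      let f : (QuotientGroup.mk' K).ker →* D (i + 1) :=
        { toFun := fun x => ⟨x.1.1, (QuotientGroup.eq_one_iff (N := K) x.1).1 x.2⟩
          map_one' := rfl
          map_mul' := fun x y => rfl }
      apply HJI.Fol.fol_of_injective f _ ih2
      intro x y hxy
      have h3 : ((f x : D (i + 1)) : G) = ((f y : D (i + 1)) : G) := congrArg Subtype.val hxy
      exact Subtype.ext (Subtype.ext h3)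
  have h1 := key k le_rfl
  rw [Nat.sub_self, h0] at h1
  exact fol_of_left (HJI.Fol.fol_of_injective (Subgroup.topEquiv (G := G)).symm.toMonoidHom
    (Subgroup.topEquiv (G := G)).symm.injective h1)

/-- quotients by the members of a series -/
theorem good_quot {H : Type} [Group H] (E : ℕ → Subgroup H) (k : ℕ) [hn : (E k).Normal]
    (h0 : E 0 = ⊤) (ha : ∀ i, E (i + 1) ≤ E i)
    (hc : ∀ i, ∀ x ∈ E i, ∀ y ∈ E i, x * y * x⁻¹ * y⁻¹ ∈ E (i + 1))
    (hp : ∀ i, ∀ x ∈ E i, ∀ n : ℕ, n ≠ 0 → x ^ n ∈ E (i + 1) → x ∈ E (i + 1))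
    (hrf : ∀ x, x ∉ E k → ∃ (F : Type) (_ : Group F) (_ : Finite F) (ψ : H →* F),
      E k ≤ ψ.ker ∧ ψ x ≠ 1) : Good (H ⧸ E k) := by
  classical
  have hanti : ∀ i j, i ≤ j → E j ≤ E i := fun i j h => antitone_nat_of_succ_le ha h
  set π := QuotientGroup.mk' (E k) with hπ
  have hker : ∀ x : H, π x = 1 ↔ x ∈ E k := fun x => QuotientGroup.eq_one_iff x
  let D : ℕ → Subgroup (H ⧸ E k) := fun i => (E i).map π
  have hD0 : D 0 = ⊤ := by
    change (E 0).map π = ⊤
    rw [h0]
    exact Subgroup.map_top_of_surjective π (QuotientGroup.mk'_surjective _)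
  have hDk : D k = ⊥ := by
    change (E k).map π = ⊥
    rw [eq_bot_iff]
    rintro _ ⟨x, hx, rfl⟩
    exact Subgroup.mem_bot.2 ((hker x).2 hx)
  have hDa : ∀ i, D (i + 1) ≤ D i := fun i => Subgroup.map_mono (ha i)
  have hDc : ∀ i, ∀ x ∈ D i, ∀ y ∈ D i, x * y * x⁻¹ * y⁻¹ ∈ D (i + 1) := by
    rintro i _ ⟨x, hx, rfl⟩ _ ⟨y, hy, rfl⟩
    exact ⟨x * y * x⁻¹ * y⁻¹, hc i x hx y hy, by simp only [map_mul, map_inv]⟩
  have hDt : ∀ i, ∀ x ∈ D i, ∀ n : ℕ, n ≠ 0 → x ^ n ∈ D (i + 1) → x ∈ D (i + 1) := by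
    rintro i _ ⟨x, hx, rfl⟩ n hn ⟨y, hy, hxy⟩
    by_cases hik : i + 1 ≤ k
    · have h2 : x ^ n ∈ E (i + 1) := by
        rw [← map_pow] at hxy
        have h3 : y⁻¹ * x ^ n ∈ E k := by
          have h4 : π (y⁻¹ * x ^ n) = 1 := by
            rw [map_mul, map_inv, hxy, inv_mul_cancel]
          exact (hker _).1 h4
        have h5 := (E (i + 1)).mul_mem hy (hanti _ _ hik h3)
        rwa [mul_inv_cancel_left] at h5
      exact ⟨x, hp _ x hx n hn h2, rfl⟩
    · have h2 : π x = 1 := (hker x).2 (hanti _ _ (by omega) hx)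
      rw [h2]
      exact (D (i + 1)).one_mem
  refine ⟨li_of_tower D k hD0 hDk hDc hDt, fol_of_tower D k hD0 hDk hDa hDc, ?_⟩
  apply rf_of_single
  intro q hq
  obtain ⟨x, rfl⟩ := QuotientGroup.mk'_surjective (E k) q
  obtain ⟨F, _, _, ψ, hψ, hx⟩ := hrf x (fun h => hq ((hker x).2 h))
  let Ψ : H ⧸ E k →* F := QuotientGroup.lift (E k) ψ hψ
  refine ⟨Ψ.ker, inferInstance, ?_, ?_⟩
  · rw [MonoidHom.mem_ker]
    exact hx
  · exact Finite.of_equiv _ (QuotientGroup.quotientKerEquivRange Ψ).symm.toEquiv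

end Pool.Agent.TH107.AT
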