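import Pool.Agent.TH107.AT.Luck
import Pool.Agent.TH107.AT.Ore
import Pool.Agent.Helper111.EN.Resid

/-!
Integrality for groups residually amenable, locally indicable and residually finite.
-/

set_option autoImplicit false
set_option linter.unusedSectionVars false

open scoped InnerProductSpace ENNReal
open Filter Topology

namespace Pool.Agent.TH107.AT

open Pool.Agent.H80R2
open Pool.Agent.H80R2.BC (L2 GMat vdim IsTr LInv Equi act kerA)
open Pool.Agent.H812R3
open Pool.Agent.W656.VA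
open Pool.Agent.TH107.RF (LI)
open Pool.Agent.TH714.PF (Fol)

variable {ι κ μ G : Type} [Group G] [Fintype ι] [Fintype κ] [Fintype μ]

/-- the class of residually finite, amenable, locally indicable groups -/
def Good (Q : Type) [Group Q] : Prop := LI Q ∧ Fol Q ∧ RF Q

theorem integral_good (hG : ResBy Good G) {n : ℕ} (X : Matrix κ (Fin n) (MonoidAlgebra ℂ G))
    (hX : Itg X) : ∃ z : ℤ, vdim (kr (mop X)) = z :=
  integral_of_res (C := Good) hG (fun _ _ h => h.2.2)
    (fun _ _ h Y _ => integral_ore h.1 h.2.1 n κ Y) X hX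

/-- every finitely generated subgroup is residually good -/
def LocGood (G : Type) [Group G] : Prop := ∀ H : Subgroup G, H.FG → ResBy Good H

theorem integral_loc (hG : LocGood G) {n : ℕ} (X : Matrix κ (Fin n) (MonoidAlgebra ℂ G))
    (hX : Itg X) : ∃ z : ℤ, vdim (kr (mop X)) = z := by
  classical
  let T : Finset G := Finset.univ.biUnion fun k => Finset.univ.biUnion fun i : Fin n =>
    (X k i).coeff.support
  let H : Subgroup G := Subgroup.closure (T : Set G)
  have hH : H.FG := ⟨T, rfl⟩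
  let X0 : Matrix κ (Fin n) (MonoidAlgebra ℂ H) := Matrix.of fun k i =>
    MonoidAlgebra.ofCoeff ((X k i).coeff.comapDomain H.subtype H.subtype_injective.injOn)
  have hX0 : Itg X0 := fun k i g => hX k i _
  obtain ⟨z, hz⟩ := integral_good (hG H hH) X0 hX0
  refine ⟨z, ?_⟩
  rw [← hz, kr_mop, kr_mop, ← vdim_push H.subtype H.subtype_injective]
  congr 2
  funext k i
  change _ = ((X k i).coeff.comapDomain H.subtype H.subtype_injective.injOn).mapDomain H.subtype
  rw [Finsupp.mapDomain_comapDomain _ H.subtype_injective]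
  intro x hx
  have : x ∈ H := Subgroup.subset_closure (by
    simp only [T, Finset.coe_biUnion, Set.mem_iUnion]
    exact ⟨k, Finset.mem_univ _, i, Finset.mem_univ _, hx⟩)
  exact ⟨⟨x, this⟩, rfl⟩

/-- products of finite quotients -/
theorem rf_of_single (h : ∀ g : G, g ≠ 1 → ∃ (N : Subgroup G) (_ : N.Normal), g ∉ N ∧
    Finite (G ⧸ N)) : RF G := by
  classical
  intro S hS
  choose N hN hgN hfin using fun s : S => h s (hS s s.2)
  refine ⟨∀ s : S, G ⧸ N s, inferInstance, Pi.monoidHom (fun s => QuotientGroup.mk' (N s)),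
    ?_, ?_⟩
  · exact Pi.finite
  · intro s hs h1
    have h2 := congrFun h1 ⟨s, hs⟩
    have h3 : (QuotientGroup.mk s : G ⧸ N ⟨s, hs⟩) = 1 := h2
    rw [QuotientGroup.eq_one_iff] at h3
    exact hgN ⟨s, hs⟩ h3

/-- groups with a finite series with torsion-free abelian factors are locally indicable -/
theorem li_of_tower (D : ℕ → Subgroup G) (k : ℕ) (h0 : D 0 = ⊤) (hk : D k = ⊥)
    (hc : ∀ i, ∀ x ∈ D i, ∀ y ∈ D i, x * y * x⁻¹ * y⁻¹ ∈ D (i + 1))
    (ht : ∀ i, ∀ x ∈ D i, ∀ n : ℕ, n ≠ 0 → x ^ n ∈ D (i + 1) → x ∈ D (i + 1)) : LI G := by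
  classical
  intro L hL hne
  have hex : ∃ i, ¬ L ≤ D i := ⟨k, fun h => hne (by rw [hk] at h; exact le_bot_iff.1 h)⟩
  have h1 := Nat.find_spec hex
  have hlt := fun {m} => @Nat.find_min _ _ hex m
  obtain ⟨i, hi⟩ : ∃ i, Nat.find hex = i + 1 := by
    refine ⟨Nat.find hex - 1, ?_⟩
    have : Nat.find hex ≠ 0 := by
      intro h
      apply h1
      rw [h, h0]
      exact le_top
    omega
  rw [hi] at h1 hlt
  have h2 : L ≤ D i := by
    by_contra hcon
    exact hlt (Nat.lt_succ_self i) hcon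
  set K := (D (i + 1)).subgroupOf L with hK
  have hKn : K.Normal := by
    constructor
    intro x hx g
    have h3 : (g : G) * x * (g : G)⁻¹ * (x : G)⁻¹ ∈ D (i + 1) :=
      hc i g (h2 g.2) x (h2 x.2)
    have h4 : (g : G) * x * (g : G)⁻¹ = (g * x * (g : G)⁻¹ * (x : G)⁻¹) * x := by group
    change (g : G) * x * (g : G)⁻¹ ∈ D (i + 1)
    rw [h4]
    exact (D (i + 1)).mul_mem h3 hx
  have hcomm : ∀ a b : L ⧸ K, a * b = b * a := by
    intro a b
    obtain ⟨x, rfl⟩ := QuotientGroup.mk'_surjective K a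
    obtain ⟨y, rfl⟩ := QuotientGroup.mk'_surjective K b
    rw [← map_mul, ← map_mul]
    change (QuotientGroup.mk (x * y) : L ⧸ K) = QuotientGroup.mk (y * x)
    rw [eq_comm, QuotientGroup.eq]
    have h3 : (x⁻¹ : G) * (y : G)⁻¹ * ((x : G)⁻¹)⁻¹ * ((y : G)⁻¹)⁻¹ ∈ D (i + 1) :=
      hc i _ (h2 (L.inv_mem x.2)) _ (h2 (L.inv_mem y.2))
    rw [inv_inv, inv_inv] at h3
    have h4 : ((y * x : L)⁻¹ * (x * y) : L).1 = (x⁻¹ : G) * (y : G)⁻¹ * (x : G) * (y : G) := by
      simp only [Subgroup.coe_mul, Subgroup.coe_inv, mul_inv_rev]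
      group
    change ((y * x : L)⁻¹ * (x * y) : L).1 ∈ D (i + 1)
    rw [h4]
    exact h3
  let _ : CommGroup (L ⧸ K) := { (inferInstance : Group (L ⧸ K)) with mul_comm := hcomm }
  have hfg : Group.FG L := (Group.fg_iff_subgroup_fg L).2 hL
  obtain ⟨x, hxL, hx⟩ := SetLike.not_le_iff_exists.1 h1
  refine Pool.Agent.TH107.RF.to_int (V := Additive (L ⧸ K)) ?_
    (MonoidHom.mk' (fun a : L => Multiplicative.ofAdd (Additive.ofMul (QuotientGroup.mk' K a)))
      (fun a b => rfl)) ⟨⟨x, hxL⟩, ?_⟩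
  · intro n v hn hv
    obtain ⟨y, hy⟩ := QuotientGroup.mk'_surjective K (Additive.toMul v)
    have h3 : (Additive.toMul v) ^ n = 1 := hv
    rw [← hy, ← map_pow] at h3
    have h4 : y ^ n ∈ K := by
      rw [← QuotientGroup.eq_one_iff]
      exact h3
    have h5 : (y : G) ∈ D (i + 1) := ht i y (h2 y.2) n hn h4
    have h6 : QuotientGroup.mk' K y = 1 := (QuotientGroup.eq_one_iff _).2 h5
    rw [h6] at hy
    exact hy.symm
  · intro h3
    have h4 : QuotientGroup.mk' K ⟨x, hxL⟩ = 1 := h3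
    have h5 : (⟨x, hxL⟩ : L) ∈ K := (QuotientGroup.eq_one_iff _).1 h4
    exact hx h5

/-! ### rational matrices -/

/-- common denominators -/
theorem exists_den {α : Type} (s : Finset α) (f : α → ℚ) :
    ∃ D : ℕ, D ≠ 0 ∧ ∀ a ∈ s, ∃ z : ℤ, (D : ℚ) * f a = z := by
  classical
  induction s using Finset.induction_on with
  | empty => exact ⟨1, one_ne_zero, fun a ha => absurd ha (Finset.notMem_empty a)⟩
  | insert a s ha ih =>
    obtain ⟨D, hD, h⟩ := ih
    refine ⟨D * (f a).den, mul_ne_zero hD (f a).den_nz, fun b hb => ?_⟩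
    rcases Finset.mem_insert.1 hb with rfl | hb
    · refine ⟨D * (f b).num, ?_⟩
      push_cast
      rw [mul_assoc]
      congr 1
      have := Rat.den_mul_eq_num (f b)
      exact this
    · obtain ⟨z, hz⟩ := h b hb
      refine ⟨(f a).den * z, ?_⟩
      push_cast
      rw [← hz]
      ring

/-- kernel of right multiplication by a rational matrix -/
def kset {m n : ℕ} (A : Matrix (Fin m) (Fin n) (G →₀ ℚ)) :
    Set (lp (fun _ : Fin m × G => ℂ) 2) :=
  {x | ∀ (j : Fin n) (g : G), ∑ k : Fin m, ∑ h ∈ (A k j).support,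
    x (k, g * h⁻¹) * ((A k j h : ℚ) : ℂ) = 0}

open Classical in
/-- its von Neumann dimension -/
noncomputable def kdim {m n : ℕ} (A : Matrix (Fin m) (Fin n) (G →₀ ℚ)) : ℝ :=
  ∑ i : Fin m, (1 - Metric.infDist
    (lp.single (E := fun _ : Fin m × G => ℂ) 2 (i, (1 : G)) (1 : ℂ)) (kset A) ^ 2)

/-- rational matrices have the kernels of integral ones -/
theorem exists_itg {m n : ℕ} (A : Matrix (Fin m) (Fin n) (G →₀ ℚ)) :
    ∃ X : Matrix (Fin n) (Fin m) (MonoidAlgebra ℂ G), Itg X ∧ kdim A = vdim (kr (mop X)) := by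
  classical
  obtain ⟨D, hD, hDz⟩ := exists_den
    ((Finset.univ.biUnion fun i : Fin m => Finset.univ.biUnion fun j : Fin n =>
      (A i j).support.image fun h => (i, j, h)))
    (fun t => A t.1 t.2.1 t.2.2)
  have hDz' : ∀ i j h, ∃ z : ℤ, (D : ℚ) * A i j h = z := by
    intro i j h
    by_cases h0 : A i j h = 0
    · exact ⟨0, by rw [h0]; simp⟩
    · apply hDz (i, j, h)
      simp only [Finset.mem_biUnion, Finset.mem_image]
      exact ⟨i, Finset.mem_univ _, j, Finset.mem_univ _, h, Finsupp.mem_support_iff.2 h0, rfl⟩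
  let B : Matrix (Fin m) (Fin n) (G →₀ ℂ) := Matrix.of fun i j =>
    (A i j).mapRange (fun q : ℚ => ((D : ℂ) * (q : ℂ))) (by simp)
  have hB : ∀ i j h, B i j h = (D : ℂ) * (A i j h : ℂ) := by
    intro i j h
    simp only [B, Matrix.of_apply, Finsupp.mapRange_apply]
  have hDc : (D : ℂ) ≠ 0 := by exact_mod_cast hD
  have hset : kernelSet B = kset A := by
    ext x
    refine forall_congr' fun j => forall_congr' fun g => ?_
    have h1 : ∑ i' : Fin m, (B i' j).sum (fun h c => x (i', g * h⁻¹) * c) =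
        (D : ℂ) * ∑ k : Fin m, ∑ h ∈ (A k j).support, x (k, g * h⁻¹) * ((A k j h : ℚ) : ℂ) := by
      rw [Finset.mul_sum]
      refine Finset.sum_congr rfl fun i _ => ?_
      have hs : (B i j).support ⊆ (A i j).support := by
        intro h hh
        rw [Finsupp.mem_support_iff] at hh ⊢
        intro h0
        apply hh
        rw [hB, h0]
        simp
      rw [Finsupp.sum_of_support_subset _ hs _ (fun _ _ => mul_zero _), Finset.mul_sum]
      refine Finset.sum_congr rfl fun h _ => ?_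
      rw [hB]
      ring
    rw [h1, mul_eq_zero, or_iff_right hDc]
  refine ⟨Matrix.of fun j i => MonoidAlgebra.ofCoeff (cv B j i), ?_, ?_⟩
  · intro j i g
    have h1 := coef_mapDomain (R := (Int.castRingHom ℂ).range) (fun g : G => g⁻¹) (B i j)
      (fun x => by
        obtain ⟨z, hz⟩ := hDz' i j x
        refine ⟨z, ?_⟩
        rw [hB]
        have h2 := congrArg (fun q : ℚ => (q : ℂ)) hz
        simp only [Rat.cast_mul, Rat.cast_natCast, Rat.cast_intCast] at h2
        rw [h2]
        rfl) g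
    obtain ⟨z, hz⟩ := h1
    exact ⟨z, hz.symm⟩
  · rw [kr_mop]
    change kdim A = vdim (kerA (cv B))
    rw [← kerDim_eq]
    unfold kdim kerDim
    rw [hset]

end Pool.Agent.TH107.AT
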